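import Mathlib

/-!
# Linear independence of the products of roots of shifted variables
-/

set_option autoImplicit false

namespace Pool.Agent.V5helper54.MR

open Finset Filter Topology Polynomial

/-- separation of the residue classes of the exponents -/
lemma sep {d : ℕ} (G : Fin d → ℝ → ℝ) (hG : ∀ j, AnalyticAt ℝ (G j) 0)
    (h : ∀ᶠ u in 𝓝[>] (0 : ℝ), ∑ j : Fin d, u ^ (j : ℕ) * G j (u ^ d) = 0) :
    ∀ j, ∀ᶠ t in 𝓝 (0 : ℝ), G j t = 0 := by
  classical
  by_contra hcon
  simp only [not_forall] at hcon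
  obtain ⟨j0, hj0⟩ := hcon
  have hd0 : d ≠ 0 := by
    rintro rfl
    exact j0.elim0
  have hfac : ∀ j, ∃ (n : ℕ) (g : ℝ → ℝ), AnalyticAt ℝ g 0 ∧
      (∀ᶠ t in 𝓝 (0 : ℝ), G j t = t ^ n * g t) ∧ ((¬ ∀ᶠ t in 𝓝 (0 : ℝ), G j t = 0) → g 0 ≠ 0) := by
    intro j
    by_cases hj : ∀ᶠ t in 𝓝 (0 : ℝ), G j t = 0
    · refine ⟨0, G j, hG j, Eventually.of_forall fun t => by simp, fun h => absurd hj h⟩
    · obtain ⟨n, g, hg1, hg2, hg3⟩ := (hG j).exists_eventuallyEq_pow_smul_nonzero_iff.2 hj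
      refine ⟨n, g, hg1, ?_, fun _ => hg2⟩
      filter_upwards [hg3] with t ht
      rw [ht, sub_zero, smul_eq_mul]
  choose n g hg1 hg2 hg3 using hfac
  obtain ⟨J, hJ⟩ : ∃ J : Finset (Fin d), J = univ.filter (fun j => ¬ ∀ᶠ t in 𝓝 (0 : ℝ), G j t = 0) :=
    ⟨_, rfl⟩
  have hJ0 : j0 ∈ J := by
    rw [hJ, mem_filter]
    exact ⟨mem_univ _, hj0⟩
  obtain ⟨j1, hj1, hmin⟩ := J.exists_min_image (fun j => (j : ℕ) + d * n j) ⟨j0, hJ0⟩
  obtain ⟨m, hm⟩ : ∃ m : ℕ, m = (j1 : ℕ) + d * n j1 := ⟨_, rfl⟩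
  rw [← hm] at hmin
  have htd : Tendsto (fun u : ℝ => u ^ d) (𝓝[>] (0 : ℝ)) (𝓝 0) := by
    have h1 : Tendsto (fun u : ℝ => u ^ d) (𝓝 (0 : ℝ)) (𝓝 ((0 : ℝ) ^ d)) :=
      (continuous_pow d).tendsto 0
    rw [zero_pow hd0] at h1
    exact h1.mono_left nhdsWithin_le_nhds
  obtain ⟨Φ, hΦ⟩ : ∃ Φ : ℝ → ℝ, Φ = fun u => ∑ j ∈ J, u ^ ((j : ℕ) + d * n j - m) * g j (u ^ d) :=
    ⟨_, rfl⟩
  -- the function vanishes
  have hzero : ∀ᶠ u in 𝓝[>] (0 : ℝ), Φ u = 0 := by
    have h1 : ∀ᶠ u in 𝓝[>] (0 : ℝ), ∀ j, G j (u ^ d) = (u ^ d) ^ n j * g j (u ^ d) :=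
      eventually_all.2 fun j => htd.eventually (hg2 j)
    have h2 : ∀ᶠ u in 𝓝[>] (0 : ℝ), ∀ j, j ∉ J → G j (u ^ d) = 0 := by
      refine eventually_all.2 fun j => ?_
      by_cases hj : j ∈ J
      · exact Eventually.of_forall fun u hu => absurd hj hu
      · have h3 : ∀ᶠ t in 𝓝 (0 : ℝ), G j t = 0 := by
          by_contra h4
          exact hj (by rw [hJ, mem_filter]; exact ⟨mem_univ _, h4⟩)
        filter_upwards [htd.eventually h3] with u hu _
        exact hu
    filter_upwards [h, h1, h2, self_mem_nhdsWithin] with u hu hu1 hu2 hu0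
    have hu0' : (0 : ℝ) < u := hu0
    have h3 : ∑ j : Fin d, u ^ (j : ℕ) * G j (u ^ d) = ∑ j ∈ J, u ^ (j : ℕ) * G j (u ^ d) := by
      symm
      refine Finset.sum_subset (subset_univ _) fun j _ hj => ?_
      rw [hu2 j hj, mul_zero]
    rw [h3] at hu
    have h4 : u ^ m * Φ u = 0 := by
      rw [hΦ, Finset.mul_sum, ← hu]
      refine Finset.sum_congr rfl fun j hj => ?_
      rw [hu1 j, ← mul_assoc, ← mul_assoc, ← pow_add, ← pow_mul, ← pow_add,
        Nat.add_sub_cancel' (hmin j hj)]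
    exact (mul_eq_zero.1 h4).resolve_left (pow_ne_zero _ hu0'.ne')
  -- the limit
  have hlim : Tendsto Φ (𝓝[>] (0 : ℝ)) (𝓝 (g j1 0)) := by
    have h1 : g j1 0 = ∑ j ∈ J, (0 : ℝ) ^ ((j : ℕ) + d * n j - m) * g j 0 := by
      rw [Finset.sum_eq_single_of_mem j1 hj1]
      · rw [hm, Nat.sub_self, pow_zero, one_mul]
      · intro j hj hne
        have h2 := hmin j hj
        have h3 : (j : ℕ) + d * n j - m ≠ 0 := by
          intro h4
          have h5 : (j : ℕ) + d * n j = (j1 : ℕ) + d * n j1 := by omega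
          have h6 : ((j : ℕ) + d * n j) % d = ((j1 : ℕ) + d * n j1) % d := by rw [h5]
          rw [Nat.add_mul_mod_self_left, Nat.add_mul_mod_self_left, Nat.mod_eq_of_lt j.2,
            Nat.mod_eq_of_lt j1.2] at h6
          exact hne (Fin.ext h6)
        rw [zero_pow h3, zero_mul]
    rw [h1, hΦ]
    refine tendsto_finsetSum _ fun j _ => Tendsto.mul ?_ ?_
    · exact ((continuous_pow _).tendsto 0).mono_left nhdsWithin_le_nhds
    · exact (hg1 j).continuousAt.tendsto.comp htd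
  have h0 : Tendsto Φ (𝓝[>] (0 : ℝ)) (𝓝 0) :=
    (tendsto_congr' hzero).2 tendsto_const_nhds
  have hj1' : ¬ ∀ᶠ t in 𝓝 (0 : ℝ), G j1 t = 0 := by
    rw [hJ, mem_filter] at hj1
    exact hj1.2
  exact hg3 j1 hj1' (tendsto_nhds_unique hlim h0)

lemma an_rpow (c r : ℝ) {t : ℝ} (ht : 0 < t + c) : AnalyticAt ℝ (fun t : ℝ => (t + c) ^ r) t := by
  have h1 : AnalyticAt ℝ (fun t : ℝ => Real.exp (Real.log (t + c) * r)) t := by
    have h2 : AnalyticAt ℝ (fun t : ℝ => t + c) t := by fun_prop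
    exact ((h2.log ht).mul analyticAt_const).rexp
  refine h1.congr ?_
  have h2 : ∀ᶠ t' in 𝓝 t, 0 < t' + c := by
    have : ContinuousAt (fun t : ℝ => t + c) t := by fun_prop
    exact this.eventually (lt_mem_nhds ht)
  filter_upwards [h2] with t' ht'
  rw [Real.rpow_def_of_pos ht']

/-- **the products of the roots of the shifted variables are linearly independent over the
polynomials** -/
lemma mon_indep (d : ℕ) (hd : 1 ≤ d) (k : ℕ) : ∀ (s : Fin k → ℝ), StrictMono s →
    ∀ P : (Fin k → Fin d) → ℝ[X],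
    (∀ᶠ x : ℝ in atTop, ∑ e : Fin k → Fin d,
      (P e).eval x * ∏ i, (x + s i) ^ (((e i : ℕ) : ℝ) / d) = 0) →
    ∀ e, P e = 0 := by
  classical
  induction k with
  | zero =>
    intro s _ P h e
    have h1 : ∀ᶠ x : ℝ in atTop, (P e).eval x = 0 := by
      filter_upwards [h] with x hx
      rw [Fintype.sum_unique] at hx
      simp only [Finset.univ_eq_empty, Finset.prod_empty, mul_one] at hx
      rw [Subsingleton.elim e default]
      exact hx
    obtain ⟨x0, hx0⟩ := eventually_atTop.1 h1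
    refine Polynomial.eq_zero_of_infinite_isRoot _ ?_
    refine Set.Infinite.mono (s := Set.Ici x0) ?_ (Set.Ici_infinite x0)
    intro x hx
    exact hx0 x hx
  | succ k ih =>
    intro s hs P h
    obtain ⟨G, hGd⟩ : ∃ G : Fin d → ℝ → ℝ, G = fun j t => ∑ e' : Fin k → Fin d,
      (P (Fin.cons j e')).eval (t - s 0) *
        ∏ i : Fin k, (t + (s i.succ - s 0)) ^ (((e' i : ℕ) : ℝ) / d) := ⟨_, rfl⟩
    have hGan : ∀ j, ∀ t : ℝ, 0 ≤ t → AnalyticAt ℝ (G j) t := by
      intro j t ht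
      rw [hGd]
      refine Finset.analyticAt_fun_sum _ fun e' _ => AnalyticAt.mul ?_ ?_
      · have h1 : AnalyticAt ℝ (fun t : ℝ => t - s 0) t := by fun_prop
        have h2 : Differentiable ℝ (fun x => (P (Fin.cons j e')).eval x) :=
          (P (Fin.cons j e')).differentiable
        have h3 : AnalyticAt ℝ (fun x => (P (Fin.cons j e')).eval x) (t - s 0) := by
          have := (AnalyticOnNhd.eval_polynomial (𝕜 := ℝ) (P (Fin.cons j e')))
          exact this _ trivial
        exact h3.comp_of_eq h1 rfl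
      · refine Finset.analyticAt_fun_prod _ fun i _ => ?_
        refine an_rpow _ _ ?_
        have := hs (Fin.succ_pos i)
        linarith
    -- decomposition with respect to the first root
    have hdec : ∀ t : ℝ, ∑ e : Fin (k + 1) → Fin d,
        (P e).eval (t - s 0) * ∏ i, (t - s 0 + s i) ^ (((e i : ℕ) : ℝ) / d) =
        ∑ j : Fin d, t ^ (((j : ℕ) : ℝ) / d) * G j t := by
      intro t
      rw [← (Fin.consEquiv (fun _ : Fin (k + 1) => Fin d)).sum_comp, Fintype.sum_prod_type]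
      refine Finset.sum_congr rfl fun j _ => ?_
      rw [hGd, Finset.mul_sum]
      refine Finset.sum_congr rfl fun e' _ => ?_
      simp only [Fin.consEquiv, Equiv.coe_fn_mk]
      rw [Fin.prod_univ_succ]
      simp only [Fin.cons_zero, Fin.cons_succ, sub_add_cancel]
      have h1 : ∀ i : Fin k, t - s 0 + s i.succ = t + (s i.succ - s 0) := fun i => by ring
      simp only [h1]
      ring
    have hF : ∀ t ∈ Set.Ioi (0 : ℝ), ∑ j : Fin d, t ^ (((j : ℕ) : ℝ) / d) * G j t = 0 := by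
      have han : AnalyticOnNhd ℝ (fun t : ℝ => ∑ j : Fin d, t ^ (((j : ℕ) : ℝ) / d) * G j t)
          (Set.Ioi (0 : ℝ)) := by
        intro t ht
        have ht0 : (0 : ℝ) < t := ht
        refine Finset.analyticAt_fun_sum _ fun j _ => AnalyticAt.mul ?_ (hGan j t ht0.le)
        have := an_rpow 0 (((j : ℕ) : ℝ) / d) (t := t) (by linarith)
        simpa using this
      have hev : ∀ᶠ t : ℝ in atTop, ∑ j : Fin d, t ^ (((j : ℕ) : ℝ) / d) * G j t = 0 := by
        have h1 : Tendsto (fun t : ℝ => t - s 0) atTop atTop :=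
          tendsto_atTop_add_const_right _ _ tendsto_id
        filter_upwards [h1.eventually h] with t ht
        rw [← hdec]
        exact ht
      obtain ⟨t0, ht0⟩ := eventually_atTop.1 hev
      obtain ⟨t1, ht1⟩ : ∃ t1 : ℝ, t1 = max t0 0 + 1 := ⟨_, rfl⟩
      have ht1a : t0 < t1 := by rw [ht1]; linarith [le_max_left t0 0]
      have ht1b : 0 < t1 := by rw [ht1]; linarith [le_max_right t0 0]
      have h2 : (fun t : ℝ => ∑ j : Fin d, t ^ (((j : ℕ) : ℝ) / d) * G j t) =ᶠ[𝓝 t1] 0 := by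
        filter_upwards [lt_mem_nhds ht1a] with t ht
        exact ht0 t ht.le
      intro t ht
      exact han.eqOn_zero_of_preconnected_of_eventuallyEq_zero isPreconnected_Ioi ht1b h2 ht
    have hsep := sep G (fun j => hGan j 0 le_rfl) (by
      filter_upwards [self_mem_nhdsWithin] with u hu
      have hu0 : (0 : ℝ) < u := hu
      have hud : (0 : ℝ) < u ^ d := by positivity
      rw [← hF (u ^ d) hud]
      refine Finset.sum_congr rfl fun j _ => ?_
      congr 1
      have hd0 : (d : ℝ) ≠ 0 := by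
        have : (0 : ℝ) < d := by exact_mod_cast (by omega : 0 < d)
        exact this.ne'
      rw [← Real.rpow_natCast u d, ← Real.rpow_mul hu0.le, mul_div_cancel₀ _ hd0,
        Real.rpow_natCast])
    have hG0 : ∀ j, ∀ t ∈ Set.Ici (0 : ℝ), G j t = 0 := by
      intro j t ht
      have han : AnalyticOnNhd ℝ (G j) (Set.Ici (0 : ℝ)) := fun t ht => hGan j t ht
      exact han.eqOn_zero_of_preconnected_of_eventuallyEq_zero isPreconnected_Ici
        (Set.self_mem_Ici) (hsep j) ht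
    intro e
    have h1 := ih (fun i => s i.succ) (fun a b hab => hs (Fin.succ_lt_succ_iff.2 hab))
      (fun e' => P (Fin.cons (e 0) e')) (by
        filter_upwards [eventually_ge_atTop (-s 0)] with x hx
        have h2 := hG0 (e 0) (x + s 0) (by
          show (0 : ℝ) ≤ x + s 0
          linarith)
        rw [hGd] at h2
        simp only [add_sub_cancel_right] at h2
        rw [← h2]
        refine Finset.sum_congr rfl fun e' _ => ?_
        congr 1
        refine Finset.prod_congr rfl fun i _ => ?_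
        congr 1
        ring) (Fin.tail e)
    rwa [Fin.cons_self_tail] at h1

end Pool.Agent.V5helper54.MR
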