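import Pool.Agent.V5helper54.MR.Fam
import Pool.Agent.V5helper54.MR.Ind

/-!
# Products of roots of shifted variables
-/

set_option autoImplicit false

namespace Pool.Agent.V5helper54.MR

open Finset Filter Topology Polynomial

/-- the exponents which are not all zero -/
abbrev Ex (d k : ℕ) : Type := {e : Fin k → Fin d // ∃ i, (e i : ℕ) ≠ 0}

/-- the polynomial under the root -/
noncomputable def fm (d k R : ℕ) (s : Fin k → ℕ) (p : Ex d k × Fin (R + 1)) : ℤ[X] :=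
  X ^ (d * (p.2 : ℕ)) * ∏ i, (X + C (s i : ℤ)) ^ ((p.1.1 i : Fin d) : ℕ)

lemma fm_monic (d k R : ℕ) (s : Fin k → ℕ) (p : Ex d k × Fin (R + 1)) : (fm d k R s p).Monic := by
  unfold fm
  refine (monic_X_pow _).mul (monic_prod_of_monic _ _ fun i _ => ?_)
  exact (monic_X_add_C _).pow _

lemma fm_val {d : ℕ} (hd : 1 ≤ d) (k R : ℕ) (s : Fin k → ℕ) (p : Ex d k × Fin (R + 1)) {x : ℝ}
    (hx : 0 ≤ x) : (aeval x (fm d k R s p) : ℝ) ^ (1 / (d : ℝ)) =
      x ^ (p.2 : ℕ) * ∏ i, (x + s i) ^ ((((p.1.1 i : Fin d) : ℕ) : ℝ) / d) := by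
  have hd0 : (d : ℝ) ≠ 0 := by
    have : (0 : ℝ) < d := by exact_mod_cast (by omega : 0 < d)
    exact this.ne'
  have hxs : ∀ i, 0 ≤ x + s i := fun i => by positivity
  unfold fm
  rw [map_mul, map_pow, aeval_X, map_prod]
  have h1 : ∀ i, (aeval x ((X + C (s i : ℤ)) ^ ((p.1.1 i : Fin d) : ℕ)) : ℝ) =
      (x + s i) ^ ((p.1.1 i : Fin d) : ℕ) := by
    intro i
    rw [map_pow, map_add, aeval_X, aeval_C]
    simp
  simp only [h1]
  rw [Real.mul_rpow (by positivity) (Finset.prod_nonneg fun i _ => pow_nonneg (hxs i) _),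
    ← Real.finsetProd_rpow _ _ (fun i _ => pow_nonneg (hxs i) _)]
  congr 1
  · rw [← Real.rpow_natCast x (d * (p.2 : ℕ)), ← Real.rpow_mul hx, ← Real.rpow_natCast x (p.2 : ℕ)]
    congr 1
    push_cast
    field_simp
  · refine Finset.prod_congr rfl fun i _ => ?_
    rw [← Real.rpow_natCast (x + s i), ← Real.rpow_mul (hxs i)]
    congr 1
    ring

lemma fm_indep {d : ℕ} (hd : 1 ≤ d) (k R : ℕ) (s : Fin k → ℕ) (hs : StrictMono s) :
    Indep d (fm d k R s) := by
  classical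
  intro c hc P hP
  obtain ⟨Q, hQ⟩ : ∃ Q : (Fin k → Fin d) → ℝ[X], Q = fun e =>
    if h : ∃ i, (e i : ℕ) ≠ 0 then ∑ l : Fin (R + 1), C (c (⟨e, h⟩, l) : ℝ) * X ^ (l : ℕ)
      else -P := ⟨_, rfl⟩
  have hsR : StrictMono (fun i => (s i : ℝ)) := fun a b hab => by
    have h0 : (s a : ℝ) < s b := by exact_mod_cast hs hab
    exact h0
  have hQ0 := mon_indep d hd k (fun i => (s i : ℝ)) hsR Q (by
    filter_upwards [hP, eventually_ge_atTop 0] with x hx hx0
    rw [← Finset.sum_filter_add_sum_filter_not univ (fun e : Fin k → Fin d => ∃ i, (e i : ℕ) ≠ 0)]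
    have h1 : ∑ e ∈ univ.filter (fun e : Fin k → Fin d => ∃ i, (e i : ℕ) ≠ 0),
        (Q e).eval x * ∏ i, (x + s i) ^ (((e i : ℕ) : ℝ) / d) = P.eval x := by
      rw [← hx, Fintype.sum_prod_type, Finset.sum_subtype (univ.filter
        (fun e : Fin k → Fin d => ∃ i, (e i : ℕ) ≠ 0)) (p := fun e => ∃ i, (e i : ℕ) ≠ 0)
        (fun e => by simp)]
      refine Finset.sum_congr rfl fun e _ => ?_
      rw [hQ]
      simp only [e.2, dif_pos]
      rw [eval_finsetSum, Finset.sum_mul]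
      refine Finset.sum_congr rfl fun l _ => ?_
      rw [fm_val hd k R s (e, l) hx0, eval_mul, eval_C, eval_pow, eval_X]
      ring
    have h2 : univ.filter (fun e : Fin k → Fin d => ¬ ∃ i, (e i : ℕ) ≠ 0) =
        {fun _ => (⟨0, hd⟩ : Fin d)} := by
      ext e
      simp only [mem_filter, mem_univ, true_and, mem_singleton, not_exists, not_not]
      constructor
      · intro h
        funext i
        exact Fin.ext (h i)
      · rintro rfl i
        rfl
    rw [h1, h2, Finset.sum_singleton, hQ]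
    simp)
  apply hc
  funext p
  obtain ⟨e, l⟩ := p
  have h3 := hQ0 e.1
  rw [hQ] at h3
  simp only [e.2, dif_pos] at h3
  have h4 : (∑ l : Fin (R + 1), C (c (e, l) : ℝ) * X ^ (l : ℕ)).coeff (l : ℕ) = (c (e, l) : ℝ) := by
    rw [finsetSum_coeff, Finset.sum_eq_single l]
    · rw [coeff_C_mul, coeff_X_pow, if_pos rfl, mul_one]
    · intro l' _ hne
      rw [coeff_C_mul, coeff_X_pow, if_neg (fun h => hne (Fin.ext h.symm)), mul_zero]
    · intro h
      exact absurd (mem_univ _) h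
  have h5 : (∑ l : Fin (R + 1), C (c (e, l) : ℝ) * X ^ (l : ℕ)) = 0 := h3
  rw [h5, coeff_zero] at h4
  show c (e, l) = 0
  exact_mod_cast h4.symm

/-- the exponential sums of the products of roots are small -/
theorem inst_small {d : ℕ} (hd : 1 ≤ d) (k R : ℕ) (s : Fin k → ℕ) (hs : StrictMono s) :
    ∃ C1, Small (fun (p : Ex d k × Fin (R + 1)) n => (n : ℝ) ^ (p.2 : ℕ) *
      ∏ i, ((n : ℝ) + s i) ^ ((((p.1.1 i : Fin d) : ℕ) : ℝ) / d)) C1 := by
  obtain ⟨C1, h⟩ := fam_small hd (fm d k R s) (fun p => by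
    rw [(fm_monic d k R s p).leadingCoeff]; exact one_pos) (fm_indep hd k R s hs)
  refine ⟨C1, ?_⟩
  have h1 : (fun (p : Ex d k × Fin (R + 1)) (n : ℕ) =>
      (aeval (n : ℝ) (fm d k R s p) : ℝ) ^ (1 / (d : ℝ))) =
      (fun (p : Ex d k × Fin (R + 1)) (n : ℕ) => (n : ℝ) ^ (p.2 : ℕ) *
      ∏ i, ((n : ℝ) + s i) ^ ((((p.1.1 i : Fin d) : ℕ) : ℝ) / d)) := by
    funext p n
    exact fm_val hd k R s p (Nat.cast_nonneg n)
  rw [← h1]
  exact h

end Pool.Agent.V5helper54.MR
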