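import Mathlib

/-!
# Linear independence of radicals of polynomials over the polynomials
-/

set_option autoImplicit false

namespace Pool.Agent.V5helper54.MR

open Finset Filter Topology Polynomial

/-- polynomials with proportional derivatives -/
lemma wr {A B : ℝ[X]} (hB : B ≠ 0) (h : derivative A * B = A * derivative B) :
    ∃ c : ℝ, A = C c * B := by
  classical
  obtain ⟨g, hg⟩ : ∃ g : ℝ[X], g = GCDMonoid.gcd A B := ⟨_, rfl⟩
  have hg0 : g ≠ 0 := by
    rw [hg]
    exact gcd_ne_zero_of_right hB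
  obtain ⟨a, ha⟩ : g ∣ A := by rw [hg]; exact gcd_dvd_left _ _
  obtain ⟨b, hb⟩ : g ∣ B := by rw [hg]; exact gcd_dvd_right _ _
  have hcop : IsCoprime a b := by
    have h1 := isCoprime_div_gcd_div_gcd (p := A) (q := B) hB
    rw [← hg] at h1
    have h2 : A / g = a := by rw [ha]; exact mul_div_cancel_left₀ _ hg0
    have h3 : B / g = b := by rw [hb]; exact mul_div_cancel_left₀ _ hg0
    rwa [h2, h3] at h1
  have hw : wronskian a b = 0 := by
    have h1 : g ^ 2 * wronskian a b = 0 := by
      have h2 : g ^ 2 * wronskian a b = A * derivative B - derivative A * B := by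
        unfold wronskian
        rw [ha, hb, derivative_mul, derivative_mul]
        ring
      rw [h2, h, sub_self]
    exact (mul_eq_zero.1 h1).resolve_left (pow_ne_zero _ hg0)
  obtain ⟨h1, h2⟩ := hcop.wronskian_eq_zero_iff.1 hw
  have h3 := eq_C_of_derivative_eq_zero h1
  have h4 := eq_C_of_derivative_eq_zero h2
  have h5 : b.coeff 0 ≠ 0 := by
    intro h0
    rw [h0, C_0] at h4
    rw [h4, mul_zero] at hb
    exact hB hb
  refine ⟨a.coeff 0 / b.coeff 0, ?_⟩
  rw [ha, hb]
  nth_rewrite 1 [h3]
  nth_rewrite 2 [h4]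
  have h6 : C (a.coeff 0) = C (a.coeff 0 / b.coeff 0) * C (b.coeff 0) := by
    rw [← C_mul, div_mul_cancel₀ _ h5]
  rw [h6]
  ring

lemma ev_ne {P : ℝ[X]} (hP : P ≠ 0) : ∀ᶠ x : ℝ in atTop, P.eval x ≠ 0 := by
  by_contra h
  have h1 : ∃ᶠ x : ℝ in atTop, P.eval x = 0 := by
    rw [not_eventually] at h
    simpa using h
  apply hP
  refine Polynomial.eq_zero_of_infinite_isRoot _ ?_
  intro hfin
  obtain ⟨B, hB⟩ := hfin.bddAbove
  obtain ⟨x, hx1, hx2⟩ := (h1.and_eventually (eventually_gt_atTop B)).exists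
  have := hB hx1
  linarith

lemma ev_zero {P : ℝ[X]} (h : ∀ᶠ x : ℝ in atTop, P.eval x = 0) : P = 0 := by
  by_contra hP
  obtain ⟨x, hx1, hx2⟩ := ((ev_ne hP).and h).exists
  exact hx1 hx2

lemma ev_pos {P : ℝ[X]} (hP : 0 < P.leadingCoeff) : ∀ᶠ x : ℝ in atTop, 0 < P.eval x := by
  rcases Nat.eq_zero_or_pos P.natDegree with h0 | h0
  · rw [eq_C_of_natDegree_eq_zero h0] at hP ⊢
    rw [leadingCoeff_C] at hP
    exact Eventually.of_forall fun x => by rw [eval_C]; exact hP
  · have h1 : Tendsto (fun x => P.eval x) atTop atTop :=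
      P.tendsto_atTop_of_leadingCoeff_nonneg (natDegree_pos_iff_degree_pos.1 h0) hP.le
    exact h1.eventually_gt_atTop 0

/-- **radicals are linearly independent over the polynomials** -/
lemma rad_indep (d : ℕ) (hd : 1 ≤ d) {κ : Type} [DecidableEq κ] (g : κ → ℝ[X])
    (hg : ∀ j, 0 < (g j).leadingCoeff)
    (h : ∀ i j, i ≠ j → ∀ a b : ℝ[X], a ≠ 0 → b ≠ 0 → a ^ d * g i ≠ b ^ d * g j)
    (J : Finset κ) : ∀ P : κ → ℝ[X],
    (∀ᶠ x : ℝ in atTop, ∑ j ∈ J, (P j).eval x * ((g j).eval x) ^ (1 / (d : ℝ)) = 0) →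
    ∀ j ∈ J, P j = 0 := by
  have hd0 : (d : ℝ) ≠ 0 := by
    have : (0 : ℝ) < d := by exact_mod_cast (by omega : 0 < d)
    exact this.ne'
  have hgne : ∀ j, g j ≠ 0 := fun j => by
    intro h0
    have := hg j
    rw [h0, leadingCoeff_zero] at this
    exact lt_irrefl _ this
  induction J using Finset.induction_on with
  | empty => intro P _ j hj; simp at hj
  | insert j0 J hj0 ih =>
    intro P hP
    by_cases hP0 : P j0 = 0
    · have h1 := ih P (by
        filter_upwards [hP] with x hx
        rw [Finset.sum_insert hj0, hP0, eval_zero, zero_mul, zero_add] at hx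
        exact hx)
      intro j hj
      rcases mem_insert.1 hj with rfl | hj
      · exact hP0
      · exact h1 j hj
    exfalso
    obtain ⟨F, hF⟩ : ∃ F : ℝ[X], F = ∏ i ∈ J, g i := ⟨_, rfl⟩
    obtain ⟨Fj, hFj⟩ : ∃ Fj : κ → ℝ[X], Fj = fun j => ∏ i ∈ J.erase j, g i := ⟨_, rfl⟩
    have hFF : ∀ j ∈ J, F = g j * Fj j := by
      intro j hj
      rw [hF, hFj, Finset.mul_prod_erase J g hj]
    have hFjne : ∀ j, Fj j ≠ 0 := by
      intro j
      rw [hFj]
      exact Finset.prod_ne_zero_iff.2 fun i _ => hgne i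
    obtain ⟨Q, hQ⟩ : ∃ Q : κ → ℝ[X], Q = fun j =>
      C (d : ℝ) * g j0 * F * (P j0 * derivative (P j) - P j * derivative (P j0)) +
      P j0 * P j * (g j0 * Fj j * derivative (g j) - F * derivative (g j0)) := ⟨_, rfl⟩
    -- the differentiated relation
    have hpos : ∀ᶠ x : ℝ in atTop, ∀ j ∈ insert j0 J, 0 < (g j).eval x :=
      (Finset.eventually_all _).2 fun j _ => ev_pos (hg j)
    have hder : ∀ᶠ x : ℝ in atTop, ∑ j ∈ insert j0 J,
        ((derivative (P j)).eval x + (P j).eval x * ((derivative (g j)).eval x /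
          (d * (g j).eval x))) * ((g j).eval x) ^ (1 / (d : ℝ)) = 0 := by
      obtain ⟨x0, hx0⟩ := eventually_atTop.1 (hP.and hpos)
      filter_upwards [eventually_gt_atTop x0] with x hx
      have h1 : HasDerivAt (fun x => ∑ j ∈ insert j0 J,
          (P j).eval x * ((g j).eval x) ^ (1 / (d : ℝ))) 0 x := by
        refine (hasDerivAt_const x (0 : ℝ)).congr_of_eventuallyEq ?_
        filter_upwards [lt_mem_nhds hx] with y hy
        exact (hx0 y hy.le).1
      have h2 : HasDerivAt (fun x => ∑ j ∈ insert j0 J,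
          (P j).eval x * ((g j).eval x) ^ (1 / (d : ℝ))) (∑ j ∈ insert j0 J,
          ((derivative (P j)).eval x * ((g j).eval x) ^ (1 / (d : ℝ)) + (P j).eval x *
            ((derivative (g j)).eval x * (1 / (d : ℝ)) * ((g j).eval x) ^ (1 / (d : ℝ) - 1)))) x := by
        refine HasDerivAt.fun_sum fun j hj => ?_
        have hgx := (hx0 x hx.le).2 j hj
        exact ((P j).hasDerivAt x).mul (((g j).hasDerivAt x).rpow_const (Or.inl hgx.ne'))
      refine Eq.trans ?_ (h1.unique h2).symm
      refine Finset.sum_congr rfl fun j hj => ?_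
      have hgx := (hx0 x hx.le).2 j hj
      rw [Real.rpow_sub_one hgx.ne']
      have := hgx.ne'
      field_simp
    have hQ0 := ih Q (by
      filter_upwards [hP, hder, hpos] with x h1 h2 h3
      obtain ⟨y, hy⟩ : ∃ y : κ → ℝ, y = fun j => ((g j).eval x) ^ (1 / (d : ℝ)) := ⟨_, rfl⟩
      have hyj : ∀ j, ((g j).eval x) ^ (1 / (d : ℝ)) = y j := fun j => by rw [hy]
      simp only [hyj] at h1 h2 ⊢
      rw [Finset.sum_insert hj0] at h1 h2
      have hg0 : (g j0).eval x ≠ 0 := (h3 j0 (mem_insert_self _ _)).ne'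
      have e1 : ∀ j ∈ J, (Q j).eval x * y j =
          d * (g j0).eval x * F.eval x * (P j0).eval x * (((derivative (P j)).eval x +
            (P j).eval x * ((derivative (g j)).eval x / (d * (g j).eval x))) * y j) -
          (d * (g j0).eval x * F.eval x * (derivative (P j0)).eval x +
            (P j0).eval x * F.eval x * (derivative (g j0)).eval x) * ((P j).eval x * y j) := by
        intro j hj
        have hgj : (g j).eval x ≠ 0 := (h3 j (mem_insert_of_mem hj)).ne'
        have hFx : F.eval x = (g j).eval x * (Fj j).eval x := by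
          rw [hFF j hj, eval_mul]
        rw [hQ]
        simp only [eval_add, eval_mul, eval_sub, eval_C]
        rw [hFx]
        field_simp
        ring
      rw [Finset.sum_congr rfl e1, Finset.sum_sub_distrib, ← Finset.mul_sum, ← Finset.mul_sum]
      have e2 : ∑ j ∈ J, ((derivative (P j)).eval x +
            (P j).eval x * ((derivative (g j)).eval x / (d * (g j).eval x))) * y j =
          -(((derivative (P j0)).eval x + (P j0).eval x * ((derivative (g j0)).eval x /
            (d * (g j0).eval x))) * y j0) := by linarith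
      have e3 : ∑ j ∈ J, (P j).eval x * y j = -((P j0).eval x * y j0) := by linarith
      rw [e2, e3]
      field_simp
      ring)
    -- all the other coefficients vanish
    have hall : ∀ j ∈ J, P j = 0 := by
      intro j hj
      by_contra hPj
      have hne : j ≠ j0 := fun h => hj0 (h ▸ hj)
      have h1 := hQ0 j hj
      rw [hQ] at h1
      simp only at h1
      rw [hFF j hj] at h1
      have h2 : Fj j * (C (d : ℝ) * (g j0 * g j) * (P j0 * derivative (P j) -
          P j * derivative (P j0)) + P j0 * P j * (g j0 * derivative (g j) -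
            g j * derivative (g j0))) = 0 := by
        rw [← h1]
        ring
      have h3 := (mul_eq_zero.1 h2).resolve_left (hFjne j)
      obtain ⟨c, hc⟩ := wr (A := P j ^ d * g j) (B := P j0 ^ d * g j0)
        (mul_ne_zero (pow_ne_zero _ hP0) (hgne j0)) (by
          obtain ⟨m, rfl⟩ : ∃ m, d = m + 1 := ⟨d - 1, by omega⟩
          rw [← sub_eq_zero]
          have h4 : derivative (P j ^ (m + 1) * g j) * (P j0 ^ (m + 1) * g j0) -
              P j ^ (m + 1) * g j * derivative (P j0 ^ (m + 1) * g j0) =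
              P j ^ m * P j0 ^ m * (C (((m + 1 : ℕ)) : ℝ) * (g j0 * g j) *
                (P j0 * derivative (P j) - P j * derivative (P j0)) + P j0 * P j *
                (g j0 * derivative (g j) - g j * derivative (g j0))) := by
            rw [derivative_mul, derivative_mul, derivative_pow, derivative_pow]
            simp only [Nat.add_sub_cancel]
            ring
          rw [h4, h3, mul_zero])
      -- the constant is a power
      have hl1 : 0 < (g j).leadingCoeff := hg j
      have hl2 : 0 < (g j0).leadingCoeff := hg j0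
      have hPl : (P j0).leadingCoeff ≠ 0 := leadingCoeff_ne_zero.2 hP0
      have hPl2 : (P j).leadingCoeff ≠ 0 := leadingCoeff_ne_zero.2 hPj
      obtain ⟨ρ, hρ⟩ : ∃ ρ : ℝ, ρ = ((g j).leadingCoeff / (g j0).leadingCoeff) ^ (1 / (d : ℝ)) :=
        ⟨_, rfl⟩
      have hρd : ρ ^ d = (g j).leadingCoeff / (g j0).leadingCoeff := by
        rw [hρ, ← Real.rpow_natCast, ← Real.rpow_mul (by positivity), one_div,
          inv_mul_cancel₀ hd0, Real.rpow_one]
      have hρ0 : ρ ≠ 0 := by
        rw [hρ]
        exact (Real.rpow_pos_of_pos (by positivity) _).ne'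
      obtain ⟨t, ht⟩ : ∃ t : ℝ, t = (P j).leadingCoeff / (P j0).leadingCoeff * ρ := ⟨_, rfl⟩
      have hlc := congrArg leadingCoeff hc
      rw [leadingCoeff_mul, leadingCoeff_mul, leadingCoeff_mul, leadingCoeff_pow, leadingCoeff_pow,
        leadingCoeff_C] at hlc
      have htd : t ^ d = c := by
        rw [ht, mul_pow, hρd, div_pow]
        field_simp
        linarith
      have ht0 : t ≠ 0 := by
        rw [ht]
        exact mul_ne_zero (div_ne_zero hPl2 hPl) hρ0
      refine h j j0 hne (P j) (C t * P j0) hPj (mul_ne_zero (C_ne_zero.2 ht0) hP0) ?_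
      rw [hc, mul_pow, ← C_pow, htd, mul_assoc]
    apply hP0
    apply ev_zero
    filter_upwards [hP, hpos] with x hx hx2
    rw [Finset.sum_insert hj0, Finset.sum_eq_zero (fun j hj => by rw [hall j hj, eval_zero, zero_mul]),
      add_zero] at hx
    have h1 : ((g j0).eval x) ^ (1 / (d : ℝ)) ≠ 0 :=
      (Real.rpow_pos_of_pos (hx2 j0 (mem_insert_self _ _)) _).ne'
    exact (mul_eq_zero.1 hx).resolve_right h1

end Pool.Agent.V5helper54.MR
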