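import Pool.Agent.V5helper54.MR.Fam
import Pool.Agent.V5helper54.MR.Rad

/-!
# Families of inequivalent radicals
-/

set_option autoImplicit false

namespace Pool.Agent.V5helper54.MR

open Finset Filter Topology Polynomial

/-- the polynomial under the root -/
noncomputable def fr {ι : Type} (d R : ℕ) (f : ι → ℤ[X]) (p : ι × Fin (R + 1)) : ℤ[X] :=
  X ^ (d * (p.2 : ℕ)) * f p.1

lemma fr_lead {ι : Type} (d R : ℕ) (f : ι → ℤ[X]) (p : ι × Fin (R + 1)) :
    (fr d R f p).leadingCoeff = (f p.1).leadingCoeff := by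
  unfold fr
  rw [leadingCoeff_mul, (monic_X_pow _).leadingCoeff, one_mul]

lemma fr_val {ι : Type} {d : ℕ} (hd : 1 ≤ d) (R : ℕ) (f : ι → ℤ[X]) (p : ι × Fin (R + 1)) {x : ℝ}
    (hx : 0 ≤ x) (hf : 0 ≤ (aeval x (f p.1) : ℝ)) :
    (aeval x (fr d R f p) : ℝ) ^ (1 / (d : ℝ)) =
      x ^ (p.2 : ℕ) * (aeval x (f p.1) : ℝ) ^ (1 / (d : ℝ)) := by
  have hd0 : (d : ℝ) ≠ 0 := by
    have : (0 : ℝ) < d := by exact_mod_cast (by omega : 0 < d)
    exact this.ne'
  unfold fr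
  rw [map_mul, map_pow, aeval_X, Real.mul_rpow (by positivity) hf]
  congr 1
  rw [← Real.rpow_natCast x (d * (p.2 : ℕ)), ← Real.rpow_mul hx, ← Real.rpow_natCast x (p.2 : ℕ)]
  congr 1
  push_cast
  field_simp

lemma aev_map (x : ℝ) (f : ℤ[X]) : (aeval x f : ℝ) = (f.map (Int.castRingHom ℝ)).eval x := by
  rw [aeval_def, eval_map]
  rfl

lemma fr_indep {ι : Type} [Fintype ι] {d : ℕ} (hd : 1 ≤ d) (R : ℕ) (f : ι → ℤ[X])
    (hf : ∀ j, 0 < (f j).leadingCoeff)
    (h1 : ∀ j, ∀ a : ℝ[X], (f j).map (Int.castRingHom ℝ) ≠ a ^ d)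
    (h2 : ∀ i j, i ≠ j → ∀ a b : ℝ[X], a ≠ 0 → b ≠ 0 →
      a ^ d * (f i).map (Int.castRingHom ℝ) ≠ b ^ d * (f j).map (Int.castRingHom ℝ)) :
    Indep d (fr d R f) := by
  classical
  intro c hc P hP
  obtain ⟨g, hg⟩ : ∃ g : Option ι → ℝ[X], g = fun o => match o with
    | none => 1
    | some j => (f j).map (Int.castRingHom ℝ) := ⟨_, rfl⟩
  have hgn : g none = 1 := by rw [hg]
  have hgs : ∀ j, g (some j) = (f j).map (Int.castRingHom ℝ) := fun j => by rw [hg]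
  have hlead : ∀ j, ((f j).map (Int.castRingHom ℝ)).leadingCoeff = (f j).leadingCoeff := by
    intro j
    rw [leadingCoeff_map_of_injective (RingHom.injective_int (Int.castRingHom ℝ))]
    simp
  have hgl : ∀ o, 0 < (g o).leadingCoeff := by
    intro o
    rcases o with _ | j
    · rw [hgn, leadingCoeff_one]; exact one_pos
    · rw [hgs, hlead]
      exact_mod_cast hf j
  have hroot : ∀ j, ∀ a b : ℝ[X], a ≠ 0 → a ^ d * (f j).map (Int.castRingHom ℝ) ≠ b ^ d := by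
    intro j a b ha h
    have h3 : a ^ d ∣ b ^ d := ⟨_, h.symm⟩
    obtain ⟨q, hq⟩ := (IsIntegrallyClosed.pow_dvd_pow_iff (by omega : d ≠ 0)).1 h3
    apply h1 j q
    rw [hq, mul_pow] at h
    exact mul_left_cancel₀ (pow_ne_zero _ ha) h
  have hrel : ∀ i j : Option ι, i ≠ j → ∀ a b : ℝ[X], a ≠ 0 → b ≠ 0 →
      a ^ d * g i ≠ b ^ d * g j := by
    intro i j hij a b ha hb
    rcases i with _ | i
    · rcases j with _ | j
      · exact absurd rfl hij
      · rw [hgn, hgs, mul_one]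
        exact fun h => hroot j b a hb h.symm
    · rcases j with _ | j
      · rw [hgn, hgs, mul_one]
        exact hroot i a b ha
      · rw [hgs, hgs]
        exact h2 i j (fun h => hij (by rw [h])) a b ha hb
  obtain ⟨Q, hQ⟩ : ∃ Q : Option ι → ℝ[X], Q = fun o => match o with
    | none => -P
    | some j => ∑ l : Fin (R + 1), C (c (j, l) : ℝ) * X ^ (l : ℕ) := ⟨_, rfl⟩
  have hQn : Q none = -P := by rw [hQ]
  have hQs : ∀ j, Q (some j) = ∑ l : Fin (R + 1), C (c (j, l) : ℝ) * X ^ (l : ℕ) := fun j => by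
    rw [hQ]
  have hQ0 := rad_indep d hd g hgl hrel univ Q (by
    have hpos : ∀ᶠ x : ℝ in atTop, ∀ o, 0 < (g o).eval x := eventually_all.2 fun o => ev_pos (hgl o)
    filter_upwards [hP, eventually_ge_atTop 0, hpos] with x hx hx0 hxp
    rw [Fintype.sum_option, hgn, hQn, eval_one, Real.one_rpow, mul_one, eval_neg, ← hx,
      Fintype.sum_prod_type, neg_add_eq_zero]
    refine Finset.sum_congr rfl fun j _ => ?_
    rw [hQs, eval_finsetSum, Finset.sum_mul]
    refine Finset.sum_congr rfl fun l _ => ?_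
    have h3 : (0 : ℝ) ≤ (aeval x (f j) : ℝ) := by
      rw [aev_map, ← hgs]
      exact (hxp _).le
    rw [fr_val hd R f (j, l) hx0 h3, eval_mul, eval_C, eval_pow, eval_X, hgs, aev_map]
    ring)
  apply hc
  funext p
  obtain ⟨j, l⟩ := p
  have h3 := hQ0 (some j) (mem_univ _)
  rw [hQs] at h3
  have h4 : (∑ l : Fin (R + 1), C (c (j, l) : ℝ) * X ^ (l : ℕ)).coeff (l : ℕ) = (c (j, l) : ℝ) := by
    rw [finsetSum_coeff, Finset.sum_eq_single l]
    · rw [coeff_C_mul, coeff_X_pow, if_pos rfl, mul_one]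
    · intro l' _ hne
      rw [coeff_C_mul, coeff_X_pow, if_neg (fun h => hne (Fin.ext h.symm)), mul_zero]
    · intro h
      exact absurd (mem_univ _) h
  rw [h3, coeff_zero] at h4
  show c (j, l) = 0
  exact_mod_cast h4.symm

/-- the exponential sums are small if the functions are equal for large `n` -/
lemma Small.congr {ι : Type} [Fintype ι] {Y Y' : ι → ℕ → ℝ} {C1 : ℕ} (h : Small Y C1)
    (hY : ∃ n0 : ℕ, ∀ n : ℕ, n0 ≤ n → ∀ j, Y j n = Y' j n) : Small Y' C1 := by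
  intro δ β hδ hβ hδβ
  obtain ⟨n0, hn0⟩ := hY
  obtain ⟨M0, hM0⟩ := h δ β hδ hβ hδβ
  refine ⟨max M0 n0, fun M hM a ha haA θ hθ1 hθ2 => ?_⟩
  have h1 := hM0 M (le_of_max_le_left hM) a ha haA θ hθ1 hθ2
  refine le_trans (le_of_eq ?_) h1
  congr 1
  refine Finset.sum_congr rfl fun n hn => ?_
  have h2 : n0 ≤ n := (le_of_max_le_right hM).trans (Finset.mem_Ioc.1 hn).1.le
  congr 2
  exact Finset.sum_congr rfl fun j _ => by rw [hn0 n h2 j]

/-- the exponential sums of inequivalent radicals are small -/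
theorem rf_small {ι : Type} [Fintype ι] {d : ℕ} (hd : 1 ≤ d) (R : ℕ) (f : ι → ℤ[X])
    (hf : ∀ j, 0 < (f j).leadingCoeff)
    (h1 : ∀ j, ∀ a : ℝ[X], (f j).map (Int.castRingHom ℝ) ≠ a ^ d)
    (h2 : ∀ i j, i ≠ j → ∀ a b : ℝ[X], a ≠ 0 → b ≠ 0 →
      a ^ d * (f i).map (Int.castRingHom ℝ) ≠ b ^ d * (f j).map (Int.castRingHom ℝ)) :
    ∃ C1, Small (fun (p : ι × Fin (R + 1)) n => (n : ℝ) ^ (p.2 : ℕ) *
      (aeval (n : ℝ) (f p.1) : ℝ) ^ (1 / (d : ℝ))) C1 := by
  obtain ⟨C1, h⟩ := fam_small hd (fr d R f) (fun p => by rw [fr_lead]; exact hf _)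
    (fr_indep hd R f hf h1 h2)
  refine ⟨C1, h.congr ?_⟩
  have hpos : ∀ᶠ x : ℝ in atTop, ∀ j, 0 ≤ (aeval x (f j) : ℝ) := by
    refine eventually_all.2 fun j => ?_
    have h3 : 0 < ((f j).map (Int.castRingHom ℝ)).leadingCoeff := by
      rw [leadingCoeff_map_of_injective (RingHom.injective_int (Int.castRingHom ℝ))]
      have := hf j
      simpa using this
    filter_upwards [ev_pos h3] with x hx
    rw [aev_map]
    exact hx.le
  obtain ⟨x0, hx0⟩ := eventually_atTop.1 hpos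
  refine ⟨⌈x0⌉₊, fun n hn p => ?_⟩
  exact fr_val hd R f p (Nat.cast_nonneg n)
    (hx0 n ((Nat.le_ceil x0).trans (by exact_mod_cast hn)) p.1)

end Pool.Agent.V5helper54.MR
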