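import Pool.Agent.V5helper54.MR.Rep

/-!
# The Taylor coefficients of roots of polynomials
-/

set_option autoImplicit false

namespace Pool.Agent.V5helper54.MR

open Finset Filter Topology Polynomial

/-- the Leibniz rule -/
lemma tc_prod {f g : ℂ → ℂ} {c : ℂ} (hf : AnalyticAt ℂ f c) (hg : AnalyticAt ℂ g c) (n : ℕ) :
    tc (fun z => f z * g z) c n = ∑ i ∈ range (n + 1), tc f c i * tc g c (n - i) := by
  unfold tc
  have h1 : iteratedDeriv n (fun z => f z * g z) c =
      ∑ i ∈ range (n + 1), (n.choose i : ℂ) * iteratedDeriv i f c * iteratedDeriv (n - i) g c :=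
    iteratedDeriv_mul hf.contDiffAt hg.contDiffAt
  rw [h1, Finset.sum_div]
  refine Finset.sum_congr rfl fun i hi => ?_
  have hin : i ≤ n := by
    have := mem_range.1 hi
    omega
  have h2 : ((n.choose i : ℕ) : ℂ) * (i.factorial : ℂ) * ((n - i).factorial : ℂ) =
      (n.factorial : ℂ) := by
    exact_mod_cast Nat.choose_mul_factorial_mul_factorial hin
  have h3 : (i.factorial : ℂ) ≠ 0 := by exact_mod_cast i.factorial_ne_zero
  have h4 : ((n - i).factorial : ℂ) ≠ 0 := by exact_mod_cast (n - i).factorial_ne_zero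
  have h5 : (n.factorial : ℂ) ≠ 0 := by exact_mod_cast n.factorial_ne_zero
  rw [div_mul_div_comm, div_eq_div_iff h5 (mul_ne_zero h3 h4), ← h2]
  ring

lemma tc_deriv (f : ℂ → ℂ) (c : ℂ) (n : ℕ) : tc (deriv f) c n = (n + 1) * tc f c (n + 1) := by
  unfold tc
  rw [iteratedDeriv_succ', Nat.factorial_succ]
  have h3 : (n.factorial : ℂ) ≠ 0 := by exact_mod_cast n.factorial_ne_zero
  have h4 : ((n : ℂ) + 1) ≠ 0 := by exact_mod_cast n.succ_ne_zero
  push_cast
  field_simp

lemma tc_congr {f g : ℂ → ℂ} {c : ℂ} (h : f =ᶠ[𝓝 c] g) (n : ℕ) : tc f c n = tc g c n := by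
  unfold tc
  rw [h.iteratedDeriv_eq]

/-- the Taylor coefficients of a polynomial -/
lemma tc_poly (p : ℂ[X]) (n : ℕ) : tc (fun z => p.eval z) 0 n = p.coeff n := by
  induction n generalizing p with
  | zero => unfold tc; simp [coeff_zero_eq_eval_zero]
  | succ n ih =>
    have h1 := tc_deriv (fun z => p.eval z) 0 n
    have h2 : deriv (fun z => p.eval z) = fun z => p.derivative.eval z := by
      funext z
      exact p.deriv
    rw [h2, ih, coeff_derivative, mul_comm] at h1
    have h4 : ((n : ℂ) + 1) ≠ 0 := by exact_mod_cast n.succ_ne_zero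
    exact (mul_left_cancel₀ h4 h1).symm

/-- the rational numbers -/
noncomputable def QQ : Subfield ℂ := (algebraMap ℚ ℂ).fieldRange

lemma mem_QQ (r : ℚ) : (r : ℂ) ∈ QQ := ⟨r, by simp⟩

/-- the Taylor coefficients of a root of a polynomial with rational coefficients and constant
coefficient `1` are rational -/
lemma tc_root (G : ℚ[X]) (hG : G.coeff 0 = 1) (d : ℕ) :
    AnalyticAt ℂ (fun z : ℂ => (aeval z G) ^ (((1 / (d : ℝ) : ℝ)) : ℂ)) 0 ∧
      ∀ n, tc (fun z : ℂ => (aeval z G) ^ (((1 / (d : ℝ) : ℝ)) : ℂ)) 0 n ∈ QQ := by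
  obtain ⟨g, hg⟩ : ∃ g : ℂ[X], g = G.map (algebraMap ℚ ℂ) := ⟨_, rfl⟩
  have hgG : ∀ z : ℂ, aeval z G = g.eval z := by
    intro z
    rw [hg, eval_map, aeval_def]
  simp only [hgG]
  obtain ⟨c, hc⟩ : ∃ c : ℂ, c = (((1 / (d : ℝ) : ℝ)) : ℂ) := ⟨_, rfl⟩
  have hcQ : c ∈ QQ := by
    rw [hc]
    have : (((1 / (d : ℝ) : ℝ)) : ℂ) = (((1 / (d : ℚ)) : ℚ) : ℂ) := by push_cast; rfl
    rw [this]
    exact mem_QQ _
  rw [← hc]
  have hg0 : g.eval 0 = 1 := by
    rw [← coeff_zero_eq_eval_zero, hg, coeff_map, hG]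
    simp
  have hgan : AnalyticAt ℂ (fun z => g.eval z) 0 := by
    have : Differentiable ℂ (fun z => g.eval z) := g.differentiable
    exact this.analyticAt 0
  have hsl : ∀ᶠ z in 𝓝 (0 : ℂ), g.eval z ∈ Complex.slitPlane := by
    have h1 : ContinuousAt (fun z => g.eval z) 0 := hgan.continuousAt
    refine h1.eventually_mem (Complex.isOpen_slitPlane.mem_nhds ?_)
    rw [hg0]
    exact Complex.one_mem_slitPlane
  have hW : AnalyticAt ℂ (fun z : ℂ => (g.eval z) ^ c) 0 :=
    hgan.cpow analyticAt_const (by rw [hg0]; exact Complex.one_mem_slitPlane)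
  refine ⟨hW, ?_⟩
  -- the differential equation
  have hode : (fun z => g.eval z * deriv (fun z : ℂ => (g.eval z) ^ c) z) =ᶠ[𝓝 0]
      fun z => c * (g.derivative.eval z * (g.eval z) ^ c) := by
    filter_upwards [hsl] with z hz
    have h1 : HasDerivAt (fun z : ℂ => (g.eval z) ^ c)
        (c * (g.eval z) ^ (c - 1) * g.derivative.eval z) z :=
      (g.hasDerivAt z).cpow_const hz
    rw [h1.deriv]
    have hz0 : g.eval z ≠ 0 := Complex.slitPlane_ne_zero hz
    have h2 : (g.eval z) ^ c = (g.eval z) ^ (c - 1) * g.eval z := by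
      rw [Complex.cpow_sub _ _ hz0, Complex.cpow_one, div_mul_cancel₀ _ hz0]
    rw [h2]
    ring
  have hdan : AnalyticAt ℂ (deriv (fun z : ℂ => (g.eval z) ^ c)) 0 := hW.deriv
  have hgan' : AnalyticAt ℂ (fun z => g.derivative.eval z) 0 := by
    have : Differentiable ℂ (fun z => g.derivative.eval z) := g.derivative.differentiable
    exact this.analyticAt 0
  have hgQ : ∀ i, g.coeff i ∈ QQ := by
    intro i
    rw [hg, coeff_map]
    exact ⟨_, rfl⟩
  have hrec : ∀ n, ∑ i ∈ range (n + 1), g.coeff i *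
      (((n - i : ℕ) + 1) * tc (fun z : ℂ => (g.eval z) ^ c) 0 (n - i + 1)) =
      c * ∑ i ∈ range (n + 1), g.derivative.coeff i * tc (fun z : ℂ => (g.eval z) ^ c) 0 (n - i) := by
    intro n
    have h1 := tc_congr hode n
    rw [tc_prod hgan hdan, tc_mul, tc_prod hgan' hW] at h1
    simp only [tc_poly, tc_deriv] at h1
    exact h1
  intro n
  induction n using Nat.strong_induction_on with
  | _ n ih =>
    rcases n with _ | n
    · have : tc (fun z : ℂ => (g.eval z) ^ c) 0 0 = 1 := by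
        unfold tc
        simp [hg0]
      rw [this]
      exact QQ.one_mem
    · have h1 := hrec n
      rw [Finset.sum_range_succ'] at h1
      have hg1 : g.coeff 0 = 1 := by rw [coeff_zero_eq_eval_zero, hg0]
      rw [hg1, one_mul, Nat.sub_zero] at h1
      have h2 : ((n : ℂ) + 1) * tc (fun z : ℂ => (g.eval z) ^ c) 0 (n + 1) ∈ QQ := by
        have h3 : ((n : ℂ) + 1) * tc (fun z : ℂ => (g.eval z) ^ c) 0 (n + 1) =
            c * ∑ i ∈ range (n + 1), g.derivative.coeff i *
              tc (fun z : ℂ => (g.eval z) ^ c) 0 (n - i) -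
            ∑ k ∈ range n, g.coeff (k + 1) * (((n - (k + 1) : ℕ) + 1) *
              tc (fun z : ℂ => (g.eval z) ^ c) 0 (n - (k + 1) + 1)) := by
          rw [← h1]
          ring
        rw [h3]
        refine QQ.sub_mem (QQ.mul_mem hcQ (QQ.sum_mem fun i hi => QQ.mul_mem ?_ (ih _ ?_)))
          (QQ.sum_mem fun i hi => QQ.mul_mem (hgQ _) (QQ.mul_mem ?_ (ih _ ?_)))
        · rw [coeff_derivative]
          refine QQ.mul_mem (hgQ _) ?_
          exact_mod_cast mem_QQ (i + 1)
        · have := mem_range.1 hi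
          omega
        · exact_mod_cast mem_QQ (((n - (i + 1) : ℕ) : ℚ) + 1)
        · have := mem_range.1 hi
          omega
      have h4 : ((n : ℂ) + 1) ≠ 0 := by exact_mod_cast n.succ_ne_zero
      have h5 : ((n : ℂ) + 1) ∈ QQ := by exact_mod_cast mem_QQ (n + 1)
      have h6 := QQ.div_mem h2 h5
      rwa [mul_div_cancel_left₀ _ h4] at h6

end Pool.Agent.V5helper54.MR
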