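import Pool.Agent.V5helper54.MR.Tn
import Pool.Agent.N586.RT.Zs

/-!
# Sums over short blocks with local phases whose middle coefficients are admissible
-/

set_option autoImplicit false

namespace Pool.Agent.V5helper54.MR

open Finset Pool.Agent.Y957.VK Pool.Agent.N586.RT

theorem blk (D : ℝ) (hD : 1 ≤ D) : ∃ C : ℝ, 0 ≤ C ∧ ∀ (N x x' : ℕ) (κ η : ℝ) (g : ℕ → ℂ)
    (a : ℕ → ℕ → ℝ), 2 ≤ N → x ≤ x' → x' ≤ 2 * x → 1 / 2 ≤ κ → 0 ≤ η →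
    (∀ n, ‖g n‖ ≤ 1) → (∀ n ∈ Finset.Ioc x x', AdmR D N κ (a n)) →
    (∀ n ∈ Finset.Ioc x x', ∀ h : ℕ, (h : ℝ) ≤ (N : ℝ) ^ (4 / 5 : ℝ) →
      ‖g (n + h) - g n * ph (⌈5 * κ⌉₊ + 5) (a n) h‖ ≤ η) →
    ‖∑ n ∈ Finset.Ioc x x', g n‖ ≤
      C * (x * (N : ℝ) ^ (-(1 / 10 ^ 10 / (1 + κ) ^ 2) : ℝ)) + 2 * (N : ℝ) ^ (4 / 5 : ℝ) + x * η := by
  obtain ⟨C, hC0, hT⟩ := tnR D hD
  refine ⟨C, hC0, fun N x x' κ η g a hN hxx hx2 hκ hη hg hadm happ => ?_⟩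
  have hN1 : (1 : ℝ) ≤ N := by exact_mod_cast (by omega : 1 ≤ N)
  have hNp : (0 : ℝ) < N := by linarith
  obtain ⟨X, hX⟩ : ∃ X : ℝ, X = (N : ℝ) ^ (2 / 5 : ℝ) := ⟨_, rfl⟩
  have hX1 : 1 ≤ X := by
    rw [hX]
    exact Real.one_le_rpow hN1 (by norm_num)
  obtain ⟨M, hM⟩ : ∃ M : ℕ, M = ⌊X⌋₊ := ⟨_, rfl⟩
  have hM1 : 1 ≤ M := by
    rw [hM]
    exact Nat.le_floor (by simpa using hX1)
  have hM1' : (1 : ℝ) ≤ M := by exact_mod_cast hM1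
  have hMX : (M : ℝ) ≤ X := by
    rw [hM]
    exact Nat.floor_le (by linarith)
  have hXM : X ≤ 2 * M := by
    have := Nat.lt_floor_add_one X
    rw [← hM] at this
    linarith
  have hM2 : (M : ℝ) ^ 2 ≤ (N : ℝ) ^ (4 / 5 : ℝ) := by
    calc (M : ℝ) ^ 2 ≤ X ^ 2 := pow_le_pow_left₀ (by positivity) hMX 2
      _ = (N : ℝ) ^ (4 / 5 : ℝ) := by
        rw [hX, ← Real.rpow_natCast, ← Real.rpow_mul hNp.le]
        norm_num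
  have happ' : ∀ n ∈ Finset.Ioc x x', ∀ u ∈ Finset.Icc 1 M, ∀ v ∈ Finset.Icc 1 M,
      ‖g (n + u * v) - g n * ph (⌈5 * κ⌉₊ + 5) (a n) ((u : ℝ) * v)‖ ≤ η := by
    intro n hn u hu v hv
    have hu' : (u : ℝ) ≤ M := by exact_mod_cast (Finset.mem_Icc.1 hu).2
    have hv' : (v : ℝ) ≤ M := by exact_mod_cast (Finset.mem_Icc.1 hv).2
    have huv : (u : ℝ) * v ≤ (M : ℝ) ^ 2 := by
      rw [sq]
      exact mul_le_mul hu' hv' (by positivity) (by positivity)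
    have h1 := happ n hn (u * v) (by push_cast; exact huv.trans hM2)
    push_cast at h1
    exact h1
  have hmain := shift g hg x x' M (⌈5 * κ⌉₊ + 5) a η hη hxx hx2 hM1 happ'
  obtain ⟨E, hE⟩ : ∃ E : ℝ, E = (N : ℝ) ^ (-(1 / 10 ^ 10 / (1 + κ) ^ 2) : ℝ) := ⟨_, rfl⟩
  have hE0 : 0 ≤ E := by rw [hE]; positivity
  rw [← hE]
  have hTn : ∀ n ∈ Ioc x x', ‖TT (⌈5 * κ⌉₊ + 5) M (a n)‖ ≤ C * (M : ℝ) ^ 2 * E := by
    intro n hn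
    have h3 := hT N M κ (2 / 5) (a n) hN hκ hM1 (by norm_num) (by norm_num) (by linarith)
      (by rw [← hX]; exact hXM) (by rw [← hX]; exact hMX) (hadm n hn)
    rw [← hE] at h3
    exact h3
  have hsum : ∑ n ∈ Ioc x x', ‖TT (⌈5 * κ⌉₊ + 5) M (a n)‖ ≤ x * (C * (M : ℝ) ^ 2 * E) := by
    refine (Finset.sum_le_sum hTn).trans ?_
    rw [Finset.sum_const, Nat.card_Ioc, nsmul_eq_mul]
    refine mul_le_mul_of_nonneg_right ?_ (by positivity)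
    exact_mod_cast (by omega : x' - x ≤ x)
  have hMM : (0 : ℝ) < (M : ℝ) ^ 2 := by positivity
  have t1 : 1 / (M : ℝ) ^ 2 * ∑ n ∈ Ioc x x', ‖TT (⌈5 * κ⌉₊ + 5) M (a n)‖ ≤ C * (x * E) := by
    rw [one_div, inv_mul_le_iff₀ hMM]
    refine hsum.trans (le_of_eq ?_)
    ring
  linarith

end Pool.Agent.V5helper54.MR
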