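import Pool.Agent.V5helper54.MR.Rep

/-!
# The Taylor coefficients of functions with Puiseux expansions
-/

set_option autoImplicit false

namespace Pool.Agent.V5helper54.MR

open Finset Metric Filter Topology

variable {ι : Type} [Fintype ι]

/-- real powers of comparable numbers -/
lemma rpow_comp {x y σ E : ℝ} (hx : 0 < x) (h1 : x / 2 ≤ y) (h2 : y ≤ 2 * x) (hE : |σ| ≤ E) :
    y ^ σ ≤ 2 ^ E * x ^ σ := by
  have hy : 0 < y := by linarith
  have h3 : y ^ σ = (y / x) ^ σ * x ^ σ := by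
    rw [Real.div_rpow hy.le hx.le, div_mul_cancel₀ _ (Real.rpow_pos_of_pos hx _).ne']
  rw [h3]
  refine mul_le_mul_of_nonneg_right ?_ (Real.rpow_nonneg hx.le _)
  have h4 : 0 < y / x := by positivity
  have h5 : y / x ≤ 2 := by rw [div_le_iff₀ hx]; linarith
  have h6 : 1 / 2 ≤ y / x := by rw [le_div_iff₀ hx]; linarith
  rcases le_or_gt 0 σ with h | h
  · calc (y / x) ^ σ ≤ 2 ^ σ := Real.rpow_le_rpow h4.le h5 h
      _ ≤ 2 ^ E := Real.rpow_le_rpow_of_exponent_le (by norm_num) ((le_abs_self σ).trans hE)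
  · calc (y / x) ^ σ ≤ (1 / 2) ^ σ := Real.rpow_le_rpow_of_nonpos (by norm_num) h6 h.le
      _ = 2 ^ (-σ) := by
          rw [one_div, Real.inv_rpow (by norm_num), Real.rpow_neg (by norm_num)]
      _ ≤ 2 ^ E := Real.rpow_le_rpow_of_exponent_le (by norm_num) ((neg_le_abs σ).trans hE)

lemma pow_cpow {q : ℕ} (hq : 1 ≤ q) (T : ℕ) (i : ℕ) {z : ℂ} (hz : 0 < z.re) :
    z ^ (((T : ℝ) / q : ℝ) : ℂ) * (z ^ ((-(1 / (q : ℝ)) : ℝ) : ℂ)) ^ i =
      z ^ ((((T : ℝ) - i) / q : ℝ) : ℂ) := by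
  have hz0 := cpow_ne hz
  have hq0 : (q : ℝ) ≠ 0 := by
    have : (0 : ℝ) < q := by exact_mod_cast hq
    exact this.ne'
  rw [← Complex.cpow_nat_mul, ← Complex.cpow_add _ _ hz0]
  congr 1
  rw [← Complex.ofReal_natCast i, ← Complex.ofReal_mul, ← Complex.ofReal_add]
  congr 1
  field_simp
  ring

/-- **the Taylor coefficients** at large natural numbers -/
theorem coef (q T : ℕ) (hq : 1 ≤ q) (Z : ι → ℂ → ℂ) (c : ι → ℕ → ℝ)
    (hZ : ∀ j, AnalyticAt ℂ (Z j) 0) (hc : ∀ j m, tc (Z j) 0 m = c j m) (K : ℕ) :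
    ∃ C : ℝ, 1 ≤ C ∧ ∃ n0 : ℕ, ∀ n : ℕ, n0 ≤ n → ∀ (a : ι → ℤ) (A : ℝ), 1 ≤ A →
      (∀ j, |(a j : ℝ)| ≤ A) → ∀ m < K, (∀ i < m, NP q T i → ∑ j, (a j : ℝ) * c j i = 0) →
      DifferentiableOn ℂ (GG q T Z a) (ball (n : ℂ) (n / 2)) ∧
      ∀ l, T < l → ‖tc (GG q T Z a) n l - (((∑ j, (a j : ℝ) * c j m) *
          (bin (((T : ℝ) - m) / q) l * (n : ℝ) ^ (((T : ℝ) - m) / q - l)) : ℝ) : ℂ)‖ ≤
        C * A * (n : ℝ) ^ (((T : ℝ) - m - 1) / q) / (n / 2) ^ l := by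
  classical
  obtain ⟨v0, hv0, C0, hC0, hR⟩ := rem_zero Z hZ K
  have hqR : (1 : ℝ) ≤ q := by exact_mod_cast hq
  have hq0 : (0 : ℝ) < q := by linarith
  obtain ⟨J, hJ⟩ : ∃ J : ℝ, J = (Fintype.card ι : ℝ) + 1 := ⟨_, rfl⟩
  have hJ1 : 1 ≤ J := by rw [hJ]; linarith [Nat.cast_nonneg (α := ℝ) (Fintype.card ι)]
  obtain ⟨E, hE⟩ : ∃ E : ℝ, E = (T : ℝ) + K + 1 := ⟨_, rfl⟩
  have hE0 : 0 ≤ E := by rw [hE]; positivity
  have h2E : (1 : ℝ) ≤ 2 ^ E := Real.one_le_rpow (by norm_num) hE0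
  -- large `n`
  have hsmall : ∀ᶠ n : ℕ in atTop, ((n : ℝ) / 3) ^ (-(1 / (q : ℝ))) < v0 := by
    have h1 : Tendsto (fun x : ℝ => x ^ (-(1 / (q : ℝ)))) atTop (𝓝 0) :=
      tendsto_rpow_neg_atTop (by positivity)
    have h2 : Tendsto (fun n : ℕ => (n : ℝ) / 3) atTop atTop :=
      tendsto_natCast_atTop_atTop.atTop_div_const (by norm_num)
    exact (h1.comp h2).eventually (gt_mem_nhds hv0)
  obtain ⟨n1, hn1⟩ := eventually_atTop.1 hsmall
  refine ⟨J * C0 * 2 ^ E, ?_, max n1 1, ?_⟩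
  · have : 1 ≤ J * C0 := one_le_mul_of_one_le_of_one_le hJ1 hC0
    exact one_le_mul_of_one_le_of_one_le this h2E
  intro n hn a A hA ha m hm hlow
  have hn2 := hn1 n (le_of_max_le_left hn)
  have hnR : (1 : ℝ) ≤ n := by exact_mod_cast le_of_max_le_right hn
  have hn0 : (0 : ℝ) < n := by linarith
  -- points of the closed disc
  have hpt : ∀ z ∈ closedBall (n : ℂ) ((n : ℝ) / 2), 0 < z.re ∧ (n : ℝ) / 2 ≤ ‖z‖ ∧
      ‖z‖ ≤ 2 * n ∧ ‖z ^ ((-(1 / (q : ℝ)) : ℝ) : ℂ)‖ < v0 := by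
    intro z hz
    rw [mem_closedBall, dist_eq_norm] at hz
    have h1 : |z.re - n| ≤ (n : ℝ) / 2 := by
      have := Complex.abs_re_le_norm (z - n)
      simp only [Complex.sub_re, Complex.natCast_re] at this
      exact this.trans hz
    have h2 : (n : ℝ) / 2 ≤ z.re := by
      have := (abs_le.1 h1).1
      linarith
    have h3 : 0 < z.re := by linarith
    have h4 : (n : ℝ) / 2 ≤ ‖z‖ := h2.trans ((le_abs_self _).trans (Complex.abs_re_le_norm z))
    have h5 : ‖z‖ ≤ 2 * n := by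
      calc ‖z‖ = ‖(z - n) + n‖ := by rw [sub_add_cancel]
        _ ≤ ‖z - n‖ + ‖(n : ℂ)‖ := norm_add_le _ _
        _ ≤ n / 2 + n := by rw [Complex.norm_natCast]; linarith
        _ ≤ _ := by linarith
    refine ⟨h3, h4, h5, ?_⟩
    rw [norm_cpow_re (cpow_ne h3)]
    refine lt_of_le_of_lt ?_ hn2
    refine Real.rpow_le_rpow_of_nonpos (by positivity) (by linarith) ?_
    have : 0 < 1 / (q : ℝ) := by positivity
    linarith
  have hdiff : ∀ z ∈ closedBall (n : ℂ) ((n : ℝ) / 2), DifferentiableAt ℂ (GG q T Z a) z := by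
    intro z hz
    obtain ⟨h1, h2, h3, h4⟩ := hpt z hz
    unfold GG
    refine (diff_cpow _ h1).mul ?_
    refine DifferentiableAt.fun_sum fun j _ => (differentiableAt_const _).mul ?_
    have h5 : DifferentiableAt ℂ (Z j) (z ^ ((-(1 / (q : ℝ)) : ℝ) : ℂ)) :=
      ((hR j).1).differentiableAt (isOpen_ball.mem_nhds (by simpa using h4))
    exact h5.comp z (diff_cpow _ h1)
  -- the remainder
  obtain ⟨s, hs⟩ : ∃ s : ℕ → ℝ, s = fun i => ∑ j, (a j : ℝ) * c j i := ⟨_, rfl⟩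
  let R : ℂ → ℂ := fun z => GG q T Z a z -
    ∑ i ∈ range (m + 1), (s i : ℂ) * z ^ ((((T : ℝ) - i) / q : ℝ) : ℂ)
  have hRd : ∀ z ∈ closedBall (n : ℂ) ((n : ℝ) / 2), DifferentiableAt ℂ R z := by
    intro z hz
    refine (hdiff z hz).sub ?_
    refine DifferentiableAt.fun_sum fun i _ => (differentiableAt_const _).mul ?_
    exact diff_cpow _ (hpt z hz).1
  have hRle : ∀ z ∈ closedBall (n : ℂ) ((n : ℝ) / 2),
      ‖R z‖ ≤ J * C0 * 2 ^ E * A * (n : ℝ) ^ (((T : ℝ) - m - 1) / q) := by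
    intro z hz
    obtain ⟨h1, h2, h3, h4⟩ := hpt z hz
    have hz0 := cpow_ne h1
    have hzn : 0 < ‖z‖ := norm_pos_iff.2 hz0
    obtain ⟨v, hv⟩ : ∃ v : ℂ, v = z ^ ((-(1 / (q : ℝ)) : ℝ) : ℂ) := ⟨_, rfl⟩
    have e1 : R z = z ^ (((T : ℝ) / q : ℝ) : ℂ) *
        ∑ j, (a j : ℂ) * (Z j v - ∑ i ∈ range (m + 1), tc (Z j) 0 i * v ^ i) := by
      have e2 : ∑ i ∈ range (m + 1), (s i : ℂ) * z ^ ((((T : ℝ) - i) / q : ℝ) : ℂ) =
          z ^ (((T : ℝ) / q : ℝ) : ℂ) *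
            ∑ j, (a j : ℂ) * ∑ i ∈ range (m + 1), tc (Z j) 0 i * v ^ i := by
        have e3 : ∑ j, (a j : ℂ) * ∑ i ∈ range (m + 1), tc (Z j) 0 i * v ^ i =
            ∑ i ∈ range (m + 1), (s i : ℂ) * v ^ i := by
          simp only [Finset.mul_sum]
          rw [Finset.sum_comm]
          refine Finset.sum_congr rfl fun i _ => ?_
          rw [hs]
          push_cast
          rw [Finset.sum_mul]
          refine Finset.sum_congr rfl fun j _ => ?_
          rw [hc]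
          ring
        rw [e3, Finset.mul_sum]
        refine Finset.sum_congr rfl fun i _ => ?_
        rw [← pow_cpow hq T i h1, hv]
        ring
      change GG q T Z a z - _ = _
      rw [e2]
      unfold GG
      rw [← hv]
      simp only [mul_sub, Finset.sum_sub_distrib]
    rw [e1, norm_mul, norm_cpow_re hz0]
    have h5 : ‖∑ j, (a j : ℂ) * (Z j v - ∑ i ∈ range (m + 1), tc (Z j) 0 i * v ^ i)‖ ≤
        J * (A * (C0 * ‖v‖ ^ (m + 1))) := by
      refine (norm_sum_le _ _).trans ?_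
      calc ∑ j, ‖(a j : ℂ) * (Z j v - ∑ i ∈ range (m + 1), tc (Z j) 0 i * v ^ i)‖ ≤
          ∑ _j : ι, A * (C0 * ‖v‖ ^ (m + 1)) := by
            refine Finset.sum_le_sum fun j _ => ?_
            rw [norm_mul, Complex.norm_intCast]
            exact mul_le_mul (ha j) ((hR j).2 m hm v (by rw [hv]; exact h4)) (norm_nonneg _)
              (by linarith)
        _ = (Fintype.card ι : ℝ) * (A * (C0 * ‖v‖ ^ (m + 1))) := by
            rw [Finset.sum_const, Finset.card_univ, nsmul_eq_mul]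
        _ ≤ _ := by
            refine mul_le_mul_of_nonneg_right ?_ (by positivity)
            rw [hJ]; linarith
    have h6 : ‖v‖ ^ (m + 1) = ‖z‖ ^ (-(((m : ℝ) + 1) / q)) := by
      rw [hv, norm_cpow_re hz0, ← Real.rpow_natCast, ← Real.rpow_mul hzn.le]
      congr 1
      push_cast
      ring
    have h7 : ‖z‖ ^ ((T : ℝ) / q) * ‖v‖ ^ (m + 1) = ‖z‖ ^ (((T : ℝ) - m - 1) / q) := by
      rw [h6, ← Real.rpow_add hzn]
      congr 1
      ring
    have h8 : ‖z‖ ^ (((T : ℝ) - m - 1) / q) ≤ 2 ^ E * (n : ℝ) ^ (((T : ℝ) - m - 1) / q) := by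
      refine rpow_comp hn0 h2 h3 ?_
      rw [abs_div, abs_of_pos hq0, div_le_iff₀ hq0]
      have hmK : (m : ℝ) ≤ K := by exact_mod_cast hm.le
      have hT0 : (0 : ℝ) ≤ T := Nat.cast_nonneg _
      have hm0 : (0 : ℝ) ≤ m := Nat.cast_nonneg _
      have h9 : |(T : ℝ) - m - 1| ≤ E := by
        rw [hE, abs_le]
        constructor <;> linarith
      nlinarith
    calc ‖z‖ ^ ((T : ℝ) / q) * ‖∑ j, (a j : ℂ) *
          (Z j v - ∑ i ∈ range (m + 1), tc (Z j) 0 i * v ^ i)‖ ≤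
        ‖z‖ ^ ((T : ℝ) / q) * (J * (A * (C0 * ‖v‖ ^ (m + 1)))) :=
          mul_le_mul_of_nonneg_left h5 (by positivity)
      _ = J * C0 * A * (‖z‖ ^ ((T : ℝ) / q) * ‖v‖ ^ (m + 1)) := by ring
      _ ≤ J * C0 * A * (2 ^ E * (n : ℝ) ^ (((T : ℝ) - m - 1) / q)) := by
          rw [h7]
          exact mul_le_mul_of_nonneg_left h8 (by positivity)
      _ = _ := by ring
  have hn2' : (0 : ℝ) < (n : ℝ) / 2 := by positivity
  have hGGd : DifferentiableOn ℂ (GG q T Z a) (ball (n : ℂ) (n / 2)) := fun z hz =>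
    (hdiff z (ball_subset_closedBall hz)).differentiableWithinAt
  refine ⟨hGGd, fun l hl => ?_⟩
  have hRan : AnalyticAt ℂ R n := by
    have h1 : DifferentiableOn ℂ R (ball (n : ℂ) (n / 2)) := fun z hz =>
      (hRd z (ball_subset_closedBall hz)).differentiableWithinAt
    exact h1.analyticAt (ball_mem_nhds _ hn2')
  have hpan : ∀ τ : ℝ, AnalyticAt ℂ (fun z : ℂ => z ^ (τ : ℂ)) n := by
    intro τ
    have h1 : DifferentiableOn ℂ (fun z : ℂ => z ^ (τ : ℂ)) (ball (n : ℂ) (n / 2)) := fun z hz =>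
      (diff_cpow τ (hpt z (ball_subset_closedBall hz)).1).differentiableWithinAt
    exact h1.analyticAt (ball_mem_nhds _ hn2')
  have hRtc : ‖tc R n l‖ ≤ J * C0 * 2 ^ E * A * (n : ℝ) ^ (((T : ℝ) - m - 1) / q) /
      (n / 2) ^ l := by
    refine tc_le hn2' ?_ (fun z hz => hRle z (sphere_subset_closedBall hz)) l
    have h1 : DifferentiableOn ℂ R (closedBall (n : ℂ) (n / 2)) := fun z hz =>
      (hRd z hz).differentiableWithinAt
    exact (h1.mono closure_ball_subset_closedBall).diffContOnCl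
  have hfun : GG q T Z a = fun z => R z +
      ∑ i ∈ range (m + 1), (s i : ℂ) * z ^ ((((T : ℝ) - i) / q : ℝ) : ℂ) := by
    funext z
    change _ = (GG q T Z a z - _) + _
    ring
  have hsum : tc (GG q T Z a) n l = tc R n l +
      ∑ i ∈ range (m + 1), (s i : ℂ) * tc (fun z : ℂ => z ^ ((((T : ℝ) - i) / q : ℝ) : ℂ)) n l := by
    rw [hfun, tc_add hRan, tc_sum]
    · congr 1
      refine Finset.sum_congr rfl fun i _ => ?_
      rw [tc_mul]
    · intro i _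
      exact analyticAt_const.mul (hpan _)
    · exact Finset.analyticAt_fun_sum _ fun i _ => analyticAt_const.mul (hpan _)
  have hterm : ∀ i ∈ range m,
      (s i : ℂ) * tc (fun z : ℂ => z ^ ((((T : ℝ) - i) / q : ℝ) : ℂ)) n l = 0 := by
    intro i hi
    by_cases hN : NP q T i
    · have h1 : s i = 0 := by
        rw [hs]
        exact hlow i (mem_range.1 hi) hN
      rw [h1]
      simp
    · unfold NP at hN
      rw [not_not] at hN
      obtain ⟨h1, k, hk⟩ := hN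
      have h2 : ((T : ℝ) - i) / q = (k : ℕ) := by
        rw [div_eq_iff hq0.ne']
        have h3 : ((T - i : ℕ) : ℝ) = ((q * k : ℕ) : ℝ) := by rw [hk]
        rw [Nat.cast_sub h1] at h3
        push_cast at h3
        linarith
      have hkl : k < l := by
        refine lt_of_le_of_lt ?_ hl
        calc k ≤ q * k := Nat.le_mul_of_pos_left k hq
          _ = T - i := hk.symm
          _ ≤ T := Nat.sub_le _ _
      rw [h2, ← Complex.ofReal_natCast n, tc_cpow _ _ hn0, bin_nat hkl]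
      simp
  rw [hsum, Finset.sum_range_succ, Finset.sum_eq_zero hterm, zero_add,
    ← Complex.ofReal_natCast n, tc_cpow _ _ hn0]
  have h1 : tc R ((n : ℝ) : ℂ) l + (s m : ℂ) *
        ((bin (((T : ℝ) - m) / q) l * (n : ℝ) ^ (((T : ℝ) - m) / q - l) : ℝ) : ℂ) -
      (((∑ j, (a j : ℝ) * c j m) *
          (bin (((T : ℝ) - m) / q) l * (n : ℝ) ^ (((T : ℝ) - m) / q - l)) : ℝ) : ℂ) =
      tc R ((n : ℝ) : ℂ) l := by
    rw [hs]
    push_cast
    ring
  rw [h1, Complex.ofReal_natCast]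
  exact hRtc

end Pool.Agent.V5helper54.MR
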