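import Pool.Agent.V5helper54.MR.Exp

/-!
# Exponential sums over dyadic intervals
-/

set_option autoImplicit false

namespace Pool.Agent.V5helper54.MR

open Finset Filter
open Pool.Agent.N586.RT (logpow log_ge)
open Pool.Agent.Y933.KD (e norm_e)

variable {ι : Type} [Fintype ι]

/-- the exponential sums of the functions `Y` are small -/
def Small (Y : ι → ℕ → ℝ) (C1 : ℕ) : Prop :=
  ∀ δ β : ℝ, 0 < δ → 0 < β → 2 * δ + β < 1 → ∃ M0 : ℕ, ∀ M : ℕ, M0 ≤ M →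
    ∀ a : ι → ℤ, a ≠ 0 → (∀ j, |(a j : ℝ)| ≤ Real.exp ((Real.log M) ^ β)) → ∀ θ : ℝ,
    (M : ℝ) ^ C1 ≤ |θ| → |θ| ≤ Real.exp ((Real.log M) ^ (1 + δ)) →
    ‖∑ n ∈ Finset.Ioc M (2 * M), e (θ * ∑ j, (a j : ℝ) * Y j n)‖ ≤
      M * Real.exp (-(Real.log M) ^ β)

theorem exp_sum (q T : ℕ) (hq : 1 ≤ q) (Z : ι → ℂ → ℂ) (c : ι → ℕ → ℝ) (Y : ι → ℕ → ℝ)
    (hZ : ∀ j, AnalyticAt ℂ (Z j) 0) (hc : ∀ j m, tc (Z j) 0 m = c j m)
    (halg : ∀ j m, IsAlgebraic ℚ (c j m))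
    (hnd : ∀ a : ι → ℤ, a ≠ 0 → ∃ m, NP q T m ∧ ∑ j, (a j : ℝ) * c j m ≠ 0)
    (hY : ∃ nY : ℕ, ∀ n : ℕ, nY ≤ n → ∀ a : ι → ℤ,
      ((∑ j, (a j : ℝ) * Y j n : ℝ) : ℂ) = GG q T Z a n) :
    ∃ C1 : ℕ, Small Y C1 := by
  obtain ⟨C0, hC0⟩ := block q T hq Z c Y hZ hc halg hnd hY
  refine ⟨C0 + 1, fun δ β hδ hβ hδβ => ?_⟩
  obtain ⟨β1, hβ1⟩ : ∃ β1 : ℝ, β1 = (β + (1 - 2 * δ)) / 2 := ⟨_, rfl⟩
  have hββ : β < β1 := by linarith
  obtain ⟨X0, hX0⟩ := hC0 δ β1 hδ (by linarith) (by linarith)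
  obtain ⟨X1, hX1⟩ := eventually_atTop.1 (((logpow hββ (Real.log 8 + 1)).and (log_ge 1)).and
    (eventually_ge_atTop (max X0 (max 1000 (2 ^ C0)))))
  refine ⟨X1, ?_⟩
  intro M hM a ha haA θ hθ1 hθ2
  obtain ⟨⟨f1, hL1⟩, hMm⟩ := hX1 M hM
  have hMX0 : X0 ≤ M := (le_max_left _ _).trans hMm
  have hM1000 : 1000 ≤ M := (le_max_left _ _).trans ((le_max_right _ _).trans hMm)
  have hM2 : 2 ^ C0 ≤ M := (le_max_right _ _).trans ((le_max_right _ _).trans hMm)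
  obtain ⟨L, hL⟩ : ∃ L : ℝ, L = Real.log M := ⟨_, rfl⟩
  rw [← hL] at f1 hL1 haA hθ2 ⊢
  have hL0 : 0 < L := by linarith
  have hMR : (1000 : ℝ) ≤ M := by exact_mod_cast hM1000
  have hM0 : (0 : ℝ) < M := by linarith
  have hMC : (2 : ℝ) ^ C0 ≤ M := by exact_mod_cast hM2
  have hL8 : 0 ≤ Real.log 8 := Real.log_nonneg (by norm_num)
  have hLβ : 1 ≤ L ^ β := Real.one_le_rpow hL1 hβ.le
  -- one of the blocks
  have hblk : ∀ x x' : ℕ, M ≤ x → x ≤ 2 * M → x ≤ x' → 50 * x' ≤ 63 * x →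
      ‖∑ n ∈ Finset.Ioc x x', e (θ * ∑ j, (a j : ℝ) * Y j n)‖ ≤
        1 / 4 * (M * Real.exp (-L ^ β)) := by
    intro x x' h1 h2 h3 h4
    have hxR : (M : ℝ) ≤ x := by exact_mod_cast h1
    have hxR2 : (x : ℝ) ≤ 2 * M := by exact_mod_cast h2
    have hLx : L ≤ Real.log x := by rw [hL]; exact Real.log_le_log hM0 hxR
    have hLx0 : 0 ≤ Real.log (x : ℝ) := by linarith
    have hLx1 : 1 ≤ Real.log (x : ℝ) := by linarith
    refine (hX0 x (hMX0.trans h1) x' h3 h4 a ha ?_ θ ?_ ?_).trans ?_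
    · intro j
      refine (haA j).trans (Real.exp_le_exp.2 ?_)
      calc L ^ β ≤ (Real.log x) ^ β := Real.rpow_le_rpow hL0.le hLx hβ.le
        _ ≤ _ := Real.rpow_le_rpow_of_exponent_le hLx1 hββ.le
    · refine le_trans ?_ hθ1
      calc (x : ℝ) ^ C0 ≤ (2 * M) ^ C0 := pow_le_pow_left₀ (by positivity) hxR2 _
        _ = 2 ^ C0 * (M : ℝ) ^ C0 := by rw [mul_pow]
        _ ≤ M * (M : ℝ) ^ C0 := by gcongr
        _ = _ := by rw [pow_succ]; ring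
    · exact hθ2.trans (Real.exp_le_exp.2 (Real.rpow_le_rpow hL0.le hLx (by linarith)))
    · have k1 : L ^ β1 ≤ (Real.log x) ^ β1 := Real.rpow_le_rpow hL0.le hLx (by linarith)
      calc (x : ℝ) * Real.exp (-(Real.log x) ^ β1) ≤ 2 * M * Real.exp (-L ^ β1) := by
            gcongr
        _ ≤ 2 * M * (1 / 8 * Real.exp (-L ^ β)) := by
            have k2 : Real.exp (-L ^ β1) ≤ 1 / 8 * Real.exp (-L ^ β) := by
              have k3 : (1 / 8 : ℝ) = Real.exp (-Real.log 8) := by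
                rw [Real.exp_neg, Real.exp_log (by norm_num)]
                norm_num
              rw [k3, ← Real.exp_add]
              apply Real.exp_le_exp.2
              nlinarith
            gcongr
        _ = _ := by ring
  have hsplit : ∀ x y z : ℕ, x ≤ y → y ≤ z → ∀ f : ℕ → ℂ,
      ∑ n ∈ Finset.Ioc x z, f n = ∑ n ∈ Finset.Ioc x y, f n + ∑ n ∈ Finset.Ioc y z, f n := by
    intro x y z h1 h2 f
    exact (Finset.sum_Ioc_consecutive f h1 h2).symm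
  obtain ⟨x1, hx1⟩ : ∃ x1 : ℕ, x1 = 5 * M / 4 := ⟨_, rfl⟩
  obtain ⟨x2, hx2⟩ : ∃ x2 : ℕ, x2 = 3 * M / 2 := ⟨_, rfl⟩
  obtain ⟨x3, hx3⟩ : ∃ x3 : ℕ, x3 = 7 * M / 4 := ⟨_, rfl⟩
  rw [hsplit M x1 (2 * M) (by omega) (by omega), hsplit x1 x2 (2 * M) (by omega) (by omega),
    hsplit x2 x3 (2 * M) (by omega) (by omega)]
  have b1 := hblk M x1 le_rfl (by omega) (by omega) (by omega)
  have b2 := hblk x1 x2 (by omega) (by omega) (by omega) (by omega)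
  have b3 := hblk x2 x3 (by omega) (by omega) (by omega) (by omega)
  have b4 := hblk x3 (2 * M) (by omega) (by omega) (by omega) (by omega)
  refine (norm_add_le _ _).trans ?_
  refine (add_le_add b1 ((norm_add_le _ _).trans (add_le_add b2
    ((norm_add_le _ _).trans (add_le_add b3 b4))))).trans ?_
  linarith

end Pool.Agent.V5helper54.MR
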