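import Pool.Agent.V5helper54.MR.Coef
import Pool.Agent.V5helper54.MR.Blk
import Pool.Agent.N586.RT.Ph
import Pool.Agent.N586.RT.Hat

/-!
# Auxiliary estimates for one block
-/

set_option autoImplicit false

namespace Pool.Agent.V5helper54.MR

open Finset Metric Filter Topology

/-- the error of the Taylor coefficients is small -/
lemma adm_err {q Cl j : ℕ} {C2 cb A s b x n τ L Lb Ld : ℝ} (hq : (1 : ℝ) ≤ q) (hC2 : 1 ≤ C2)
    (hcb : 0 < cb) (hcb1 : cb ≤ 1) (hCl : (1 : ℝ) ≤ Cl) (hA : A = Real.exp Lb) (hLb : 1 ≤ Lb)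
    (hx : x = Real.exp L) (hxn : x < n)
    (f4 : 2 * q * (Real.log (2 * C2 * Cl / cb) + 1 + (1 + Cl)) * Lb ≤ L)
    (f5 : 2 * q * 13 * Ld ≤ L) (hj : (j : ℝ) ≤ 13 * Ld)
    (hb : cb * (9 / 10) ^ j ≤ |b|) (hsm : 1 / (Cl * A ^ Cl) ≤ |s|) :
    C2 * A * (n ^ τ * n ^ (-(1 / (q : ℝ)))) / (n / 2) ^ j ≤
      1 / 2 * (|s| * |b| * (n ^ τ / n ^ j)) := by
  have hx0 : 0 < x := by rw [hx]; exact Real.exp_pos _
  have hn0 : 0 < n := hx0.trans hxn
  have hq0 : (0 : ℝ) < q := by linarith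
  have hA0 : 0 < A := by rw [hA]; exact Real.exp_pos _
  have hnτ0 : 0 < n ^ τ := Real.rpow_pos_of_pos hn0 _
  have hnj0 : 0 < n ^ j := by positivity
  have hC20 : 0 < C2 := by linarith
  have hCl0 : (0 : ℝ) < Cl := by linarith
  have e2 : (n / 2) ^ j = n ^ j / 2 ^ j := by rw [div_pow]
  have e3 : (2 : ℝ) ^ j ≤ Real.exp j * (9 / 10) ^ j := by
    have : (20 / 9 : ℝ) ≤ Real.exp 1 := by
      have := Real.exp_one_gt_d9
      linarith
    calc (2 : ℝ) ^ j = (20 / 9) ^ j * (9 / 10) ^ j := by rw [← mul_pow]; norm_num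
      _ ≤ (Real.exp 1) ^ j * (9 / 10) ^ j := by gcongr
      _ = _ := by rw [← Real.exp_nat_mul, mul_one]
  have e4 : n ^ (-(1 / (q : ℝ))) ≤ Real.exp (-(L / q)) := by
    calc n ^ (-(1 / (q : ℝ))) ≤ x ^ (-(1 / (q : ℝ))) :=
          Real.rpow_le_rpow_of_nonpos hx0 hxn.le (by
            have : 0 < 1 / (q : ℝ) := by positivity
            linarith)
      _ = _ := by
          rw [hx, ← Real.exp_mul]
          congr 1
          ring
  have e5 : 2 * C2 * A * Real.exp j * Real.exp (-(L / q)) * (Cl * A ^ Cl) ≤ cb := by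
    have k1 : 2 * C2 * A * Real.exp j * Real.exp (-(L / q)) * (Cl * A ^ Cl) =
        cb * Real.exp (Real.log (2 * C2 * Cl / cb) + (1 + Cl) * Lb + j + -(L / q)) := by
      rw [Real.exp_add, Real.exp_add, Real.exp_add, Real.exp_log (by positivity)]
      have k2 : Real.exp ((1 + Cl) * Lb) = A * A ^ Cl := by
        rw [hA, ← Real.exp_nat_mul, ← Real.exp_add]
        congr 1
        ring
      rw [k2]
      field_simp
    rw [k1]
    have k3 : Real.log (2 * C2 * Cl / cb) + (1 + Cl) * Lb + j + -(L / q) ≤ 0 := by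
      have k5 : 0 ≤ Real.log (2 * C2 * Cl / cb) := by
        apply Real.log_nonneg
        rw [le_div_iff₀ hcb]
        nlinarith
      have k8 : Real.log (2 * C2 * Cl / cb) + (1 + Cl) * Lb ≤
          (Real.log (2 * C2 * Cl / cb) + 1 + (1 + Cl)) * Lb := by nlinarith
      have k9 : q * (L / q) = L := by field_simp
      have k12 : q * j ≤ q * (13 * Ld) := mul_le_mul_of_nonneg_left hj hq0.le
      have k13 := mul_le_mul_of_nonneg_left k8 hq0.le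
      have k10 : q * (Real.log (2 * C2 * Cl / cb) + (1 + Cl) * Lb + j) ≤ q * (L / q) := by
        rw [k9]
        linarith
      have k11 := le_of_mul_le_mul_left k10 hq0
      linarith
    calc cb * Real.exp (Real.log (2 * C2 * Cl / cb) + (1 + Cl) * Lb + j + -(L / q)) ≤
        cb * 1 := mul_le_mul_of_nonneg_left (Real.exp_le_one_iff.2 k3) hcb.le
      _ = cb := mul_one _
  have e6 : 2 * C2 * A * Real.exp j * Real.exp (-(L / q)) ≤ cb * |s| := by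
    have k2 : 0 < Cl * A ^ Cl := by positivity
    calc 2 * C2 * A * Real.exp j * Real.exp (-(L / q)) =
        2 * C2 * A * Real.exp j * Real.exp (-(L / q)) * (Cl * A ^ Cl) *
          (1 / (Cl * A ^ Cl)) := by field_simp
      _ ≤ cb * |s| := mul_le_mul e5 hsm (by positivity) hcb.le
  rw [e2, div_div_eq_mul_div]
  have e7 : C2 * A * (n ^ τ * n ^ (-(1 / (q : ℝ)))) * 2 ^ j / n ^ j ≤
      C2 * A * (n ^ τ * Real.exp (-(L / q))) * (Real.exp j * (9 / 10) ^ j) / n ^ j := by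
    gcongr
  refine e7.trans ?_
  calc C2 * A * (n ^ τ * Real.exp (-(L / q))) * (Real.exp j * (9 / 10) ^ j) /
        n ^ j = 1 / 2 * (2 * C2 * A * Real.exp j * Real.exp (-(L / q))) *
          (9 / 10) ^ j * (n ^ τ / n ^ j) := by ring
    _ ≤ 1 / 2 * (cb * |s|) * (9 / 10) ^ j * (n ^ τ / n ^ j) := by gcongr
    _ = 1 / 2 * (|s| * (cb * (9 / 10) ^ j) * (n ^ τ / n ^ j)) := by ring
    _ ≤ 1 / 2 * (|s| * |b| * (n ^ τ / n ^ j)) := by gcongr

/-- the lower bound for the coefficients -/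
lemma adm_lo {j : ℕ} {θ s P X n nt cb b u t H D A0 N : ℝ} (hθ : 0 < |θ|) (hcb : 0 < cb)
    (hP : 0 < P) (hH : 0 < H) (hX : 0 < X) (hs : 0 < |s|) (hnt : 0 < nt)
    (hA0 : A0 = |θ| * |s| * X) (h4 : X ≤ P * nt) (hn : 0 < n) (hN : 0 < N) (hD : D = 2 * P * H / cb)
    (hj : 1 ≤ (j : ℝ)) (hb : cb * (9 / 10) ^ j ≤ |b|) (hu : |u| = |s| * |b| * (nt / n ^ j))
    (ht : 1 / 2 * |u| ≤ |t|) (hnN : 10 * n ≤ 9 * (2 * N)) :
    H * A0 / (D * (j : ℝ) ^ 2 * (2 * N) ^ j) ≤ |θ| * |t| := by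
  have hA00 : 0 < A0 := by rw [hA0]; positivity
  have hD0 : 0 < D := by rw [hD]; positivity
  have k1 : A0 * (cb * ((9 / 10) ^ j / n ^ j)) ≤ P * (|θ| * |u|) := by
    rw [hu, hA0]
    calc |θ| * |s| * X * (cb * ((9 / 10) ^ j / n ^ j)) ≤
        |θ| * |s| * (P * nt) * (cb * ((9 / 10) ^ j / n ^ j)) := by gcongr
      _ = P * (|θ| * (|s| * (cb * (9 / 10) ^ j) * (nt / n ^ j))) := by ring
      _ ≤ P * (|θ| * (|s| * |b| * (nt / n ^ j))) := by gcongr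
  have k2 : 1 / (2 * N) ^ j ≤ (9 / 10) ^ j / n ^ j := by
    rw [← div_pow, ← one_div_pow]
    refine pow_le_pow_left₀ (by positivity) ?_ j
    rw [div_le_div_iff₀ (by positivity) hn]
    linarith
  have k3 : H * A0 / (D * (j : ℝ) ^ 2 * (2 * N) ^ j) ≤
      H * A0 / D * (1 / (2 * N) ^ j) := by
    have k4 : H * A0 / (D * (j : ℝ) ^ 2 * (2 * N) ^ j) =
        H * A0 / D * (1 / (2 * N) ^ j) / (j : ℝ) ^ 2 := by
      field_simp
    rw [k4]
    exact div_le_self (by positivity) (one_le_pow₀ hj)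
  have k5 : H * A0 / D = A0 * cb / (2 * P) := by
    rw [hD]
    field_simp
  calc H * A0 / (D * (j : ℝ) ^ 2 * (2 * N) ^ j) ≤
      A0 * cb / (2 * P) * (1 / (2 * N) ^ j) := by rw [← k5]; exact k3
    _ ≤ A0 * cb / (2 * P) * ((9 / 10) ^ j / n ^ j) := by gcongr
    _ = (A0 * (cb * ((9 / 10) ^ j / n ^ j))) / (2 * P) := by ring
    _ ≤ (P * (|θ| * |u|)) / (2 * P) := by gcongr
    _ = |θ| * (1 / 2 * |u|) := by field_simp
    _ ≤ |θ| * |t| := mul_le_mul_of_nonneg_left ht hθ.le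

/-- the upper bound for the coefficients -/
lemma adm_up {j : ℕ} {θ s P X n nt Cb b u t H A0 N : ℝ} (hθ : 0 < |θ|) (hCb : 0 < Cb)
    (hP : 0 < P) (hX : 0 < X) (hs : 0 < |s|) (hA0 : A0 = |θ| * |s| * X)
    (h4 : nt ≤ P * X) (hn : 0 < n) (hN : 0 < N) (hH : H = 9 * Cb * P)
    (hb : |b| ≤ Cb * (11 / 10) ^ j) (hnt : 0 < nt) (hu : |u| = |s| * |b| * (nt / n ^ j))
    (ht : |t| ≤ 3 / 2 * |u|) (hnN : 11 * N ≤ 10 * n) :
    |θ| * |t| ≤ H * A0 / (6 * N ^ j) := by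
  have hA00 : 0 < A0 := by rw [hA0]; positivity
  have k1 : |θ| * |u| ≤ P * A0 * (Cb * ((11 / 10) ^ j / n ^ j)) := by
    rw [hu, hA0]
    calc |θ| * (|s| * |b| * (nt / n ^ j)) ≤
        |θ| * (|s| * (Cb * (11 / 10) ^ j) * ((P * X) / n ^ j)) := by gcongr
      _ = _ := by ring
  have k2 : (11 / 10 : ℝ) ^ j / n ^ j ≤ 1 / N ^ j := by
    rw [← div_pow, ← one_div_pow]
    refine pow_le_pow_left₀ (by positivity) ?_ j
    rw [div_le_div_iff₀ hn hN]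
    linarith
  calc |θ| * |t| ≤ |θ| * (3 / 2 * |u|) := mul_le_mul_of_nonneg_left ht hθ.le
    _ = 3 / 2 * (|θ| * |u|) := by ring
    _ ≤ 3 / 2 * (P * A0 * (Cb * ((11 / 10) ^ j / n ^ j))) := by gcongr
    _ ≤ 3 / 2 * (P * A0 * (Cb * (1 / N ^ j))) := by gcongr
    _ = H * A0 / (6 * N ^ j) := by
        rw [hH]
        field_simp
        ring

/-- the final estimate -/
lemma fin_est {C4 C5 L N x κ β δ : ℝ} (hβ : 0 < β) (hC4 : 0 < C4) (hC5 : 0 ≤ C5)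
    (hL : 2 ≤ L) (hxL : x = Real.exp L) (hN1 : 1 ≤ N) (hxN : x ≤ 2 * N) (hNx : N ≤ x)
    (hLl : L / 2 ≤ Real.log N) (hκ0 : 0 ≤ κ) (hκ : κ ≤ 4 * L ^ δ) (hLd : 1 ≤ L ^ δ)
    (f8 : 5 * 10 ^ 11 * (Real.log (3 * (C5 + 1)) + 1) * L ^ β ≤ L ^ (1 - 2 * δ))
    (f9 : 5 * (Real.log (6 * (C4 + 1)) + 1) * L ^ β ≤ L) :
    C5 * (x * N ^ (-(1 / 10 ^ 10 / (1 + κ) ^ 2) : ℝ)) + 2 * N ^ (4 / 5 : ℝ) + x * (C4 / N) ≤
      x * Real.exp (-L ^ β) := by
  obtain ⟨w, hw⟩ : ∃ w : ℝ, w = Real.exp (-L ^ β) := ⟨_, rfl⟩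
  obtain ⟨l, hl⟩ : ∃ l : ℝ, l = Real.log N := ⟨_, rfl⟩
  rw [← hl] at hLl
  rw [← hw]
  have hL0 : 0 < L := by linarith
  have hL1 : 1 ≤ L := by linarith
  have hN0 : 0 < N := by linarith
  have hx1 : 1 ≤ x := hN1.trans hNx
  have hx0 : 0 < x := by linarith
  have hw0 : 0 < w := by rw [hw]; exact Real.exp_pos _
  have hLβ1 : 1 ≤ L ^ β := Real.one_le_rpow hL1 hβ.le
  have hexp : ∀ y : ℝ, x ^ y = Real.exp (y * L) := by
    intro y
    rw [hxL, ← Real.exp_mul, mul_comm]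
  have hexpN : ∀ y : ℝ, N ^ y = Real.exp (y * l) := by
    intro y
    rw [Real.rpow_def_of_pos hN0, hl, mul_comm]
  have kk : 6 * (C4 + 1) * x ^ (4 / 5 : ℝ) ≤ x * w := by
    have e1 : 6 * (C4 + 1) * x ^ (4 / 5 : ℝ) =
        Real.exp (Real.log (6 * (C4 + 1)) + 4 / 5 * L) := by
      rw [Real.exp_add, Real.exp_log (by positivity), hexp]
    have e2 : x * w = Real.exp (L + -L ^ β) := by rw [Real.exp_add, hw, ← hxL]
    rw [e1, e2]
    apply Real.exp_le_exp.2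
    have k8 : 0 ≤ Real.log (6 * (C4 + 1)) := Real.log_nonneg (by linarith)
    have k9 : Real.log (6 * (C4 + 1)) + L ^ β ≤ (Real.log (6 * (C4 + 1)) + 1) * L ^ β := by
      nlinarith
    linarith
  have g1 : C5 * (x * N ^ (-(1 / 10 ^ 10 / (1 + κ) ^ 2) : ℝ)) ≤ 1 / 3 * (x * w) := by
    have k1 : (1 + κ) ^ 2 ≤ 25 * (L ^ δ) ^ 2 := by
      calc (1 + κ) ^ 2 ≤ (5 * L ^ δ) ^ 2 := by
            have : 1 + κ ≤ 5 * L ^ δ := by linarith
            gcongr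
        _ = _ := by ring
    have k2 : L ^ (1 - 2 * δ) / (5 * 10 ^ 11) ≤ 1 / 10 ^ 10 / (1 + κ) ^ 2 * l := by
      have k3 : L ^ (1 - 2 * δ) * (L ^ δ) ^ 2 = L := by
        rw [← Real.rpow_natCast, ← Real.rpow_mul hL0.le, ← Real.rpow_add hL0]
        have : 1 - 2 * δ + δ * ((2 : ℕ) : ℝ) = 1 := by push_cast; ring
        rw [this, Real.rpow_one]
      have k4 : 0 < (1 + κ) ^ 2 := by positivity
      rw [div_div, div_mul_eq_mul_div, div_le_div_iff₀ (by positivity) (by positivity)]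
      have k5 : 0 < L ^ (1 - 2 * δ) := by positivity
      calc L ^ (1 - 2 * δ) * (10 ^ 10 * (1 + κ) ^ 2) ≤
          L ^ (1 - 2 * δ) * (10 ^ 10 * (25 * (L ^ δ) ^ 2)) := by gcongr
        _ = 25 * 10 ^ 10 * (L ^ (1 - 2 * δ) * (L ^ δ) ^ 2) := by ring
        _ = 5 * 10 ^ 11 * (L / 2) := by rw [k3]; ring
        _ ≤ 5 * 10 ^ 11 * l := by gcongr
        _ = _ := by ring
    have k6 : N ^ (-(1 / 10 ^ 10 / (1 + κ) ^ 2) : ℝ) ≤
        Real.exp (-(L ^ (1 - 2 * δ) / (5 * 10 ^ 11))) := by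
      rw [hexpN]
      apply Real.exp_le_exp.2
      linarith
    have k7 : 3 * (C5 + 1) * Real.exp (-(L ^ (1 - 2 * δ) / (5 * 10 ^ 11))) ≤ w := by
      have e1 : 3 * (C5 + 1) * Real.exp (-(L ^ (1 - 2 * δ) / (5 * 10 ^ 11))) =
          Real.exp (Real.log (3 * (C5 + 1)) + -(L ^ (1 - 2 * δ) / (5 * 10 ^ 11))) := by
        rw [Real.exp_add, Real.exp_log (by positivity)]
      rw [e1, hw]
      apply Real.exp_le_exp.2
      have k8 : 0 ≤ Real.log (3 * (C5 + 1)) := Real.log_nonneg (by linarith)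
      have k9 : (Real.log (3 * (C5 + 1)) + 1) * L ^ β ≤ L ^ (1 - 2 * δ) / (5 * 10 ^ 11) := by
        rw [le_div_iff₀ (by positivity)]
        linarith
      nlinarith
    have k10 : C5 * N ^ (-(1 / 10 ^ 10 / (1 + κ) ^ 2) : ℝ) ≤ 1 / 3 * w := by
      have k11 : 0 < Real.exp (-(L ^ (1 - 2 * δ) / (5 * 10 ^ 11))) := Real.exp_pos _
      calc C5 * N ^ (-(1 / 10 ^ 10 / (1 + κ) ^ 2) : ℝ) ≤
          (C5 + 1) * Real.exp (-(L ^ (1 - 2 * δ) / (5 * 10 ^ 11))) := by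
            refine mul_le_mul (by linarith) k6 (by positivity) (by linarith)
        _ = 1 / 3 * (3 * (C5 + 1) * Real.exp (-(L ^ (1 - 2 * δ) / (5 * 10 ^ 11)))) := by ring
        _ ≤ 1 / 3 * w := by gcongr
    calc C5 * (x * N ^ (-(1 / 10 ^ 10 / (1 + κ) ^ 2) : ℝ)) =
        x * (C5 * N ^ (-(1 / 10 ^ 10 / (1 + κ) ^ 2) : ℝ)) := by ring
      _ ≤ x * (1 / 3 * w) := by gcongr
      _ = _ := by ring
  have k3 : 1 ≤ x ^ (4 / 5 : ℝ) := Real.one_le_rpow hx1 (by norm_num)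
  have g2 : 2 * N ^ (4 / 5 : ℝ) ≤ 1 / 3 * (x * w) := by
    have k1 : N ^ (4 / 5 : ℝ) ≤ x ^ (4 / 5 : ℝ) :=
      Real.rpow_le_rpow hN0.le hNx (by norm_num)
    nlinarith
  have g3 : x * (C4 / N) ≤ 1 / 3 * (x * w) := by
    have k1 : x * (C4 / N) ≤ 2 * C4 := by
      rw [mul_div_assoc', div_le_iff₀ hN0]
      nlinarith
    nlinarith
  linarith

/-- bounds for the Taylor coefficients -/
lemma apx_co {j : ℕ} {S Cb C2 A s b n τ τ' : ℝ} {z : ℂ} (hA : 0 < A) (hC2 : 0 < C2) (hn : 1 ≤ n)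
    (hCb : 0 < Cb) (hs : |s| ≤ S * A) (hb : |b| ≤ Cb * (11 / 10) ^ j) (hτ' : τ' ≤ τ)
    (k1 : ‖z - ((s * (b * n ^ (τ - j)) : ℝ) : ℂ)‖ ≤ C2 * A * n ^ τ' / (n / 2) ^ j) :
    ‖z‖ ≤ (S * Cb + C2) * A * n ^ τ / (n / 2) ^ j := by
  obtain ⟨u, hu⟩ : ∃ u : ℝ, u = s * (b * n ^ (τ - j)) := ⟨_, rfl⟩
  rw [← hu] at k1
  have hn0 : 0 < n := by linarith
  have hnτ0 : 0 < n ^ τ := Real.rpow_pos_of_pos hn0 _
  have hSA : 0 ≤ S * A := (abs_nonneg _).trans hs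
  have k2 : ‖z‖ ≤ |u| + C2 * A * n ^ τ' / (n / 2) ^ j := by
    calc ‖z‖ = ‖(u : ℂ) + (z - (u : ℂ))‖ := by congr 1; ring
      _ ≤ ‖(u : ℂ)‖ + ‖z - (u : ℂ)‖ := norm_add_le _ _
      _ ≤ _ := by rw [Complex.norm_real, Real.norm_eq_abs]; linarith
  have k3 : |u| ≤ S * Cb * A * n ^ τ / (n / 2) ^ j := by
    have k4 : n ^ (τ - j) = n ^ τ / n ^ j := by
      rw [Real.rpow_sub hn0, Real.rpow_natCast]
    have k5 : 0 < n ^ j := by positivity
    rw [hu, abs_mul, abs_mul, k4, abs_of_pos (div_pos hnτ0 k5)]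
    have k6 : |b| ≤ Cb * 2 ^ j := by
      refine hb.trans ?_
      have : (11 / 10 : ℝ) ^ j ≤ 2 ^ j := pow_le_pow_left₀ (by norm_num) (by norm_num) _
      gcongr
    calc |s| * (|b| * (n ^ τ / n ^ j)) ≤ (S * A) * ((Cb * 2 ^ j) * (n ^ τ / n ^ j)) := by
          gcongr
      _ = _ := by rw [div_pow]; field_simp
  have k7 : C2 * A * n ^ τ' / (n / 2) ^ j ≤ C2 * A * n ^ τ / (n / 2) ^ j := by
    have k8 : n ^ τ' ≤ n ^ τ := Real.rpow_le_rpow_of_exponent_le hn hτ'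
    gcongr
  refine k2.trans ((add_le_add k3 k7).trans (le_of_eq ?_))
  ring

lemma rpow_45 {N : ℝ} (hN : 0 < N) : N ^ (4 / 5 : ℝ) = N * N ^ (-(1 / 5) : ℝ) := by
  rw [← Real.rpow_one_add' hN.le (by norm_num)]
  norm_num

lemma apx_small {h n N : ℝ} (hN : 1024 ≤ N) (hNn : N ≤ n) (hh : h ≤ N ^ (4 / 5 : ℝ)) :
    h ≤ n / 2 / 2 := by
  have hN0 : 0 < N := by linarith
  have k2 : N ^ (-(1 / 5) : ℝ) ≤ 1 / 4 := by
    have k3 : N ^ (-(1 / 5) : ℝ) ≤ (1024 : ℝ) ^ (-(1 / 5) : ℝ) :=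
      Real.rpow_le_rpow_of_nonpos (by norm_num) hN (by norm_num)
    refine k3.trans (le_of_eq ?_)
    rw [show (1024 : ℝ) = 4 ^ (5 : ℝ) by norm_num, ← Real.rpow_mul (by norm_num),
      show (5 : ℝ) * -(1 / 5) = -1 by norm_num, Real.rpow_neg_one]
    norm_num
  rw [rpow_45 hN0] at hh
  nlinarith

/-- the power of the shift -/
lemma apx_pow {r : ℕ} {h n N κ : ℝ} (hh0 : 0 ≤ h) (hh : h ≤ N ^ (4 / 5 : ℝ)) (hN : 1 ≤ N)
    (hNn : N ≤ n) (hr : 5 * κ + 5 ≤ r) :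
    (h / (n / 2)) ^ (r + 1) ≤ 2 ^ (r + 1) * N ^ (-(κ + 6 / 5)) := by
  have hN0 : 0 < N := by linarith
  have hn2 : 0 < n / 2 := by linarith
  have k3 : h / (n / 2) ≤ 2 * N ^ (-(1 / 5) : ℝ) := by
    rw [div_le_iff₀ hn2]
    have k5 : 0 ≤ N ^ (-(1 / 5) : ℝ) := by positivity
    rw [rpow_45 hN0] at hh
    nlinarith
  calc (h / (n / 2)) ^ (r + 1) ≤ (2 * N ^ (-(1 / 5) : ℝ)) ^ (r + 1) :=
        pow_le_pow_left₀ (by positivity) k3 _
    _ = 2 ^ (r + 1) * N ^ (-(1 / 5) * ((r : ℝ) + 1)) := by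
        rw [mul_pow, ← Real.rpow_natCast (N ^ (-(1 / 5) : ℝ)), ← Real.rpow_mul hN0.le]
        push_cast
        ring_nf
    _ ≤ 2 ^ (r + 1) * N ^ (-(κ + 6 / 5)) := by
        refine mul_le_mul_of_nonneg_left ?_ (by positivity)
        exact Real.rpow_le_rpow_of_exponent_le hN (by linarith)

/-- the total error of the approximation -/
lemma apx_fin {Cl r : ℕ} {θ s P X nt S Cb C2 C4 A Lb Ld L l N κ H A0 : ℝ} (hθ : 0 < |θ|)
    (hs : 0 < |s|) (hP : 0 < P) (hSC : 0 < S * Cb + C2) (hCl : (1 : ℝ) ≤ Cl) (hH : 1 ≤ H)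
    (hX : 0 < X) (hA : A = Real.exp Lb) (hLb : 1 ≤ Lb) (hA0 : A0 = |θ| * |s| * X)
    (h4 : nt ≤ P * X) (hnt : 0 < nt) (hsinv : 1 / |s| ≤ Cl * A ^ Cl)
    (hC4 : C4 = 4 * Real.pi * P * (S * Cb + C2) * Cl) (hN : 0 < N) (hNκ : N ^ κ = H * A0)
    (hl : l = Real.log N) (hLl : L / 2 ≤ l) (hr : (r : ℝ) ≤ 20 * Ld + 6)
    (f6 : 20 * (Cl + 1 + 7) * Lb ≤ L) (f7 : 20 * 20 * Ld ≤ L) :
    2 * Real.pi * (|θ| * (2 * ((S * Cb + C2) * A * nt) * (2 ^ (r + 1) * N ^ (-(κ + 6 / 5))))) ≤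
      C4 / N := by
  have hA00 : 0 < A0 := by rw [hA0]; positivity
  have hAp : 0 < A := by rw [hA]; exact Real.exp_pos _
  have hpi := Real.pi_pos
  have hCl0 : (0 : ℝ) < Cl := by linarith
  have hC40 : 0 < C4 := by rw [hC4]; positivity
  have hexpN : ∀ y : ℝ, N ^ y = Real.exp (y * l) := by
    intro y
    rw [Real.rpow_def_of_pos hN, hl, mul_comm]
  have k6 : |θ| * nt ≤ P * (Cl * A ^ Cl) * N ^ κ := by
    calc |θ| * nt ≤ |θ| * (P * X) := by gcongr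
      _ = P * (1 / |s|) * A0 := by rw [hA0]; field_simp
      _ ≤ P * (Cl * A ^ Cl) * (H * A0) := by
          have : A0 ≤ H * A0 := by nlinarith
          gcongr
      _ = _ := by rw [hNκ]
  have k7 : A ^ (Cl + 1) * 2 ^ (r + 1) ≤ N ^ (1 / 5 : ℝ) := by
    have k8 : (2 : ℝ) ^ (r + 1) ≤ Real.exp (20 * Ld + 7) := by
      have k9 : (2 : ℝ) ≤ Real.exp 1 := by
        have := Real.add_one_le_exp (1 : ℝ)
        linarith
      calc (2 : ℝ) ^ (r + 1) ≤ (Real.exp 1) ^ (r + 1) := by gcongr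
        _ = Real.exp ((r : ℝ) + 1) := by
            rw [← Real.exp_nat_mul]
            push_cast
            ring_nf
        _ ≤ _ := Real.exp_le_exp.2 (by linarith)
    rw [hexpN]
    calc A ^ (Cl + 1) * 2 ^ (r + 1) ≤ A ^ (Cl + 1) * Real.exp (20 * Ld + 7) := by gcongr
      _ = Real.exp ((Cl + 1) * Lb + (20 * Ld + 7)) := by
          rw [Real.exp_add (((Cl : ℝ) + 1) * Lb), hA, ← Real.exp_nat_mul]
          congr 2
          push_cast
          ring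
      _ ≤ Real.exp (1 / 5 * l) := by
          apply Real.exp_le_exp.2
          have : (7 : ℝ) ≤ 7 * Lb := by linarith
          linarith
  calc 2 * Real.pi * (|θ| * (2 * ((S * Cb + C2) * A * nt) * (2 ^ (r + 1) * N ^ (-(κ + 6 / 5)))))
      = 4 * Real.pi * (S * Cb + C2) * (|θ| * nt) * A * 2 ^ (r + 1) *
        N ^ (-(κ + 6 / 5)) := by ring
    _ ≤ 4 * Real.pi * (S * Cb + C2) * (P * (Cl * A ^ Cl) * N ^ κ) * A * 2 ^ (r + 1) *
        N ^ (-(κ + 6 / 5)) := by gcongr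
    _ = C4 * (A ^ (Cl + 1) * 2 ^ (r + 1)) * (N ^ κ * N ^ (-(κ + 6 / 5))) := by
        rw [hC4]; ring
    _ ≤ C4 * N ^ (1 / 5 : ℝ) * (N ^ κ * N ^ (-(κ + 6 / 5))) := by gcongr
    _ = C4 / N := by
        have k10 : N ^ (1 / 5 : ℝ) * (N ^ κ * N ^ (-(κ + 6 / 5))) = N⁻¹ := by
          rw [← Real.rpow_add hN, ← Real.rpow_add hN, ← Real.rpow_neg_one]
          congr 1
          ring
        rw [mul_assoc, k10]
        rfl

/-- the lower bound for the exponent -/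
lemma kap_lo {T K Cl : ℕ} {θ s X A0 H L l Lb A : ℝ} (hθ : Real.exp (((T : ℝ) + K + 3) * L) ≤ |θ|)
    (hX : Real.exp (-(K : ℝ) * L) ≤ X) (hCl : (1 : ℝ) ≤ Cl) (hA : A = Real.exp Lb)
    (hLb : 1 ≤ Lb) (hsm : 1 / (Cl * A ^ Cl) ≤ |s|) (hA0 : A0 = |θ| * |s| * X) (hH : 1 ≤ H)
    (hl0 : 0 < l) (hlL : l ≤ L) (f1 : (Real.log Cl + Cl) * Lb ≤ L) :
    (T : ℝ) + 1 ≤ Real.log (H * A0) / l := by
  have hX0 : 0 < X := lt_of_lt_of_le (Real.exp_pos _) hX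
  have hθ0 : 0 < |θ| := lt_of_lt_of_le (Real.exp_pos _) hθ
  have hAp : 0 < A := by rw [hA]; exact Real.exp_pos _
  have hCl0 : (0 : ℝ) < Cl := by linarith
  have hs0 : 0 < |s| := lt_of_lt_of_le (by positivity) hsm
  have hA00 : 0 < A0 := by rw [hA0]; positivity
  have hTR : (0 : ℝ) ≤ T := Nat.cast_nonneg _
  have hClA : Cl * A ^ Cl ≤ Real.exp L := by
    have h1 : (Cl : ℝ) * A ^ Cl = Real.exp (Real.log Cl + Cl * Lb) := by
      rw [Real.exp_add, Real.exp_log (by linarith), hA, ← Real.exp_nat_mul]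
    rw [h1]
    apply Real.exp_le_exp.2
    have h2 : 0 ≤ Real.log Cl := Real.log_nonneg hCl
    nlinarith
  rw [le_div_iff₀ hl0, Real.le_log_iff_exp_le (by positivity)]
  have h1 : Real.exp (-L) ≤ |s| := by
    rw [Real.exp_neg, ← one_div]
    refine le_trans ?_ hsm
    exact one_div_le_one_div_of_le (by positivity) hClA
  calc Real.exp (((T : ℝ) + 1) * l) ≤ Real.exp (((T : ℝ) + K + 3) * L + -L + -(K : ℝ) * L) := by
        apply Real.exp_le_exp.2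
        nlinarith
    _ = Real.exp (((T : ℝ) + K + 3) * L) * Real.exp (-L) * Real.exp (-(K : ℝ) * L) := by
        rw [Real.exp_add, Real.exp_add]
    _ ≤ |θ| * |s| * X := by gcongr
    _ = 1 * A0 := by rw [hA0, one_mul]
    _ ≤ H * A0 := mul_le_mul_of_nonneg_right hH hA00.le

/-- the upper bound for the exponent -/
lemma kap_up {T : ℕ} {θ s X A0 H S L l Lb A δ : ℝ} (hθ : |θ| ≤ Real.exp (L ^ (1 + δ)))
    (hX : X ≤ Real.exp (T * L)) (hX0 : 0 < X) (hθ0 : 0 < |θ|) (hs0 : 0 < |s|) (hS : 1 ≤ S)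
    (hA : A = Real.exp Lb)
    (hLb : 1 ≤ Lb) (hsup : |s| ≤ S * A) (hA0 : A0 = |θ| * |s| * X) (hH : 1 ≤ H) (hL : 0 < L)
    (hl0 : 0 < l) (hLl : L / 2 ≤ l) (hLd : 1 ≤ L ^ δ)
    (f2 : 2 * (Real.log (H * S) + 1) * Lb ≤ L ^ (1 + δ)) (f3 : 2 * T * L ≤ L ^ (1 + δ)) :
    Real.log (H * A0) / l ≤ 4 * L ^ δ := by
  have hAp : 0 < A := by rw [hA]; exact Real.exp_pos _
  have hA00 : 0 < A0 := by rw [hA0]; positivity
  have hH0 : 0 < H := by linarith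
  have hS0 : 0 < S := by linarith
  rw [div_le_iff₀ hl0, Real.log_le_iff_le_exp (by positivity)]
  have h2 : H * A0 ≤ Real.exp (Real.log (H * S) + L ^ (1 + δ) + Lb + T * L) := by
    have hHS : 0 < H * S := by positivity
    rw [Real.exp_add, Real.exp_add, Real.exp_add, Real.exp_log hHS, ← hA]
    calc H * A0 = H * (|θ| * |s| * X) := by rw [hA0]
      _ ≤ H * (Real.exp (L ^ (1 + δ)) * (S * A) * Real.exp (T * L)) := by gcongr
      _ = _ := by ring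
  refine h2.trans (Real.exp_le_exp.2 ?_)
  have h3 : L ^ (1 + δ) = L * L ^ δ := by rw [Real.rpow_add hL, Real.rpow_one]
  have h4 : 0 ≤ Real.log (H * S) := Real.log_nonneg (by nlinarith)
  have h5 : Real.log (H * S) + Lb ≤ (Real.log (H * S) + 1) * Lb := by nlinarith
  have h6 : 4 * L ^ δ * (L / 2) ≤ 4 * L ^ δ * l := by
    refine mul_le_mul_of_nonneg_left hLl (by linarith)
  nlinarith

end Pool.Agent.V5helper54.MR
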