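import Pool.Agent.V5helper54.MR.Exa

/-!
# Exponential sums over integral combinations of functions with Puiseux expansions
-/

set_option autoImplicit false

namespace Pool.Agent.V5helper54.MR

open Finset Metric Filter Topology
open Pool.Agent.N586.RT (ph ph_eq norm_e_sub logpow log_ge)
open Pool.Agent.Y933.KD (e norm_e e_add)

variable {ι : Type} [Fintype ι]

lemma NP_ne {q T m : ℕ} (hq : 1 ≤ q) (h : NP q T m) (k : ℕ) : ((T : ℝ) - m) / q ≠ k := by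
  intro h1
  apply h
  have hq0 : (q : ℝ) ≠ 0 := by
    have : (0 : ℝ) < q := by exact_mod_cast hq
    exact this.ne'
  rw [div_eq_iff hq0] at h1
  have h2 : (T : ℝ) = m + k * q := by linarith
  have h3 : T = m + k * q := by exact_mod_cast h2
  refine ⟨by omega, ⟨k, ?_⟩⟩
  rw [h3, Nat.add_sub_cancel_left, mul_comm]

lemma bin_unif (q T K : ℕ) (hq : 1 ≤ q) :
    ∃ c : ℝ, 0 < c ∧ c ≤ 1 ∧ ∃ C : ℝ, 1 ≤ C ∧ ∀ m < K, NP q T m → ∀ l : ℕ,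
      c * (9 / 10 : ℝ) ^ l ≤ |bin (((T : ℝ) - m) / q) l| ∧
      |bin (((T : ℝ) - m) / q) l| ≤ C * (11 / 10 : ℝ) ^ l := by
  induction K with
  | zero => exact ⟨1, one_pos, le_rfl, 1, le_rfl, fun m hm => by omega⟩
  | succ K ih =>
    obtain ⟨c, hc, hc1, C, hC, h⟩ := ih
    by_cases hN : NP q T K
    · obtain ⟨c', hc', C', hC', h'⟩ := bin_bounds (NP_ne hq hN)
      refine ⟨min c c', lt_min hc hc', (min_le_left _ _).trans hc1, max C C',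
        hC.trans (le_max_left _ _), ?_⟩
      intro m hm hNm l
      rcases Nat.lt_or_ge m K with h1 | h1
      · obtain ⟨k1, k2⟩ := h m h1 hNm l
        refine ⟨le_trans ?_ k1, k2.trans ?_⟩
        · exact mul_le_mul_of_nonneg_right (min_le_left _ _) (by positivity)
        · exact mul_le_mul_of_nonneg_right (le_max_left _ _) (by positivity)
      · obtain rfl : m = K := by omega
        obtain ⟨k1, k2⟩ := h' l
        refine ⟨le_trans ?_ k1, k2.trans ?_⟩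
        · exact mul_le_mul_of_nonneg_right (min_le_right _ _) (by positivity)
        · exact mul_le_mul_of_nonneg_right (le_max_right _ _) (by positivity)
    · refine ⟨c, hc, hc1, C, hC, ?_⟩
      intro m hm hNm l
      rcases Nat.lt_or_ge m K with h1 | h1
      · exact h m h1 hNm l
      · obtain rfl : m = K := by omega
        exact absurd hNm hN

/-- admissibility at one point -/
lemma adm_pt {q Cl T N : ℕ} {C2 cb Cb A s n τ L Lb Ld x θ P X A0 H D κ : ℝ} {b : ℕ → ℝ}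
    {z : ℕ → ℂ} (hq : (1 : ℝ) ≤ q) (hC2 : 1 ≤ C2) (hcb : 0 < cb) (hcb1 : cb ≤ 1)
    (hCb : 0 < Cb) (hCl : (1 : ℝ) ≤ Cl) (hA : A = Real.exp Lb) (hLb : 1 ≤ Lb)
    (hx : x = Real.exp L) (hxn : x < n)
    (f4 : 2 * q * (Real.log (2 * C2 * Cl / cb) + 1 + (1 + Cl)) * Lb ≤ L)
    (f5 : 2 * q * 13 * Ld ≤ L) (hκLd : 3 * κ + 1 / 2 ≤ 13 * Ld)
    (hb : ∀ j, cb * (9 / 10) ^ j ≤ |b j| ∧ |b j| ≤ Cb * (11 / 10) ^ j)
    (hsm : 1 / (Cl * A ^ Cl) ≤ |s|) (hs0 : 0 < |s|) (hθ : 0 < |θ|)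
    (hP : 0 < P) (hX : 0 < X) (hA0 : A0 = |θ| * |s| * X) (h4 : n ^ τ ≤ P * X)
    (h5 : X ≤ P * n ^ τ) (hN : (0 : ℝ) < N) (hH : H = 9 * Cb * P) (hD : D = 2 * P * H / cb)
    (hN1 : 11 * (N : ℝ) ≤ 10 * n) (hN2 : 10 * n ≤ 9 * (2 * (N : ℝ)))
    (hNκ : (N : ℝ) ^ κ = H * A0) (hTκ : (T : ℝ) < 2 * κ)
    (hco : ∀ j, T < j → ‖z j - ((s * (b j * n ^ (τ - j)) : ℝ) : ℂ)‖ ≤
      C2 * A * (n ^ τ * n ^ (-(1 / (q : ℝ)))) / (n / 2) ^ j) :
    AdmR D N κ (fun j => θ * (z j).re) := by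
  intro j hj1 hj2 hj3
  have hx0 : 0 < x := by rw [hx]; exact Real.exp_pos _
  have hn0 : 0 < n := hx0.trans hxn
  have hnτ0 : 0 < n ^ τ := Real.rpow_pos_of_pos hn0 _
  have hnj0 : 0 < n ^ j := by positivity
  have hTj : T < j := by
    have : (T : ℝ) < j := by linarith
    exact_mod_cast this
  have hH0 : 0 < H := by rw [hH]; positivity
  obtain ⟨b1, b2⟩ := hb j
  have h6 := hco j hTj
  obtain ⟨u, hu⟩ : ∃ u : ℝ, u = s * (b j * n ^ (τ - j)) := ⟨_, rfl⟩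
  rw [← hu] at h6
  have hnj : n ^ (τ - j) = n ^ τ / n ^ j := by
    rw [Real.rpow_sub hn0, Real.rpow_natCast]
  have hu1 : |u| = |s| * |b j| * (n ^ τ / n ^ j) := by
    rw [hu, abs_mul, abs_mul, hnj, abs_of_pos (div_pos hnτ0 hnj0), mul_assoc]
  have herr := adm_err (j := j) (b := b j) (τ := τ) hq hC2 hcb hcb1 hCl hA hLb hx hxn f4 f5
    (hj3.trans hκLd) b1 hsm
  rw [← hu1] at herr
  have hre : |(z j).re - u| ≤ 1 / 2 * |u| := by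
    have k1 : |(z j).re - u| ≤ ‖z j - (u : ℂ)‖ := by
      have k2 := Complex.abs_re_le_norm (z j - (u : ℂ))
      simp only [Complex.sub_re, Complex.ofReal_re] at k2
      exact k2
    exact k1.trans (h6.trans herr)
  have htlo : 1 / 2 * |u| ≤ |(z j).re| := by
    have k1 := abs_sub_abs_le_abs_sub u (z j).re
    rw [abs_sub_comm] at k1
    linarith
  have htup : |(z j).re| ≤ 3 / 2 * |u| := by
    have k1 := abs_sub_abs_le_abs_sub (z j).re u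
    linarith
  have hjR : (1 : ℝ) ≤ j := by exact_mod_cast hj1
  show (N : ℝ) ^ κ / (D * (j : ℝ) ^ 2 * (2 * (N : ℝ)) ^ j) ≤ |θ * (z j).re| ∧
    |θ * (z j).re| ≤ (N : ℝ) ^ κ / (6 * (N : ℝ) ^ j)
  rw [hNκ, abs_mul]
  exact ⟨adm_lo hθ hcb hP hH0 hX hs0 hnτ0 hA0 h5 hn0 hN hD hjR b1 hu1 htlo hN2,
    adm_up hθ hCb hP hX hs0 hA0 h4 hn0 hN hH b2 hnτ0 hu1 htup hN1⟩

/-- approximation at one point -/
lemma apx_pt {Cl T N h r n : ℕ} {C2 C4 Cb A s S τ τ' L l Lb Ld θ P X A0 H κ : ℝ}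
    {b : ℕ → ℝ} {G : ℂ → ℂ} {y : ℕ → ℝ} (hC2 : 1 ≤ C2) (hCb : 0 < Cb) (hS : 1 ≤ S)
    (hCl : (1 : ℝ) ≤ Cl) (hA : A = Real.exp Lb) (hLb : 1 ≤ Lb)
    (hb : ∀ j, |b j| ≤ Cb * (11 / 10) ^ j)
    (hsinv : 1 / |s| ≤ Cl * A ^ Cl) (hs0 : 0 < |s|) (hsup : |s| ≤ S * A) (hθ : 0 < |θ|)
    (hP : 0 < P) (hX : 0 < X) (hA0 : A0 = |θ| * |s| * X) (h4 : (n : ℝ) ^ τ ≤ P * X)
    (hH : 1 ≤ H) (hN : (1024 : ℝ) ≤ N) (hNn : (N : ℝ) ≤ n)
    (hNκ : (N : ℝ) ^ κ = H * A0) (hTr : T ≤ r) (hr1 : 5 * κ + 5 ≤ r)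
    (hr2 : (r : ℝ) ≤ 20 * Ld + 6) (hC4 : C4 = 4 * Real.pi * P * (S * Cb + C2) * Cl)
    (hl : l = Real.log N) (hLl : L / 2 ≤ l) (hττ : τ' ≤ τ)
    (f6 : 20 * (Cl + 1 + 7) * Lb ≤ L) (f7 : 20 * 20 * Ld ≤ L)
    (hh : (h : ℝ) ≤ (N : ℝ) ^ (4 / 5 : ℝ))
    (hdiff : DifferentiableOn ℂ G (ball (n : ℂ) ((n : ℝ) / 2)))
    (hco : ∀ j, T < j → ‖tc G n j - ((s * (b j * (n : ℝ) ^ (τ - j)) : ℝ) : ℂ)‖ ≤
      C2 * A * (n : ℝ) ^ τ' / ((n : ℝ) / 2) ^ j)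
    (hy1 : y n = (G n).re) (hy2 : y (n + h) = (G ((n : ℂ) + h)).re) :
    ‖e (θ * y (n + h)) - e (θ * y n) * ph r (fun j => θ * (tc G n j).re) h‖ ≤ C4 / N := by
  have hN0 : (0 : ℝ) < N := by linarith
  have hn0 : (0 : ℝ) < n := by linarith
  have hn1 : (1 : ℝ) ≤ n := by linarith
  have hAp : 0 < A := by rw [hA]; exact Real.exp_pos _
  have hnτ0 : 0 < (n : ℝ) ^ τ := Real.rpow_pos_of_pos hn0 _
  have hn2 : (0 : ℝ) < (n : ℝ) / 2 := by positivity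
  have hSC : 0 < S * Cb + C2 := by positivity
  have htail := tail (r := r) (B := (S * Cb + C2) * A * (n : ℝ) ^ τ) hn2 hdiff (by
    intro l' hl'
    exact apx_co hAp (by linarith) hn1 hCb hsup (hb l') hττ
      (hco l' (lt_of_le_of_lt hTr hl'))) (h := (h : ℂ)) (by
    rw [Complex.norm_natCast]
    exact apx_small hN hNn hh)
  have htc0 : (tc G n 0).re = y n := by
    rw [hy1]
    unfold tc
    simp
  have hdiff2 : |y (n + h) - (y n + ∑ j ∈ Finset.Icc 1 r, (tc G n j).re * (h : ℝ) ^ j)| ≤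
      2 * ((S * Cb + C2) * A * (n : ℝ) ^ τ) * ((h : ℝ) / (n / 2)) ^ (r + 1) := by
    rw [Complex.norm_natCast] at htail
    refine le_trans ?_ htail
    have k1 := Complex.abs_re_le_norm (G ((n : ℂ) + h) -
      ∑ l ∈ range (r + 1), tc G n l * (h : ℂ) ^ l)
    refine le_trans (le_of_eq ?_) k1
    congr 1
    rw [Complex.sub_re, Complex.re_sum, ← hy2, Finset.sum_range_succ']
    have k2 : ∀ l : ℕ, (tc G n l * (h : ℂ) ^ l).re = (tc G n l).re * (h : ℝ) ^ l := by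
      intro l
      have : (h : ℂ) ^ l = (((h : ℝ) ^ l : ℝ) : ℂ) := by push_cast; rfl
      rw [this, Complex.re_mul_ofReal]
    simp only [k2]
    rw [htc0, pow_zero, mul_one, Pool.Agent.N586.RT.sum_Icc_range']
    ring
  rw [ph_eq, ← e_add]
  refine (norm_e_sub _ _).trans ?_
  have k1 : θ * y (n + h) - (θ * y n +
      ∑ j ∈ Finset.Icc 1 r, θ * (tc G n j).re * (h : ℝ) ^ j) =
      θ * (y (n + h) - (y n + ∑ j ∈ Finset.Icc 1 r, (tc G n j).re * (h : ℝ) ^ j)) := by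
    rw [mul_sub, mul_add, Finset.mul_sum (Finset.Icc 1 r)]
    simp only [mul_assoc]
  rw [k1, abs_mul]
  have k2 := apx_pow (r := r) (κ := κ) (Nat.cast_nonneg h) hh (by linarith) hNn hr1
  refine le_trans ?_ (apx_fin (r := r) (κ := κ) hθ hs0 hP hSC hCl hH hX hA hLb hA0 h4 hnτ0
    hsinv hC4 hN0 hNκ hl hLl hr2 f6 f7)
  have k3 := hdiff2.trans (mul_le_mul_of_nonneg_left k2 (by positivity))
  gcongr

/-- **one block** -/
theorem block (q T : ℕ) (hq : 1 ≤ q) (Z : ι → ℂ → ℂ) (c : ι → ℕ → ℝ) (Y : ι → ℕ → ℝ)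
    (hZ : ∀ j, AnalyticAt ℂ (Z j) 0) (hc : ∀ j m, tc (Z j) 0 m = c j m)
    (halg : ∀ j m, IsAlgebraic ℚ (c j m))
    (hnd : ∀ a : ι → ℤ, a ≠ 0 → ∃ m, NP q T m ∧ ∑ j, (a j : ℝ) * c j m ≠ 0)
    (hY : ∃ nY : ℕ, ∀ n : ℕ, nY ≤ n → ∀ a : ι → ℤ,
      ((∑ j, (a j : ℝ) * Y j n : ℝ) : ℂ) = GG q T Z a n) :
    ∃ C1 : ℕ, ∀ δ β : ℝ, 0 < δ → 0 < β → 2 * δ + β < 1 → ∃ X0 : ℕ, ∀ x : ℕ, X0 ≤ x →
    ∀ x' : ℕ, x ≤ x' → 50 * x' ≤ 63 * x → ∀ a : ι → ℤ, a ≠ 0 →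
    (∀ j, |(a j : ℝ)| ≤ Real.exp ((Real.log x) ^ β)) → ∀ θ : ℝ, (x : ℝ) ^ C1 ≤ |θ| →
    |θ| ≤ Real.exp ((Real.log x) ^ (1 + δ)) →
    ‖∑ n ∈ Finset.Ioc x x', e (θ * ∑ j, (a j : ℝ) * Y j n)‖ ≤
      x * Real.exp (-(Real.log x) ^ β) := by
  classical
  obtain ⟨nY, hnY⟩ := hY
  obtain ⟨K, Cl, hCl1, hlead⟩ := lead q T c halg hnd
  obtain ⟨C2, hC2, n0, hcoef⟩ := coef q T hq Z c hZ hc K
  obtain ⟨cb, hcb, hcb1, Cb, hCb, hbin⟩ := bin_unif q T K hq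
  have hqR : (1 : ℝ) ≤ q := by exact_mod_cast hq
  have hq0 : (0 : ℝ) < q := by linarith
  have hClR : (1 : ℝ) ≤ Cl := by exact_mod_cast hCl1
  have hKR : (0 : ℝ) ≤ K := Nat.cast_nonneg _
  have hTR : (0 : ℝ) ≤ T := Nat.cast_nonneg _
  -- the sizes of the coefficients
  obtain ⟨S, hS1, hS⟩ : ∃ S : ℝ, 1 ≤ S ∧ ∀ m < K, ∑ j, |c j m| ≤ S := by
    refine ⟨1 + ∑ m ∈ range K, ∑ j, |c j m|, ?_, ?_⟩
    · have : 0 ≤ ∑ m ∈ range K, ∑ j, |c j m| :=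
        Finset.sum_nonneg fun _ _ => Finset.sum_nonneg fun _ _ => abs_nonneg _
      linarith
    · intro m hm
      have := Finset.single_le_sum (f := fun m => ∑ j, |c j m|)
        (fun _ _ => Finset.sum_nonneg fun _ _ => abs_nonneg _) (mem_range.2 hm)
      linarith
  obtain ⟨E, hE⟩ : ∃ E : ℝ, E = (T : ℝ) + K + 1 := ⟨_, rfl⟩
  have hE0 : 0 ≤ E := by rw [hE]; positivity
  obtain ⟨P, hP⟩ : ∃ P : ℝ, P = 2 ^ E := ⟨_, rfl⟩
  have hP1 : 1 ≤ P := by rw [hP]; exact Real.one_le_rpow (by norm_num) hE0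
  have hP0 : 0 < P := by linarith
  have hCb0 : 0 < Cb := by linarith
  obtain ⟨H, hH⟩ : ∃ H : ℝ, H = 9 * Cb * P := ⟨_, rfl⟩
  have hH1 : 1 ≤ H := by
    rw [hH]
    have h9 : 1 ≤ Cb * P := one_le_mul_of_one_le_of_one_le hCb hP1
    linarith
  obtain ⟨D, hD⟩ : ∃ D : ℝ, D = 2 * P * H / cb := ⟨_, rfl⟩
  have hD1 : 1 ≤ D := by
    rw [hD, le_div_iff₀ hcb]
    have h9 : 1 ≤ P * H := one_le_mul_of_one_le_of_one_le hP1 hH1
    linarith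
  obtain ⟨C5, hC5, hblk⟩ := blk D hD1
  obtain ⟨C4, hC4⟩ : ∃ C4 : ℝ, C4 = 4 * Real.pi * P * (S * Cb + C2) * Cl := ⟨_, rfl⟩
  have hpi := Real.pi_pos
  have hC40 : 0 < C4 := by rw [hC4]; positivity
  refine ⟨T + K + 3, fun δ β hδ hβ hδβ => ?_⟩
  -- large `x`
  obtain ⟨X1, hX1⟩ := eventually_atTop.1 (((((((((logpow (by linarith : β < 1)
      (Real.log Cl + Cl)).and
    (logpow (by linarith : β < 1 + δ) (2 * (Real.log (H * S) + 1)))).and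
    (logpow (by linarith : (1 : ℝ) < 1 + δ) (2 * T))).and
    (logpow (by linarith : β < 1) (2 * q * (Real.log (2 * C2 * Cl / cb) + 1 + (1 + Cl))))).and
    (logpow (by linarith : δ < 1) (2 * q * 13))).and
    (logpow (by linarith : β < 1) (20 * (Cl + 1 + 7)))).and
    (logpow (by linarith : δ < 1) (20 * 20))).and
    (logpow (by linarith : β < 1 - 2 * δ) (5 * 10 ^ 11 * (Real.log (3 * (C5 + 1)) + 1)))).and
    (logpow (by linarith : β < 1) (5 * (Real.log (6 * (C4 + 1)) + 1))))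
  obtain ⟨X2, hX2⟩ := eventually_atTop.1 (log_ge 2)
  refine ⟨max (max (max X1 X2) (max n0 nY)) 2000, ?_⟩
  intro x hx x' hxx hx63 a ha haA θ hθ1 hθ2
  obtain ⟨⟨⟨⟨⟨⟨⟨⟨f1, f2⟩, f3⟩, f4⟩, f5⟩, f6⟩, f7⟩, f8⟩, f9⟩ :=
    hX1 x (le_trans (by simp) hx)
  have hL2 := hX2 x (le_trans (by simp) hx)
  have hxn0 : n0 ≤ x := le_trans (by simp) hx
  have hxnY : nY ≤ x := le_trans (by simp) hx
  have hx1000 : 2000 ≤ x := le_trans (by simp) hx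
  obtain ⟨L, hL⟩ : ∃ L : ℝ, L = Real.log x := ⟨_, rfl⟩
  rw [← hL] at f1 f2 f3 f4 f5 f6 f7 f8 f9 hL2 haA hθ2 ⊢
  rw [Real.rpow_one] at f1 f3 f4 f5 f6 f7 f9
  have hL0 : 0 < L := by linarith
  have hL1 : 1 ≤ L := by linarith
  have hxR : (2000 : ℝ) ≤ x := by exact_mod_cast hx1000
  have hx0 : (0 : ℝ) < x := by linarith
  have hexp : ∀ y : ℝ, (x : ℝ) ^ y = Real.exp (y * L) := by
    intro y
    rw [Real.rpow_def_of_pos hx0, hL, mul_comm]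
  have hxexp : (x : ℝ) = Real.exp L := by rw [hL, Real.exp_log hx0]
  have hLβ1 : 1 ≤ L ^ β := Real.one_le_rpow hL1 hβ.le
  have hLδ1 : 1 ≤ L ^ δ := Real.one_le_rpow hL1 hδ.le
  obtain ⟨A, hA⟩ : ∃ A : ℝ, A = Real.exp (L ^ β) := ⟨_, rfl⟩
  rw [← hA] at haA
  have hA1 : 1 ≤ A := by rw [hA]; exact Real.one_le_exp (by linarith)
  have hA0 : 0 < A := by linarith
  obtain ⟨m, hmK, hNm, hlow, hsm⟩ := hlead a A ha hA1 haA
  obtain ⟨s, hs⟩ : ∃ s : ℝ, s = ∑ j, (a j : ℝ) * c j m := ⟨_, rfl⟩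
  rw [← hs] at hsm
  have hApos : 0 < A ^ Cl := by positivity
  have hs0 : 0 < |s| := lt_of_lt_of_le (by positivity) hsm
  have hsup : |s| ≤ S * A := by
    rw [hs]
    refine (Finset.abs_sum_le_sum_abs _ _).trans ?_
    calc ∑ j, |(a j : ℝ) * c j m| ≤ ∑ j, A * |c j m| := by
          refine Finset.sum_le_sum fun j _ => ?_
          rw [abs_mul]
          exact mul_le_mul_of_nonneg_right (haA j) (abs_nonneg _)
      _ = A * ∑ j, |c j m| := by rw [Finset.mul_sum]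
      _ ≤ A * S := mul_le_mul_of_nonneg_left (hS m hmK) hA0.le
      _ = S * A := mul_comm _ _
  have hsinv : 1 / |s| ≤ Cl * A ^ Cl := by
    rw [div_le_iff₀ hs0]
    rw [div_le_iff₀ (by positivity)] at hsm
    linarith
  obtain ⟨τ, hτ⟩ : ∃ τ : ℝ, τ = ((T : ℝ) - m) / q := ⟨_, rfl⟩
  obtain ⟨τ', hτ'⟩ : ∃ τ' : ℝ, τ' = ((T : ℝ) - m - 1) / q := ⟨_, rfl⟩
  have hmR : (m : ℝ) ≤ K := by exact_mod_cast hmK.le
  have hm0 : (0 : ℝ) ≤ m := Nat.cast_nonneg _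
  have hτabs : |τ| ≤ E := by
    rw [hτ, abs_div, abs_of_pos hq0, div_le_iff₀ hq0]
    have h9 : |(T : ℝ) - m| ≤ E := by
      rw [hE, abs_le]
      constructor <;> linarith
    exact h9.trans (le_mul_of_one_le_right hE0 hqR)
  have hτK : -(K : ℝ) ≤ τ := by
    rw [hτ, le_div_iff₀ hq0]
    have h9 : (K : ℝ) ≤ K * q := le_mul_of_one_le_right hKR hqR
    linarith
  have hτT : τ ≤ T := by
    rw [hτ, div_le_iff₀ hq0]
    have h9 : (T : ℝ) ≤ T * q := le_mul_of_one_le_right hTR hqR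
    linarith
  have hττ : τ' ≤ τ := by
    rw [hτ, hτ']
    exact div_le_div_of_nonneg_right (by linarith) hq0.le
  have hbin' := hbin m hmK hNm
  rw [← hτ] at hbin'
  -- the parameters
  obtain ⟨X, hX⟩ : ∃ X : ℝ, X = (x : ℝ) ^ τ := ⟨_, rfl⟩
  have hX0 : 0 < X := by rw [hX]; exact Real.rpow_pos_of_pos hx0 _
  obtain ⟨A0, hA0d⟩ : ∃ A0 : ℝ, A0 = |θ| * |s| * X := ⟨_, rfl⟩
  have hθ0 : 0 < |θ| := lt_of_lt_of_le (by positivity) hθ1
  have hA00 : 0 < A0 := by rw [hA0d]; positivity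
  obtain ⟨N, hN⟩ : ∃ N : ℕ, N = 5 * x / 6 := ⟨_, rfl⟩
  have hNx : 6 * N ≤ 5 * x := by omega
  have hNx2 : 5 * x < 6 * N + 6 := by omega
  have hNxR : 6 * (N : ℝ) ≤ 5 * x := by exact_mod_cast hNx
  have hNxR2 : 5 * (x : ℝ) < 6 * N + 6 := by exact_mod_cast hNx2
  have hN2 : 2 ≤ N := by omega
  have hNR : (1024 : ℝ) ≤ N := by linarith
  have hN0 : (0 : ℝ) < N := by linarith
  have hN1 : (1 : ℝ) ≤ N := by linarith
  have hxN : (x : ℝ) ≤ 2 * N := by linarith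
  obtain ⟨l, hl⟩ : ∃ l : ℝ, l = Real.log N := ⟨_, rfl⟩
  have hlL : l ≤ L := by
    rw [hl, hL]
    exact Real.log_le_log hN0 (by linarith)
  have hLl : L / 2 ≤ l := by
    have h1 : L ≤ Real.log 2 + l := by
      rw [hL, hl, ← Real.log_mul (by norm_num) hN0.ne']
      exact Real.log_le_log hx0 hxN
    have h2 : Real.log 2 ≤ 1 := by
      have := Real.log_two_lt_d9
      linarith
    linarith
  have hl0 : 0 < l := by linarith
  obtain ⟨κ, hκ⟩ : ∃ κ : ℝ, κ = Real.log (H * A0) / l := ⟨_, rfl⟩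
  have hHA : 0 < H * A0 := by positivity
  have hNκ : (N : ℝ) ^ κ = H * A0 := by
    rw [Real.rpow_def_of_pos hN0, ← hl, hκ, mul_div_cancel₀ _ hl0.ne', Real.exp_log hHA]
  have hκ1 : (T : ℝ) + 1 ≤ κ := by
    rw [hκ]
    refine kap_lo (K := K) (L := L) (Lb := L ^ β) ?_ ?_ hClR hA hLβ1 hsm hA0d hH1 hl0 hlL f1
    · refine le_trans (le_of_eq ?_) hθ1
      rw [← Real.rpow_natCast, hexp]
      push_cast
      ring_nf
    · rw [hX, hexp]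
      apply Real.exp_le_exp.2
      exact mul_le_mul_of_nonneg_right hτK hL0.le
  have hκ12 : 1 / 2 ≤ κ := by linarith
  have hκ0 : 0 ≤ κ := by linarith
  have hκ2 : κ ≤ 4 * L ^ δ := by
    rw [hκ]
    refine kap_up hθ2 ?_ hX0 hθ0 hs0 hS1 hA hLβ1 hsup hA0d hH1 hL0 hl0 hLl hLδ1 f2 f3
    rw [hX, hexp]
    apply Real.exp_le_exp.2
    exact mul_le_mul_of_nonneg_right hτT hL0.le
  -- the points of the block
  have hpt : ∀ n ∈ Finset.Ioc x x', (x : ℝ) < n ∧ 50 * (n : ℝ) ≤ 63 * x ∧ 0 < (n : ℝ) := by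
    intro n hn
    rw [Finset.mem_Ioc] at hn
    have h1 : (x : ℝ) < n := by exact_mod_cast hn.1
    have h2 : 50 * n ≤ 63 * x := by omega
    exact ⟨h1, by exact_mod_cast h2, by linarith⟩
  have hnτ : ∀ n ∈ Finset.Ioc x x', (n : ℝ) ^ τ ≤ P * X ∧ X ≤ P * (n : ℝ) ^ τ := by
    intro n hn
    obtain ⟨h1, h2, h3⟩ := hpt n hn
    rw [hP, hX]
    exact ⟨rpow_comp hx0 (by linarith) (by linarith) hτabs,
      rpow_comp h3 (by linarith) (by linarith) hτabs⟩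
  obtain ⟨y, hy⟩ : ∃ y : ℕ → ℝ, y = fun n => ∑ j, (a j : ℝ) * Y j n := ⟨_, rfl⟩
  have hyG : ∀ n' : ℕ, x ≤ n' → y n' = (GG q T Z a n').re := by
    intro n' hn'
    have := hnY n' (hxnY.trans hn') a
    rw [← this, Complex.ofReal_re, hy]
  have hyE : ∀ n : ℕ, ∑ j, (a j : ℝ) * Y j n = y n := fun n => by rw [hy]
  simp only [hyE]
  refine le_trans (hblk N x x' κ (C4 / N) (fun n => e (θ * y n))
    (fun n l => θ * (tc (GG q T Z a) n l).re) hN2 hxx (by omega) hκ12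
    (by positivity) (fun n => (norm_e _).le) ?_ ?_) ?_
  · intro n hn
    obtain ⟨h1, h2, h3⟩ := hpt n hn
    obtain ⟨h4, h5⟩ := hnτ n hn
    have hnx : x ≤ n := (Finset.mem_Ioc.1 hn).1.le
    obtain ⟨-, hco⟩ := hcoef n (hxn0.trans hnx) a A hA1 haA m hmK hlow
    refine adm_pt (q := q) (T := T) (b := bin τ) (τ := τ) (s := s) (L := L) (Ld := L ^ δ)
      hqR hC2 hcb hcb1 hCb0 hClR hA hLβ1 hxexp h1 f4 f5 (by linarith) hbin' hsm hs0 hθ0 hP0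
      hX0 hA0d h4 h5 hN0 hH hD (by linarith) (by linarith) hNκ (by linarith) ?_
    intro j hj
    have k1 := hco j hj
    have e1 : (n : ℝ) ^ (((T : ℝ) - m - 1) / q) = (n : ℝ) ^ τ * (n : ℝ) ^ (-(1 / (q : ℝ))) := by
      rw [← Real.rpow_add h3, hτ]
      congr 1
      ring
    rw [← hs, ← hτ, e1] at k1
    exact k1
  · intro n hn h hh
    obtain ⟨h1, h2, h3⟩ := hpt n hn
    obtain ⟨h4, h5⟩ := hnτ n hn
    have hnx : x ≤ n := (Finset.mem_Ioc.1 hn).1.le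
    obtain ⟨hdiff, hco⟩ := hcoef n (hxn0.trans hnx) a A hA1 haA m hmK hlow
    rw [← hs, ← hτ, ← hτ'] at hco
    have hrκ : 5 * κ + 5 ≤ ((⌈5 * κ⌉₊ + 5 : ℕ) : ℝ) := by
      push_cast
      linarith [Nat.le_ceil (5 * κ)]
    have hrκ2 : ((⌈5 * κ⌉₊ + 5 : ℕ) : ℝ) ≤ 5 * κ + 6 := by
      push_cast
      linarith [Nat.ceil_lt_add_one (a := 5 * κ) (by linarith)]
    have hTr : T ≤ ⌈5 * κ⌉₊ + 5 := by
      have : (T : ℝ) ≤ ((⌈5 * κ⌉₊ + 5 : ℕ) : ℝ) := by linarith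
      exact_mod_cast this
    refine apx_pt (T := T) (b := bin τ) (τ := τ) (τ' := τ') (s := s) (S := S) (L := L)
      (Ld := L ^ δ) (y := y) hC2 hCb0 hS1 hClR hA hLβ1 (fun j => (hbin' j).2) hsinv hs0 hsup
      hθ0 hP0 hX0 hA0d h4 hH1 hNR (by linarith) hNκ hTr hrκ (by linarith) hC4 hl hLl hττ
      f6 f7 hh hdiff hco (hyG n hnx) ?_
    have := hyG (n + h) (by omega)
    push_cast at this
    exact this
  · rw [hl] at hLl
    exact fin_est hβ hC40 hC5 hL2 hxexp hN1 hxN (by linarith) hLl hκ0 hκ2 hLδ1 f8 f9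

end Pool.Agent.V5helper54.MR
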