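import Pool.Agent.V5helper54.MR.Alg
import Pool.Agent.V5helper54.MR.Es

/-!
# The exponential sums of roots of polynomials
-/

set_option autoImplicit false

namespace Pool.Agent.V5helper54.MR

open Finset Filter Topology Polynomial Metric

/-- the reversed polynomial in the local variable -/
noncomputable def Gp (d : ℕ) (f : ℤ[X]) : ℚ[X] :=
  C (1 / (f.leadingCoeff : ℚ)) * expand ℚ d (f.reverse.map (Int.castRingHom ℚ))

/-- the analytic function of the local variable -/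
noncomputable def Zp (d T : ℕ) (f : ℤ[X]) (z : ℂ) : ℂ :=
  (((f.leadingCoeff : ℝ) ^ (1 / (d : ℝ)) : ℝ) : ℂ) *
    (z ^ (T - f.natDegree) * (aeval z (Gp d f)) ^ (((1 / (d : ℝ) : ℝ)) : ℂ))

lemma Gp_zero {d : ℕ} (hd : 1 ≤ d) {f : ℤ[X]} (hf : 0 < f.leadingCoeff) :
    (Gp d f).coeff 0 = 1 := by
  unfold Gp
  have h1 : (f.leadingCoeff : ℚ) ≠ 0 := by exact_mod_cast hf.ne'
  rw [coeff_C_mul, coeff_expand (by omega)]
  simp only [dvd_zero, if_true, Nat.zero_div, coeff_map, coeff_zero_reverse, eq_intCast]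
  field_simp

/-- the local expansion of a root of a polynomial -/
lemma Zp_data {d : ℕ} (hd : 1 ≤ d) (T : ℕ) {f : ℤ[X]} (hf : 0 < f.leadingCoeff) :
    AnalyticAt ℂ (Zp d T f) 0 ∧ ∃ c : ℕ → ℝ, (∀ m, IsAlgebraic ℚ (c m)) ∧
      ∀ m, tc (Zp d T f) 0 m = c m := by
  obtain ⟨h1, h2⟩ := tc_root (Gp d f) (Gp_zero hd hf) d
  obtain ⟨α, hα⟩ : ∃ α : ℝ, α = (f.leadingCoeff : ℝ) ^ (1 / (d : ℝ)) := ⟨_, rfl⟩
  have hd0 : (d : ℝ) ≠ 0 := by
    have : (0 : ℝ) < d := by exact_mod_cast (by omega : 0 < d)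
    exact this.ne'
  have hαalg : IsAlgebraic ℚ α := by
    have h3 : α ^ d = (f.leadingCoeff : ℝ) := by
      rw [hα, ← Real.rpow_natCast, ← Real.rpow_mul (by exact_mod_cast hf.le)]
      rw [one_div, inv_mul_cancel₀ hd0, Real.rpow_one]
    have h4 : IsAlgebraic ℚ (α ^ d) := by
      rw [h3]
      exact isAlgebraic_intCast _
    exact IsAlgebraic.of_pow (by omega) h4
  obtain ⟨k, hk⟩ : ∃ k, k = T - f.natDegree := ⟨_, rfl⟩
  obtain ⟨W, hW⟩ : ∃ W : ℂ → ℂ, W = fun z : ℂ =>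
    (aeval z (Gp d f)) ^ (((1 / (d : ℝ) : ℝ)) : ℂ) := ⟨_, rfl⟩
  rw [← hW] at h1 h2
  have hZ : Zp d T f = fun z => (α : ℂ) * (z ^ k * W z) := by
    funext z
    rw [hW, hα, hk]
    rfl
  have hpow : AnalyticAt ℂ (fun z : ℂ => z ^ k) 0 := by fun_prop
  rw [hZ]
  refine ⟨analyticAt_const.mul (hpow.mul h1), ?_⟩
  have hpowtc : ∀ i, tc (fun z : ℂ => z ^ k) 0 i ∈ QQ := by
    intro i
    have h3 : (fun z : ℂ => z ^ k) = fun z => (X ^ k : ℂ[X]).eval z := by
      funext z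
      simp
    rw [h3, tc_poly, coeff_X_pow]
    split_ifs
    · exact QQ.one_mem
    · exact QQ.zero_mem
  have h3 : ∀ m, tc (fun z => z ^ k * W z) 0 m ∈ QQ := by
    intro m
    rw [tc_prod hpow h1]
    exact QQ.sum_mem fun i _ => QQ.mul_mem (hpowtc i) (h2 _)
  choose r hr using h3
  refine ⟨fun m => α * r m, fun m => ?_, fun m => ?_⟩
  · exact hαalg.mul (isAlgebraic_algebraMap (r m))
  · rw [tc_mul, ← hr m]
    push_cast
    simp

/-- the value of the local expansion -/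
lemma Zp_val {d : ℕ} (hd : 1 ≤ d) {T : ℕ} {f : ℤ[X]} (hf : 0 < f.leadingCoeff)
    (hT : f.natDegree ≤ T) : ∀ᶠ x : ℝ in atTop,
    (((aeval x f : ℝ) ^ (1 / (d : ℝ)) : ℝ) : ℂ) =
      (x : ℂ) ^ (((T : ℝ) / d : ℝ) : ℂ) * Zp d T f ((x : ℂ) ^ ((-(1 / (d : ℝ)) : ℝ) : ℂ)) := by
  have hdpos : (0 : ℝ) < d := by exact_mod_cast (by omega : 0 < d)
  have hlc : (0 : ℝ) < f.leadingCoeff := by exact_mod_cast hf
  -- positivity of the reversed polynomial
  have hpos : ∀ᶠ v : ℝ in 𝓝 (0 : ℝ), 0 < (aeval v (Gp d f) : ℝ) := by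
    have h1 : ContinuousAt (fun v : ℝ => (aeval v (Gp d f) : ℝ)) 0 := by
      have : Continuous (fun v : ℝ => (aeval v (Gp d f) : ℝ)) := by
        simp only [aeval_def, eval₂_eq_eval_map]
        exact Polynomial.continuous _
      exact this.continuousAt
    have h2 : (aeval (0 : ℝ) (Gp d f) : ℝ) = 1 := by
      rw [aeval_def, eval₂_at_zero, Gp_zero hd hf]
      simp
    have h3 : (0 : ℝ) < (fun v : ℝ => (aeval v (Gp d f) : ℝ)) 0 := by
      simp only [h2]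
      exact one_pos
    exact h1.eventually (lt_mem_nhds h3)
  have htend : Tendsto (fun x : ℝ => x ^ (-(1 / (d : ℝ)))) atTop (𝓝 0) :=
    tendsto_rpow_neg_atTop (by positivity)
  filter_upwards [htend.eventually hpos, eventually_gt_atTop 0] with x hx hx0
  obtain ⟨v, hv⟩ : ∃ v : ℝ, v = x ^ (-(1 / (d : ℝ))) := ⟨_, rfl⟩
  rw [← hv] at hx
  have hv0 : 0 < v := by rw [hv]; exact Real.rpow_pos_of_pos hx0 _
  have hvd : v ^ d = x⁻¹ := by
    rw [hv, ← Real.rpow_natCast, ← Real.rpow_mul hx0.le, neg_mul, one_div,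
      inv_mul_cancel₀ hdpos.ne', Real.rpow_neg_one]
  -- the value of the polynomial
  have hval : (aeval x f : ℝ) = f.leadingCoeff * (x ^ f.natDegree * (aeval v (Gp d f) : ℝ)) := by
    have h1 : (aeval v (Gp d f) : ℝ) = 1 / f.leadingCoeff *
        eval₂ (Int.castRingHom ℝ) (x⁻¹) f.reverse := by
      unfold Gp
      have h4 : (algebraMap ℚ ℝ).comp (Int.castRingHom ℚ) = Int.castRingHom ℝ :=
        RingHom.ext_int _ _
      rw [map_mul, aeval_C, expand_aeval, hvd, aeval_def, eval₂_map, h4]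
      simp
    let _ : Invertible x := invertibleOfNonzero hx0.ne'
    have h2 := eval₂_reverse_mul_pow (Int.castRingHom ℝ) x f
    rw [invOf_eq_inv] at h2
    rw [h1, aeval_def]
    have h3 : (algebraMap ℤ ℝ) = Int.castRingHom ℝ := rfl
    rw [h3, ← h2]
    field_simp
  have hα0 : (0 : ℝ) < (f.leadingCoeff : ℝ) ^ (1 / (d : ℝ)) := Real.rpow_pos_of_pos hlc _
  have hreal : (aeval x f : ℝ) ^ (1 / (d : ℝ)) = x ^ ((T : ℝ) / d) *
      ((f.leadingCoeff : ℝ) ^ (1 / (d : ℝ)) * (v ^ (T - f.natDegree) *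
        (aeval v (Gp d f) : ℝ) ^ (1 / (d : ℝ)))) := by
    rw [hval, Real.mul_rpow hlc.le (by positivity), Real.mul_rpow (by positivity) hx.le]
    have h1 : (x ^ f.natDegree) ^ (1 / (d : ℝ)) = x ^ ((T : ℝ) / d) * v ^ (T - f.natDegree) := by
      rw [hv, ← Real.rpow_natCast, ← Real.rpow_natCast, ← Real.rpow_mul hx0.le,
        ← Real.rpow_mul hx0.le, ← Real.rpow_add hx0]
      congr 1
      rw [Nat.cast_sub hT]
      field_simp
      ring
    rw [h1]
    ring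
  have hcx : (x : ℂ) ^ ((-(1 / (d : ℝ)) : ℝ) : ℂ) = (v : ℂ) := by
    rw [hv, Complex.ofReal_cpow hx0.le]
  have hcx2 : (x : ℂ) ^ (((T : ℝ) / d : ℝ) : ℂ) = ((x ^ ((T : ℝ) / d) : ℝ) : ℂ) := by
    rw [Complex.ofReal_cpow hx0.le]
  have haev : aeval (v : ℂ) (Gp d f) = (((aeval v (Gp d f) : ℝ)) : ℂ) := by
    have := (Polynomial.aeval_algebraMap_apply ℂ v (Gp d f))
    simpa using this
  rw [hcx, hcx2, hreal]
  unfold Zp
  rw [haev, ← Complex.ofReal_cpow hx.le]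
  push_cast
  ring

variable {ι : Type} [Fintype ι]

/-- no nontrivial integral combination of the roots is a polynomial -/
def Indep (d : ℕ) (f : ι → ℤ[X]) : Prop :=
  ∀ c : ι → ℤ, c ≠ 0 → ∀ P : ℝ[X], ¬ ∀ᶠ x : ℝ in atTop,
    ∑ j, (c j : ℝ) * (aeval x (f j) : ℝ) ^ (1 / (d : ℝ)) = P.eval x

theorem fam_small {d : ℕ} (hd : 1 ≤ d) (f : ι → ℤ[X]) (hf : ∀ j, 0 < (f j).leadingCoeff)
    (h : Indep d f) :
    ∃ C1, Small (fun j n => (aeval (n : ℝ) (f j) : ℝ) ^ (1 / (d : ℝ))) C1 := by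
  classical
  obtain ⟨T, hT⟩ : ∃ T : ℕ, T = ∑ j, (f j).natDegree := ⟨_, rfl⟩
  have hTj : ∀ j, (f j).natDegree ≤ T := by
    intro j
    rw [hT]
    exact Finset.single_le_sum (f := fun j => (f j).natDegree) (fun _ _ => Nat.zero_le _)
      (mem_univ j)
  have hdpos : (0 : ℝ) < d := by exact_mod_cast (by omega : 0 < d)
  have hdata := fun j => Zp_data hd T (hf j)
  choose hZ c halg hc using hdata
  -- the identity for large real numbers
  have hall : ∀ᶠ x : ℝ in atTop, ∀ a : ι → ℤ,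
      ((∑ j, (a j : ℝ) * (aeval x (f j) : ℝ) ^ (1 / (d : ℝ)) : ℝ) : ℂ) =
        GG d T (fun j => Zp d T (f j)) a x := by
    have h1 : ∀ᶠ x : ℝ in atTop, ∀ j, (((aeval x (f j) : ℝ) ^ (1 / (d : ℝ)) : ℝ) : ℂ) =
        (x : ℂ) ^ (((T : ℝ) / d : ℝ) : ℂ) *
          Zp d T (f j) ((x : ℂ) ^ ((-(1 / (d : ℝ)) : ℝ) : ℂ)) :=
      eventually_all.2 fun j => Zp_val hd (hf j) (hTj j)
    filter_upwards [h1] with x hx a
    unfold GG
    rw [Finset.mul_sum, Complex.ofReal_sum]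
    refine Finset.sum_congr rfl fun j _ => ?_
    rw [Complex.ofReal_mul, hx j, Complex.ofReal_intCast]
    ring
  refine exp_sum d T hd (fun j => Zp d T (f j)) c _ hZ hc halg ?_ ?_
  · intro a ha
    by_contra hcon
    push Not at hcon
    -- the combination has a finite expansion
    obtain ⟨Za, hZa⟩ : ∃ Za : ℂ → ℂ, Za = fun z => ∑ j, (a j : ℂ) * Zp d T (f j) z := ⟨_, rfl⟩
    have hZaan : AnalyticAt ℂ Za 0 := by
      rw [hZa]
      exact Finset.analyticAt_fun_sum _ fun j _ => analyticAt_const.mul (hZ j)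
    obtain ⟨s, hs⟩ : ∃ s : ℕ → ℝ, s = fun m => ∑ j, (a j : ℝ) * c j m := ⟨_, rfl⟩
    have htc : ∀ m, tc Za 0 m = s m := by
      intro m
      rw [hZa, tc_sum univ (fun j z => (a j : ℂ) * Zp d T (f j) z) 0
        (fun j _ => analyticAt_const.mul (hZ j)), hs]
      push_cast
      refine Finset.sum_congr rfl fun j _ => ?_
      rw [tc_mul, hc]
    obtain ⟨ρ, hρ, hρZ⟩ := Metric.eventually_nhds_iff_ball.1 hZaan.eventually_analyticAt
    have hdiff : DifferentiableOn ℂ Za (ball 0 ρ) := fun z hz =>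
      (hρZ z hz).differentiableAt.differentiableWithinAt
    obtain ⟨F, hF⟩ : ∃ F : Finset ℕ, F = (range (T + 1)).filter (fun m => d ∣ T - m) := ⟨_, rfl⟩
    have hs0 : ∀ m, m ∉ F → s m = 0 := by
      intro m hm
      rw [hs]
      refine hcon m ?_
      intro h1
      apply hm
      rw [hF, mem_filter, mem_range]
      exact ⟨by omega, h1.2⟩
    have hval : ∀ v : ℂ, ‖v‖ < ρ → Za v = ∑ m ∈ F, (s m : ℂ) * v ^ m := by
      intro v hv
      have h1 := hasSum_tc hdiff (h := v) hv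
      rw [zero_add] at h1
      have h2 : HasSum (fun l => tc Za 0 l * v ^ l) (∑ m ∈ F, tc Za 0 m * v ^ m) :=
        hasSum_sum_of_ne_finset_zero fun m hm => by rw [htc, hs0 m hm]; simp
      rw [h1.unique h2]
      refine Finset.sum_congr rfl fun m _ => ?_
      rw [htc]
    refine h a ha (∑ m ∈ F, C (s m) * X ^ ((T - m) / d)) ?_
    have htend : Tendsto (fun x : ℝ => x ^ (-(1 / (d : ℝ)))) atTop (𝓝 0) :=
      tendsto_rpow_neg_atTop (by positivity)
    filter_upwards [hall, htend.eventually (gt_mem_nhds hρ), eventually_gt_atTop 0]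
      with x hx hxρ hx0
    obtain ⟨v, hv⟩ : ∃ v : ℝ, v = x ^ (-(1 / (d : ℝ))) := ⟨_, rfl⟩
    rw [← hv] at hxρ
    have hv0 : 0 < v := by rw [hv]; exact Real.rpow_pos_of_pos hx0 _
    have hcx : (x : ℂ) ^ ((-(1 / (d : ℝ)) : ℝ) : ℂ) = (v : ℂ) := by
      rw [hv, Complex.ofReal_cpow hx0.le]
    have hcx2 : (x : ℂ) ^ (((T : ℝ) / d : ℝ) : ℂ) = ((x ^ ((T : ℝ) / d) : ℝ) : ℂ) := by
      rw [Complex.ofReal_cpow hx0.le]
    have h1 := hx a
    have h2 : GG d T (fun j => Zp d T (f j)) a x = ((x ^ ((T : ℝ) / d) : ℝ) : ℂ) * Za v := by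
      unfold GG
      rw [hcx, hcx2, hZa]
    rw [h2, hval v (by rw [Complex.norm_real, Real.norm_eq_abs, abs_of_pos hv0]; exact hxρ)] at h1
    have h3 : ∑ j, (a j : ℝ) * (aeval x (f j) : ℝ) ^ (1 / (d : ℝ)) =
        x ^ ((T : ℝ) / d) * ∑ m ∈ F, s m * v ^ m := by
      exact_mod_cast h1
    rw [h3, eval_finsetSum, Finset.mul_sum]
    refine Finset.sum_congr rfl fun m hm => ?_
    rw [hF, mem_filter, mem_range] at hm
    obtain ⟨k, hk⟩ := hm.2
    have hTm : (T : ℝ) = m + d * k := by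
      have : T = m + d * k := by omega
      rw [this]
      push_cast
      ring
    rw [eval_mul, eval_C, eval_pow, eval_X, hk, Nat.mul_div_cancel_left _ (by omega), hv,
      ← Real.rpow_natCast (x ^ (-(1 / (d : ℝ)))), ← Real.rpow_mul hx0.le]
    have h4 : x ^ ((T : ℝ) / d) * (s m * x ^ (-(1 / (d : ℝ)) * m)) =
        s m * (x ^ ((T : ℝ) / d) * x ^ (-(1 / (d : ℝ)) * m)) := by ring
    rw [h4, ← Real.rpow_add hx0, ← Real.rpow_natCast x k]
    congr 2
    rw [hTm]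
    field_simp
    ring
  · obtain ⟨x0, hx0⟩ := eventually_atTop.1 hall
    refine ⟨⌈x0⌉₊, fun n hn a => ?_⟩
    have h1 := hx0 n ((Nat.le_ceil x0).trans (by exact_mod_cast hn)) a
    exact_mod_cast h1

end Pool.Agent.V5helper54.MR
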