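import Pool.Agent.V5helper54.MR.Jn

/-!
# All tuples at the same time
-/

set_option autoImplicit false

namespace Pool.Agent.V5helper54.MR

open Finset Filter
open Pool.Agent.N586.RT (logpow log_ge)

variable {ι : Type} [Fintype ι]

open Classical in
/-- **all tuples at the same time** -/
theorem jn_all {Y : ι → ℕ → ℝ} {C1 : ℕ} (hS : Small Y C1) (δ β β' : ℝ) (hδ : 0 < δ)
    (hβ : 0 < β) (hββ : β < β') (hδβ : 2 * δ + β' < 1) (B w r : ℕ) (hr : 1 ≤ r) (ε : ℝ)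
    (hε : 0 < ε) :
    ∃ M0 : ℕ, ∀ M : ℕ, M0 ≤ M →
      (((Finset.Ioc M (2 * M)).filter (fun n => ¬ ∀ (b : ℕ) (a : Fin r → ℤ) (v : Fin r → ι → ℤ)
        (m : Fin r → ℕ), 2 ≤ b → b ≤ B → (∀ i, |(a i : ℝ)| ≤ Real.exp ((Real.log M) ^ β)) →
        Dat (Real.exp ((Real.log M) ^ β)) v m →
        NwS b w (((C1 + 1) / Real.log 2 + 1) * Real.log M) ((Real.log M) ^ (1 + δ)) ε
          ((Real.log M) ^ β') (fun i => ((a i : ℝ) + ∑ j, (v i j : ℝ) * Y j n) / m i))).card : ℝ) ≤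
        M * Real.exp (-(Real.log M) ^ β) := by
  obtain ⟨γ, hγ⟩ : ∃ γ : ℝ, γ = (1 - 2 * δ - β') / 8 := ⟨_, rfl⟩
  have hγ0 : 0 < γ := by rw [hγ]; linarith
  have hβ'0 : 0 < β' := by linarith
  obtain ⟨c0, hc0, M1, hM1⟩ := jn_bases hS δ (δ + γ) β β' (β' + γ) hδ (by linarith) hβ hββ
    (by linarith) (by rw [hγ]; linarith) w r hr ε hε B
  obtain ⟨J, hJ⟩ : ∃ J : ℕ, J = Fintype.card ι := ⟨_, rfl⟩
  obtain ⟨K0, hK0⟩ : ∃ K0 : ℝ, K0 = Real.log (B + 1) := ⟨_, rfl⟩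
  have hB0 : (0 : ℝ) ≤ B := Nat.cast_nonneg _
  have hK0b : 0 ≤ K0 := by rw [hK0]; exact Real.log_nonneg (by linarith)
  obtain ⟨M2, hM2⟩ := eventually_atTop.1 ((((logpow hββ
    ((K0 + (3 * r + 2 * (r * J)) + (1 + δ) + 1) / c0)).and
    (log_ge 1)).and (eventually_ge_atTop 2)).and
    (logpow hβ 2))
  -- `log log M ≤ (log M) ^ β`
  have hll : ∀ᶠ M : ℕ in atTop, Real.log (Real.log M) ≤ (Real.log M) ^ β := by
    have hlog : Tendsto (fun N : ℕ => Real.log (N : ℝ)) atTop atTop :=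
      Real.tendsto_log_atTop.comp tendsto_natCast_atTop_atTop
    have h1 := (isLittleO_log_rpow_atTop hβ).bound
      (by norm_num : (0 : ℝ) < 1)
    filter_upwards [hlog.eventually h1, log_ge 1] with M h2 h3
    rw [one_mul, Real.norm_eq_abs, Real.norm_eq_abs] at h2
    rw [abs_of_nonneg (Real.rpow_nonneg (by linarith) _)] at h2
    exact (le_abs_self _).trans h2
  obtain ⟨M3, hM3⟩ := eventually_atTop.1 hll
  refine ⟨max (max M1 M2) M3, fun M hM => ?_⟩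
  have hMM1 : M1 ≤ M := le_of_max_le_left (le_of_max_le_left hM)
  obtain ⟨⟨⟨hb, hL1⟩, hH2⟩, hv⟩ := hM2 M (le_of_max_le_right (le_of_max_le_left hM))
  have hc := hM3 M (le_of_max_le_right hM)
  have hG := hM1 M hMM1
  have hMR : (2 : ℝ) ≤ M := by exact_mod_cast hH2
  have hMp : (0 : ℝ) < M := by linarith
  obtain ⟨L, hL⟩ : ∃ L : ℝ, L = Real.log M := ⟨_, rfl⟩
  rw [← hL] at hb hL1 hc hG hv ⊢
  rw [Real.rpow_zero, mul_one] at hv
  have hL0 : 0 < L := by linarith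
  obtain ⟨V, hV⟩ : ∃ V : ℝ, V = Real.exp (L ^ β) := ⟨_, rfl⟩
  rw [← hV] at hG ⊢
  have hV1 : 1 ≤ V := by rw [hV]; exact Real.one_le_exp (by positivity)
  have hV0 : 0 < V := by linarith
  have h3V : 3 * V ≤ V ^ 2 := by
    have h1 : (3 : ℝ) ≤ V := by
      rw [hV]
      have := Real.add_one_le_exp (L ^ β)
      linarith
    nlinarith
  obtain ⟨τ, hτ⟩ : ∃ τ : ℝ, τ = L ^ β' := ⟨_, rfl⟩
  obtain ⟨T, hT'⟩ : ∃ T : ℝ, T = L ^ (1 + δ) := ⟨_, rfl⟩
  rw [← hτ] at hG hb ⊢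
  rw [← hT'] at hG ⊢
  have hT0 : 0 < T := by rw [hT']; positivity
  obtain ⟨R, hR⟩ : ∃ R : ℝ, R = M * (T * Real.exp (-(c0 * τ))) := ⟨_, rfl⟩
  rw [← hR] at hG
  have hR0 : 0 ≤ R := by rw [hR]; positivity
  obtain ⟨S0, hS0⟩ : ∃ S0 : ℝ, S0 = ((C1 + 1) / Real.log 2 + 1) * L := ⟨_, rfl⟩
  rw [← hS0] at hG ⊢
  set S : Finset (((Fin r → ℤ) × (Fin r → ι → ℤ)) × ((Fin r → ℕ) × ℕ)) :=
    ((Fintype.piFinset fun _ => Finset.Icc (-⌊V⌋) ⌊V⌋) ×ˢ
      (Fintype.piFinset fun _ => Fintype.piFinset fun _ => Finset.Icc (-⌊V⌋) ⌊V⌋)) ×ˢ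
      ((Fintype.piFinset fun _ => Finset.Icc 1 ⌊V⌋₊) ×ˢ Finset.range (B + 1)) with hS
  set bad : ((Fin r → ℤ) × (Fin r → ι → ℤ)) × ((Fin r → ℕ) × ℕ) → Finset ℕ := fun z =>
    (Finset.Ioc M (2 * M)).filter (fun n => (Dat V z.1.2 z.2.1 ∧ 2 ≤ z.2.2 ∧ z.2.2 ≤ B) ∧
      ¬ NwS z.2.2 w S0 T ε τ (fun i => ((z.1.1 i : ℝ) + ∑ j, (z.1.2 i j : ℝ) * Y j n) / z.2.1 i))
    with hbad
  have hIcc : ∀ x : ℤ, |(x : ℝ)| ≤ V → x ∈ Finset.Icc (-⌊V⌋) ⌊V⌋ := by
    intro x hx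
    have h1 : |x| ≤ ⌊V⌋ := Int.le_floor.2 (by push_cast; exact hx)
    rw [abs_le] at h1
    exact Finset.mem_Icc.2 h1
  have hsub : (Finset.Ioc M (2 * M)).filter (fun n => ¬ ∀ (b : ℕ) (a : Fin r → ℤ)
        (v : Fin r → ι → ℤ) (m : Fin r → ℕ), 2 ≤ b → b ≤ B → (∀ i, |(a i : ℝ)| ≤ V) →
        Dat V v m → NwS b w S0 T ε τ (fun i => ((a i : ℝ) + ∑ j, (v i j : ℝ) * Y j n) / m i)) ⊆
      S.biUnion bad := by
    intro p hp
    rw [Finset.mem_filter] at hp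
    obtain ⟨hp1, hp2⟩ := hp
    simp only [not_forall] at hp2
    obtain ⟨b, a, v, m, hb2, hbB, haV, hdat, hno⟩ := hp2
    rw [Finset.mem_biUnion]
    refine ⟨((a, v), (m, b)), ?_, ?_⟩
    · rw [hS, Finset.mem_product, Finset.mem_product, Finset.mem_product]
      refine ⟨⟨?_, ?_⟩, ?_, ?_⟩
      · rw [Fintype.mem_piFinset]
        exact fun i => hIcc _ (haV i)
      · rw [Fintype.mem_piFinset]
        intro i
        rw [Fintype.mem_piFinset]
        exact fun j => hIcc _ (hdat.2.2.1 i j)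
      · rw [Fintype.mem_piFinset]
        intro j
        rw [Finset.mem_Icc]
        exact ⟨hdat.1 j, Nat.le_floor (hdat.2.1 j)⟩
      · rw [Finset.mem_range]
        simp only
        omega
    · rw [hbad]
      simp only [Finset.mem_filter]
      exact ⟨hp1, ⟨hdat, hb2, hbB⟩, hno⟩
  have hone : ∀ z ∈ S, ((bad z).card : ℝ) ≤ R := by
    intro z _
    by_cases hz : Dat V z.1.2 z.2.1 ∧ 2 ≤ z.2.2 ∧ z.2.2 ≤ B
    · refine le_trans (Nat.cast_le.2 (Finset.card_le_card fun p hp => ?_))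
        (hG z.2.2 hz.2.1 hz.2.2 (fun i => (z.1.1 i : ℝ)) z.1.2 z.2.1 hz.1)
      rw [hbad] at hp
      simp only [Finset.mem_filter] at hp
      rw [Finset.mem_filter]
      exact ⟨hp.1, hp.2.2⟩
    · have h1 : bad z = ∅ := by
        rw [hbad]
        simp only
        rw [Finset.filter_eq_empty_iff]
        rintro p _ ⟨h2, _⟩
        exact hz h2
      rw [h1, Finset.card_empty, Nat.cast_zero]
      exact hR0
  have hScard : ((S.card : ℕ) : ℝ) ≤ (B + 1) * V ^ (3 * r + 2 * (r * J)) := by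
    have h0 : (0 : ℝ) ≤ (⌊V⌋ : ℝ) := by exact_mod_cast Int.floor_nonneg.2 hV0.le
    have h1 : ((Finset.Icc (-⌊V⌋) ⌊V⌋).card : ℝ) ≤ V ^ 2 := by
      rw [Int.card_Icc]
      have h2 : ((⌊V⌋ + 1 - -⌊V⌋).toNat : ℝ) = 2 * ⌊V⌋ + 1 := by
        have h3 : (0 : ℤ) ≤ ⌊V⌋ + 1 - -⌊V⌋ := by
          have : (0 : ℤ) ≤ ⌊V⌋ := Int.floor_nonneg.2 hV0.le
          omega
        have h4 : (((⌊V⌋ + 1 - -⌊V⌋).toNat : ℤ) : ℝ) = ((⌊V⌋ + 1 - -⌊V⌋ : ℤ) : ℝ) := by
          rw [Int.toNat_of_nonneg h3]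
        push_cast at h4 ⊢
        rw [h4]
        ring
      rw [h2]
      have := Int.floor_le V
      linarith
    have h2 := Nat.floor_le hV0.le
    have h3 : (Fintype.piFinset fun _ : ι => Finset.Icc (-⌊V⌋) ⌊V⌋).card =
        (Finset.Icc (-⌊V⌋) ⌊V⌋).card ^ J := by
      rw [Fintype.card_piFinset, Finset.prod_const, Finset.card_univ, hJ]
    rw [hS, Finset.card_product, Finset.card_product, Finset.card_product,
      Fintype.card_piFinset_const, Fintype.card_piFinset_const, h3,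
      Fintype.card_piFinset_const, Nat.card_Icc, Nat.add_sub_cancel, Finset.card_range]
    push_cast
    calc ((Finset.Icc (-⌊V⌋) ⌊V⌋).card : ℝ) ^ r * (((Finset.Icc (-⌊V⌋) ⌊V⌋).card : ℝ) ^ J) ^ r *
        ((⌊V⌋₊ : ℝ) ^ r * (B + 1))
        ≤ (V ^ 2) ^ r * ((V ^ 2) ^ J) ^ r * (V ^ r * (B + 1)) := by
          gcongr
      _ = _ := by ring
  have hfin : (B + 1) * V ^ (3 * r + 2 * (r * J)) * (T * Real.exp (-(c0 * τ))) ≤
      Real.exp (-L ^ β) := by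
    have e1 : V ^ (3 * r + 2 * (r * J)) = Real.exp ((3 * r + 2 * (r * J)) * L ^ β) := by
      rw [hV, ← Real.exp_nat_mul]
      congr 1
      push_cast
      ring
    have e2 : T = Real.exp ((1 + δ) * Real.log L) := by
      rw [hT', Real.rpow_def_of_pos hL0]
      congr 1
      ring
    have e3 : ((B : ℝ) + 1) = Real.exp K0 := by
      rw [hK0, Real.exp_log (by linarith)]
    calc (B + 1) * V ^ (3 * r + 2 * (r * J)) * (T * Real.exp (-(c0 * τ)))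
        = Real.exp (K0 + (3 * r + 2 * (r * J)) * L ^ β + ((1 + δ) * Real.log L +
          -(c0 * τ))) := by
          rw [e3, e1, e2, ← Real.exp_add, ← Real.exp_add, ← Real.exp_add]
      _ ≤ _ := by
          apply Real.exp_le_exp.2
          have h1 : (1 + δ) * Real.log L ≤ (1 + δ) * L ^ β := by gcongr
          have h2 : (K0 + (3 * r + 2 * (r * J)) + (1 + δ) + 1) * L ^ β ≤ c0 * τ := by
            have h3 : (K0 + (3 * r + 2 * (r * J)) + (1 + δ) + 1) * L ^ β =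
                c0 * ((K0 + (3 * r + 2 * (r * J)) + (1 + δ) + 1) / c0 * L ^ β) := by
              field_simp
            rw [h3]
            exact mul_le_mul_of_nonneg_left hb hc0.le
          have h4 : (1 : ℝ) ≤ L ^ β := Real.one_le_rpow hL1 hβ.le
          have h5 : K0 ≤ K0 * L ^ β := le_mul_of_one_le_right hK0b h4
          linarith
  calc _ ≤ ((S.biUnion bad).card : ℝ) := by exact_mod_cast Finset.card_le_card hsub
    _ ≤ ∑ z ∈ S, ((bad z).card : ℝ) := by exact_mod_cast Finset.card_biUnion_le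
    _ ≤ ∑ _z ∈ S, R := sum_le_sum hone
    _ = (S.card : ℝ) * R := by rw [sum_const, nsmul_eq_mul]
    _ ≤ ((B + 1) * V ^ (3 * r + 2 * (r * J))) * (M * (T * Real.exp (-(c0 * τ)))) := by
        rw [hR]
        gcongr
    _ = M * ((B + 1) * V ^ (3 * r + 2 * (r * J)) * (T * Real.exp (-(c0 * τ)))) := by ring
    _ ≤ _ := by gcongr

end Pool.Agent.V5helper54.MR
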