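import Pool.Agent.V5helper54.MR.Es
import Pool.Agent.N586.JT.Bw
import Pool.Agent.N586.JT.Bt
import Pool.Agent.N586.JT.Nt

/-!
# Joint normality of all tuples of small integral combinations
-/

set_option autoImplicit false

namespace Pool.Agent.V5helper54.MR

open Finset Filter MeasureTheory
open Pool.Agent.N586.RT (logpow log_ge)
open Pool.Agent.Y933.KD (e norm_e e_add wd)
open Pool.Agent.Y951.TU (hat lin lin_apply unif unif_prob integral_unif real_unif)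
open Pool.Agent.N586.JT (NwT bt bw nt_pw)

variable {ι : Type} [Fintype ι]

open Classical in
/-- all digit matrices with `k ≤ w` columns have the right frequency in all windows between the
places `S` and `L` of the tuple `y` in base `b`, up to `ε N + E` -/
def NwS {r : ℕ} (b w : ℕ) (S L ε E : ℝ) (y : Fin r → ℝ) : Prop :=
  ∀ (k s N : ℕ) (D : Fin r → ℕ), 1 ≤ k → k ≤ w → (∀ j, D j < b ^ k) → S ≤ s → (s : ℝ) + N ≤ L →
    |(((Finset.range N).filter (fun i => ∀ j, wd b k (s + i) (y j) = D j)).card : ℝ) -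
      N / ((b : ℝ) ^ k) ^ r| ≤ ε * N + E

lemma NwS_of {r b w n0 : ℕ} {S L ε E : ℝ} {y : Fin r → ℝ} (hn0 : (n0 : ℝ) ≤ S)
    (h : NwT b w L ε E (fun j => (b : ℝ) ^ n0 * y j)) : NwS b w S L ε E y := by
  classical
  intro k s N D hk hkw hD hS hsN
  have h1 : n0 ≤ s := by
    have : (n0 : ℝ) ≤ s := hn0.trans hS
    exact_mod_cast this
  obtain ⟨s', rfl⟩ : ∃ s', s = n0 + s' := ⟨s - n0, by omega⟩
  have h3 := h k s' N D hk hkw hD (by
    push_cast at hsN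
    have : (0 : ℝ) ≤ n0 := Nat.cast_nonneg _
    linarith)
  have h5 : (Finset.range N).filter
      (fun i => ∀ j, wd b k (s' + i) ((b : ℝ) ^ n0 * y j) = D j) =
      (Finset.range N).filter (fun i => ∀ j, wd b k (n0 + s' + i) (y j) = D j) := by
    refine Finset.filter_congr fun i _ => ?_
    refine forall_congr' fun j => ?_
    rw [Pool.Agent.Y933.KG.wd_shift, add_assoc]
  rw [← h5]
  convert h3 using 5

/-- the Fourier coefficients of one tuple -/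
lemma jn_four {Y : ι → ℕ → ℝ} {C1 r M n n0 b : ℕ} {δ' β2 L τ W V : ℝ}
    (hM : 1 ≤ M) (hmain : ∀ a : ι → ℤ, a ≠ 0 → (∀ j, |(a j : ℝ)| ≤ Real.exp (L ^ β2)) →
      ∀ θ : ℝ, (M : ℝ) ^ C1 ≤ |θ| → |θ| ≤ Real.exp (L ^ (1 + δ')) →
      ‖∑ n ∈ Finset.Ioc M (2 * M), e (θ * ∑ j, (a j : ℝ) * Y j n)‖ ≤
        M * Real.exp (-L ^ β2))
    (hτ : τ ≤ L ^ β2) (hW : W = Real.exp τ) (hV : 1 ≤ V) (hVr : V ^ r ≤ M)
    (hWV : r * (W * V ^ r) ≤ Real.exp (L ^ β2)) (hb : 2 ≤ b)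
    (hn0 : (M : ℝ) ^ (C1 + 1) ≤ (b : ℝ) ^ n0)
    (hn : (b : ℝ) ^ n * (b : ℝ) ^ n0 ≤ Real.exp (L ^ (1 + δ')))
    (u : Fin r → ℝ) (v : Fin r → ι → ℤ) (m : Fin r → ℕ) (hm1 : ∀ i, 1 ≤ m i)
    (hm2 : ∀ i, (m i : ℝ) ≤ V) (hv : ∀ i j, |(v i j : ℝ)| ≤ V)
    (hind : ∀ c : Fin r → ℤ, c ≠ 0 → ∃ j, ∑ i, c i * v i j ≠ 0)
    (h : Fin r → ℤ) (hh : h ≠ 0) (hh2 : ∀ i, |(h i : ℝ)| ≤ W) :
    ‖hat (lin r) (unif (Finset.Ioc M (2 * M))
      (fun n i => (b : ℝ) ^ n0 * ((u i + ∑ j, (v i j : ℝ) * Y j n) / m i)))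
      (fun i => h i * (b : ℤ) ^ n)‖ ≤ Real.exp (-τ) := by
  classical
  have hbR : (2 : ℝ) ≤ b := by exact_mod_cast hb
  have hM0 : (0 : ℝ) < M := by exact_mod_cast hM
  have hm0 : ∀ i, (0 : ℝ) < m i := fun i => by exact_mod_cast (hm1 i)
  obtain ⟨Q, hQ⟩ : ∃ Q : ℝ, Q = ∏ i, (m i : ℝ) := ⟨_, rfl⟩
  have hQ0 : 0 < Q := by rw [hQ]; exact prod_pos fun j _ => hm0 j
  have hQV : Q ≤ V ^ r := by
    rw [hQ]
    calc ∏ j, (m j : ℝ) ≤ ∏ _j : Fin r, V := prod_le_prod (fun j _ => (hm0 j).le) fun j _ => hm2 j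
      _ = V ^ r := by rw [prod_const, card_univ, Fintype.card_fin]
  have hQ1 : 1 ≤ Q := by
    rw [hQ]
    have : (1 : ℕ) ≤ ∏ i, m i := Nat.one_le_iff_ne_zero.2
      (Finset.prod_ne_zero_iff.2 fun i _ => by have := hm1 i; omega)
    exact_mod_cast this
  obtain ⟨c, hcd⟩ : ∃ c : Fin r → ℤ, c = fun j => h j * ∏ i ∈ univ.erase j, (m i : ℤ) := ⟨_, rfl⟩
  have hcj : ∀ j, (c j : ℝ) = h j / m j * Q := by
    intro j
    have e1 : Q = m j * ∏ i ∈ univ.erase j, (m i : ℝ) := by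
      rw [hQ, mul_prod_erase univ (fun i => (m i : ℝ)) (mem_univ j)]
    have e2 := (hm0 j).ne'
    rw [hcd, e1]
    push_cast
    field_simp
  have hc0 : c ≠ 0 := by
    obtain ⟨j, hj⟩ := Function.ne_iff.1 hh
    intro h0
    have e1 := hcj j
    rw [h0] at e1
    simp only [Pi.zero_apply, Int.cast_zero] at e1
    have e2 : (h j : ℝ) / m j * Q ≠ 0 := by
      refine mul_ne_zero (div_ne_zero ?_ (hm0 j).ne') hQ0.ne'
      exact_mod_cast hj
    exact e2 e1.symm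
  have hcW : ∀ i, |(c i : ℝ)| ≤ W * V ^ (r - 1) := by
    intro i
    rw [hcd]
    push_cast
    rw [abs_mul]
    have e1 : |∏ i' ∈ univ.erase i, (m i' : ℝ)| ≤ V ^ (r - 1) := by
      rw [Finset.abs_prod]
      calc ∏ i' ∈ univ.erase i, |(m i' : ℝ)| ≤ ∏ _i' ∈ univ.erase i, V :=
            prod_le_prod (fun j _ => abs_nonneg _) fun j _ => by
              rw [abs_of_pos (hm0 j)]; exact hm2 j
        _ = V ^ (r - 1) := by
            rw [prod_const, card_erase_of_mem (mem_univ _), card_univ, Fintype.card_fin]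
    exact mul_le_mul (hh2 i) e1 (abs_nonneg _) ((abs_nonneg _).trans (hh2 i))
  have hr1 : 1 ≤ r := by
    rcases Nat.eq_zero_or_pos r with h0 | h0
    · subst h0
      exact absurd (Subsingleton.elim h 0) hh
    · exact h0
  obtain ⟨A, hA⟩ : ∃ A : ι → ℤ, A = fun j => ∑ i, c i * v i j := ⟨_, rfl⟩
  have hA0 : A ≠ 0 := by
    obtain ⟨j, hj⟩ := hind c hc0
    intro h0
    apply hj
    have := congrFun h0 j
    rw [hA] at this
    exact this
  have hW0 : 0 < W := by rw [hW]; exact Real.exp_pos _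
  have hAW : ∀ j, |(A j : ℝ)| ≤ Real.exp (L ^ β2) := by
    intro j
    rw [hA]
    push_cast
    refine (Finset.abs_sum_le_sum_abs _ _).trans (le_trans ?_ hWV)
    calc ∑ i, |(c i : ℝ) * (v i j : ℝ)| ≤ ∑ _i : Fin r, W * V ^ r := by
          refine Finset.sum_le_sum fun i _ => ?_
          rw [abs_mul]
          calc |(c i : ℝ)| * |(v i j : ℝ)| ≤ (W * V ^ (r - 1)) * V := by
                exact mul_le_mul (hcW i) (hv i j) (abs_nonneg _) (by positivity)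
            _ = W * V ^ r := by
                rw [mul_assoc, ← pow_succ]
                congr 2
                omega
      _ = r * (W * V ^ r) := by rw [sum_const, card_univ, Fintype.card_fin, nsmul_eq_mul]
  obtain ⟨θ, hθ⟩ : ∃ θ : ℝ, θ = (b : ℝ) ^ n * (b : ℝ) ^ n0 / Q := ⟨_, rfl⟩
  have hθ0 : |θ| = θ := by rw [hθ]; exact abs_of_nonneg (by positivity)
  have hbn : (1 : ℝ) ≤ (b : ℝ) ^ n := one_le_pow₀ (by linarith)
  have hθ1 : (M : ℝ) ^ C1 ≤ |θ| := by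
    rw [hθ0, hθ, le_div_iff₀ hQ0]
    calc (M : ℝ) ^ C1 * Q ≤ (M : ℝ) ^ C1 * M := by
          gcongr
          exact hQV.trans hVr
      _ = (M : ℝ) ^ (C1 + 1) := by rw [pow_succ]
      _ ≤ 1 * (b : ℝ) ^ n0 := by rw [one_mul]; exact hn0
      _ ≤ (b : ℝ) ^ n * (b : ℝ) ^ n0 := by gcongr
  have hθ2 : |θ| ≤ Real.exp (L ^ (1 + δ')) := by
    rw [hθ0, hθ]
    exact (div_le_self (by positivity) hQ1).trans hn
  have key := hmain A hA0 hAW θ hθ1 hθ2
  have hcard : (Finset.Ioc M (2 * M)).card = M := by rw [Nat.card_Ioc]; omega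
  unfold hat
  rw [integral_unif, hcard]
  obtain ⟨κ, hκ⟩ : ∃ κ : ℝ, κ = θ * ∑ i, (c i : ℝ) * u i := ⟨_, rfl⟩
  have e1 : ∑ n' ∈ Finset.Ioc M (2 * M), e (lin r (fun i => h i * (b : ℤ) ^ n)
      (fun i => (b : ℝ) ^ n0 * ((u i + ∑ j, (v i j : ℝ) * Y j n') / m i))) =
      e κ * ∑ n' ∈ Finset.Ioc M (2 * M), e (θ * ∑ j, (A j : ℝ) * Y j n') := by
    rw [mul_sum]
    refine sum_congr rfl fun n' _ => ?_
    rw [← e_add]
    congr 1
    rw [lin_apply, hκ, ← mul_add]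
    have e2 : ∑ j, (A j : ℝ) * Y j n' = ∑ i, (c i : ℝ) * ∑ j, (v i j : ℝ) * Y j n' := by
      rw [hA]
      push_cast
      simp only [Finset.mul_sum, Finset.sum_mul]
      rw [Finset.sum_comm]
      refine Finset.sum_congr rfl fun i _ => Finset.sum_congr rfl fun j _ => ?_
      ring
    rw [e2, ← Finset.sum_add_distrib, Finset.mul_sum]
    refine Finset.sum_congr rfl fun i _ => ?_
    rw [hcj, hθ]
    push_cast
    have := (hm0 i).ne'
    field_simp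
  rw [e1, norm_mul, norm_mul, norm_e, one_mul, norm_div, norm_one, Complex.norm_natCast, one_div,
    inv_mul_le_iff₀ hM0]
  refine key.trans ?_
  exact mul_le_mul_of_nonneg_left (Real.exp_le_exp.2 (by linarith)) hM0.le

/-- the data of a tuple are small and nondegenerate -/
def Dat {r : ℕ} (V : ℝ) (v : Fin r → ι → ℤ) (m : Fin r → ℕ) : Prop :=
  (∀ i, 1 ≤ m i) ∧ (∀ i, (m i : ℝ) ≤ V) ∧ (∀ i j, |(v i j : ℝ)| ≤ V) ∧
    ∀ c : Fin r → ℤ, c ≠ 0 → ∃ j, ∑ i, c i * v i j ≠ 0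

open Classical in
/-- one tuple and one base -/
lemma jn_one {Y : ι → ℕ → ℝ} {C1 : ℕ} (hS : Small Y C1) (δ δ' β β' β2 : ℝ) (hδ : 0 < δ)
    (hδδ : δ < δ') (hβ : 0 < β) (hββ : β < β') (hββ2 : β' < β2) (hδβ : 2 * δ' + β2 < 1)
    (w r : ℕ) (hr : 1 ≤ r) (ε : ℝ) (hε : 0 < ε) (b : ℕ) (hb : 2 ≤ b) :
    ∃ c : ℝ, 0 < c ∧ ∃ M0 : ℕ, ∀ M : ℕ, M0 ≤ M → ∀ (u : Fin r → ℝ) (v : Fin r → ι → ℤ)
    (m : Fin r → ℕ), Dat (Real.exp ((Real.log M) ^ β)) v m →
      (((Finset.Ioc M (2 * M)).filter (fun n => ¬ NwS b w (((C1 + 1) / Real.log 2 + 1) * Real.log M)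
        ((Real.log M) ^ (1 + δ)) ε ((Real.log M) ^ β')
        (fun i => (u i + ∑ j, (v i j : ℝ) * Y j n) / m i))).card : ℝ) ≤
        M * ((Real.log M) ^ (1 + δ) * Real.exp (-(c * (Real.log M) ^ β'))) := by
  have hδ' : 0 < δ' := by linarith
  have hβ' : 0 < β' := by linarith
  obtain ⟨N0, hN0⟩ := hS δ' β2 hδ' (by linarith) hδβ
  obtain ⟨c0, hc0, τ0, hτ0⟩ := bt bw b w r ε hb hr hε
  have hbR : (2 : ℝ) ≤ b := by exact_mod_cast hb
  have hl2 : 0 < Real.log 2 := Real.log_pos (by norm_num)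
  obtain ⟨lB, hlB⟩ : ∃ lB : ℝ, lB = Real.log b := ⟨_, rfl⟩
  have hlB2 : Real.log 2 ≤ lB := by rw [hlB]; exact Real.log_le_log (by norm_num) hbR
  have hlB0 : 0 < lB := by linarith
  obtain ⟨N1, hN1⟩ := eventually_atTop.1 (((((((logpow hβ' (τ0)).and
    (logpow (by linarith : β < 1) r)).and
    (logpow (by linarith : (1 + δ : ℝ) < 1 + δ') (lB + (C1 + 1 + lB)))).and
    (log_ge 1)).and (logpow hββ2 (2 * r + 1))).and (eventually_ge_atTop 2)).and
    (logpow (by linarith : β < β') 1))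
  refine ⟨c0, hc0, max N0 N1, ?_⟩
  intro M hM u v m hdat
  obtain ⟨hm1, hm2, hv, hind⟩ := hdat
  obtain ⟨⟨⟨⟨⟨⟨h1, h2⟩, h3⟩, h4⟩, h5⟩, h6⟩, h7⟩ := hN1 M (le_of_max_le_right hM)
  have key := hN0 M (le_of_max_le_left hM)
  have hMR : (2 : ℝ) ≤ M := by exact_mod_cast h6
  have hMp : (0 : ℝ) < M := by linarith
  obtain ⟨L, hL⟩ : ∃ L : ℝ, L = Real.log M := ⟨_, rfl⟩
  rw [← hL] at h1 h2 h3 h4 h5 h7 key hm2 hv ⊢
  rw [Real.rpow_zero, mul_one] at h1
  rw [Real.rpow_one] at h2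
  rw [one_mul] at h7
  have hL0 : 0 < L := by linarith
  obtain ⟨τ, hτ⟩ : ∃ τ : ℝ, τ = L ^ β' := ⟨_, rfl⟩
  rw [← hτ] at h1 h5 h7 ⊢
  have hτ0' : 0 ≤ τ := by rw [hτ]; exact Real.rpow_nonneg hL0.le _
  have hτ1 : 1 ≤ τ := by rw [hτ]; exact Real.one_le_rpow h4 hβ'.le
  have hτ2 : τ ≤ L ^ β2 := by rw [hτ]; exact Real.rpow_le_rpow_of_exponent_le h4 hββ2.le
  obtain ⟨T, hT'⟩ : ∃ T : ℝ, T = L ^ (1 + δ) := ⟨_, rfl⟩
  rw [← hT'] at h3 ⊢
  have hT1 : 1 ≤ T := by rw [hT']; exact Real.one_le_rpow h4 (by positivity)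
  have hTL : L ≤ T := by
    rw [hT']
    calc L = L ^ (1 : ℝ) := (Real.rpow_one L).symm
      _ ≤ _ := Real.rpow_le_rpow_of_exponent_le h4 (by linarith)
  obtain ⟨n0, hn0⟩ : ∃ n0 : ℕ, n0 = ⌈(C1 + 1) * L / lB⌉₊ := ⟨_, rfl⟩
  have hC1 : (0 : ℝ) ≤ C1 := Nat.cast_nonneg _
  have hn0a : (C1 + 1) * L / lB ≤ n0 := by rw [hn0]; exact Nat.le_ceil _
  have hn0b : (n0 : ℝ) ≤ (C1 + 1) * L / lB + 1 := by
    rw [hn0]; exact (Nat.ceil_lt_add_one (by positivity)).le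
  have hn0c : (n0 : ℝ) ≤ ((C1 + 1) / Real.log 2 + 1) * L := by
    have e1 : (C1 + 1) * L / lB ≤ (C1 + 1) * L / Real.log 2 := by gcongr
    have e2 : ((C1 + 1) / Real.log 2 + 1) * L = (C1 + 1) * L / Real.log 2 + L := by ring
    rw [e2]
    linarith
  have hn0d : (M : ℝ) ^ (C1 + 1) ≤ (b : ℝ) ^ n0 := by
    rw [nt_pw n0 hb, ← hlB]
    have e1 : (M : ℝ) ^ (C1 + 1) = Real.exp ((C1 + 1) * L) := by
      rw [hL, ← Real.exp_log (by positivity : (0 : ℝ) < (M : ℝ) ^ (C1 + 1)), Real.log_pow]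
      push_cast
      rfl
    rw [e1]
    apply Real.exp_le_exp.2
    rwa [div_le_iff₀ hlB0] at hn0a
  have hcard : (Finset.Ioc M (2 * M)).card = M := by rw [Nat.card_Ioc]; omega
  have hne : (Finset.Ioc M (2 * M)).Nonempty := by
    rw [← Finset.card_pos, hcard]
    omega
  obtain ⟨V, hV⟩ : ∃ V : ℝ, V = Real.exp (L ^ β) := ⟨_, rfl⟩
  rw [← hV] at hm2 hv
  have hV1 : 1 ≤ V := by rw [hV]; exact Real.one_le_exp (Real.rpow_nonneg hL0.le _)
  have hVr : V ^ r = Real.exp (r * L ^ β) := by rw [hV, ← Real.exp_nat_mul]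
  obtain ⟨U, hU, hPU, hx⟩ := hτ0 τ h1 T hT1
    (unif (Finset.Ioc M (2 * M))
      (fun n i => (b : ℝ) ^ n0 * ((u i + ∑ j, (v i j : ℝ) * Y j n) / m i)))
    (unif_prob hne _)
    (fun n h hn hh hh2 => by
      refine jn_four (C1 := C1) (δ' := δ') (β2 := β2) (L := L) (W := Real.exp τ) (V := V)
        (by omega) key hτ2 rfl hV1 ?_ ?_ hb hn0d ?_ u v m hm1 hm2 hv hind h hh hh2
      · rw [hVr]
        calc Real.exp (r * L ^ β) ≤ Real.exp L := Real.exp_le_exp.2 h2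
          _ = M := by rw [hL, Real.exp_log hMp]
      · rw [hVr, ← Real.exp_add]
        have e1 : (r : ℝ) ≤ Real.exp r := by
          have := Real.add_one_le_exp (r : ℝ)
          linarith
        have hr0 : (0 : ℝ) ≤ r := Nat.cast_nonneg r
        calc (r : ℝ) * Real.exp (τ + r * L ^ β) ≤ Real.exp r * Real.exp (τ + r * L ^ β) := by
              gcongr
          _ = Real.exp (r + (τ + r * L ^ β)) := by rw [← Real.exp_add]
          _ ≤ _ := by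
              apply Real.exp_le_exp.2
              have e2 : (r : ℝ) ≤ r * τ := le_mul_of_one_le_right hr0 hτ1
              have e3 : r * L ^ β ≤ r * τ := mul_le_mul_of_nonneg_left h7 hr0
              linarith
      · rw [nt_pw n hb, nt_pw n0 hb, ← hlB, ← Real.exp_add]
        apply Real.exp_le_exp.2
        have g1 : (n : ℝ) * lB ≤ T * lB := by gcongr
        have g2 : (n0 : ℝ) * lB ≤ (C1 + 1 + lB) * T := by
          calc (n0 : ℝ) * lB ≤ ((C1 + 1) * L / lB + 1) * lB := by gcongr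
            _ = (C1 + 1) * L + lB := by field_simp
            _ ≤ _ := by nlinarith
        have g3 : (lB + (C1 + 1 + lB)) * T = T * lB + (C1 + 1 + lB) * T := by ring
        linarith)
  have hM0' : (0 : ℝ) < ((Finset.Ioc M (2 * M)).card : ℝ) := by rw [hcard]; exact hMp
  rw [real_unif _ _ hU, div_le_iff₀ hM0', hcard, mul_comm _ (M : ℝ)] at hPU
  refine le_trans ?_ hPU
  refine Nat.cast_le.2 (Finset.card_le_card fun p hp => ?_)
  rw [Finset.mem_filter] at hp ⊢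
  refine ⟨hp.1, ?_⟩
  by_contra hpU
  exact hp.2 (NwS_of hn0c (hx _ hpU))

open Classical in
/-- all bases at the same time -/
lemma jn_bases {Y : ι → ℕ → ℝ} {C1 : ℕ} (hS : Small Y C1) (δ δ' β β' β2 : ℝ) (hδ : 0 < δ)
    (hδδ : δ < δ') (hβ : 0 < β) (hββ : β < β') (hββ2 : β' < β2) (hδβ : 2 * δ' + β2 < 1)
    (w r : ℕ) (hr : 1 ≤ r) (ε : ℝ) (hε : 0 < ε) (B : ℕ) :
    ∃ c : ℝ, 0 < c ∧ ∃ M0 : ℕ, ∀ M : ℕ, M0 ≤ M → ∀ b : ℕ, 2 ≤ b → b ≤ B →
    ∀ (u : Fin r → ℝ) (v : Fin r → ι → ℤ)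
    (m : Fin r → ℕ), Dat (Real.exp ((Real.log M) ^ β)) v m →
      (((Finset.Ioc M (2 * M)).filter (fun n => ¬ NwS b w (((C1 + 1) / Real.log 2 + 1) * Real.log M)
        ((Real.log M) ^ (1 + δ)) ε ((Real.log M) ^ β')
        (fun i => (u i + ∑ j, (v i j : ℝ) * Y j n) / m i))).card : ℝ) ≤
        M * ((Real.log M) ^ (1 + δ) * Real.exp (-(c * (Real.log M) ^ β'))) := by
  induction B with
  | zero => exact ⟨1, one_pos, 0, fun H _ b hb hb0 => by omega⟩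
  | succ B ih =>
    obtain ⟨c, hc, H0, hH0⟩ := ih
    rcases Nat.lt_or_ge (B + 1) 2 with hB | hB
    · exact ⟨1, one_pos, 0, fun H _ b hb hb0 => by omega⟩
    · obtain ⟨c', hc', H0', hH0'⟩ := jn_one hS δ δ' β β' β2 hδ hδδ hβ hββ hββ2 hδβ w r hr ε hε
        (B + 1) hB
      refine ⟨min c c', lt_min hc hc', max H0 H0', fun H hH b hb hbB u v m hdat => ?_⟩
      have hlog : (0 : ℝ) ≤ Real.log H := Real.log_natCast_nonneg H
      have hmono : ∀ c'' : ℝ, min c c' ≤ c'' →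
          (H : ℝ) * ((Real.log H) ^ (1 + δ) * Real.exp (-(c'' * (Real.log H) ^ β'))) ≤
          H * ((Real.log H) ^ (1 + δ) * Real.exp (-(min c c' * (Real.log H) ^ β'))) := by
        intro c'' hc''
        have e1 : (0 : ℝ) ≤ (Real.log H) ^ β' := Real.rpow_nonneg hlog _
        have e2 : (0 : ℝ) ≤ (Real.log H) ^ (1 + δ) := Real.rpow_nonneg hlog _
        refine mul_le_mul_of_nonneg_left (mul_le_mul_of_nonneg_left ?_ e2) (Nat.cast_nonneg _)
        apply Real.exp_le_exp.2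
        have := mul_le_mul_of_nonneg_right hc'' e1
        linarith
      rcases Nat.lt_or_ge b (B + 1) with hlt | hge
      · exact (hH0 H (le_of_max_le_left hH) b hb (by omega) u v m hdat).trans
          (hmono c (min_le_left _ _))
      · obtain rfl : b = B + 1 := by omega
        exact (hH0' H (le_of_max_le_right hH) u v m hdat).trans (hmono c' (min_le_right _ _))

end Pool.Agent.V5helper54.MR
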