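import Mathlib

/-!
# Liouville's inequality for linear forms in real algebraic numbers
-/

set_option autoImplicit false

namespace Pool.Agent.V5helper54.MR

open Finset

theorem lin_lower {ι : Type} [Fintype ι] (α : ι → ℝ) (hα : ∀ j, IsAlgebraic ℚ (α j)) :
    ∃ C : ℕ, 1 ≤ C ∧ ∀ (a : ι → ℤ) (A : ℝ), 1 ≤ A → (∀ j, |(a j : ℝ)| ≤ A) →
      ∑ j, (a j : ℝ) * α j ≠ 0 → 1 / (C * A ^ C) ≤ |∑ j, (a j : ℝ) * α j| := by
  classical
  let K : IntermediateField ℚ ℝ := IntermediateField.adjoin ℚ (Set.range α)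
  have hfd : FiniteDimensional ℚ K := by
    apply IntermediateField.finiteDimensional_adjoin
    rintro x ⟨j, rfl⟩
    exact (hα j).isIntegral
  have hmem : ∀ j, α j ∈ K := fun j => IntermediateField.subset_adjoin ℚ _ ⟨j, rfl⟩
  let β : ι → K := fun j => ⟨α j, hmem j⟩
  obtain ⟨D, hD0, hD⟩ := exists_integral_multiples ℤ ℚ (Finset.univ.image β)
  have hDint : ∀ j, IsIntegral ℤ ((D : K) * β j) := by
    intro j
    have h1 := hD (β j) (Finset.mem_image_of_mem _ (Finset.mem_univ j))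
    rwa [zsmul_eq_mul] at h1
  -- the size of the conjugates
  obtain ⟨S, hS1, hS⟩ : ∃ S : ℝ, 1 ≤ S ∧ ∀ σ : K →ₐ[ℚ] ℂ, ∑ j, ‖σ ((D : K) * β j)‖ ≤ S := by
    refine ⟨1 + ∑ σ : K →ₐ[ℚ] ℂ, ∑ j, ‖σ ((D : K) * β j)‖, ?_, ?_⟩
    · have : 0 ≤ ∑ σ : K →ₐ[ℚ] ℂ, ∑ j, ‖σ ((D : K) * β j)‖ := by positivity
      linarith
    · intro σ
      have := Finset.single_le_sum (f := fun σ : K →ₐ[ℚ] ℂ => ∑ j, ‖σ ((D : K) * β j)‖)
        (fun _ _ => by positivity) (Finset.mem_univ σ)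
      linarith
  obtain ⟨m, hm⟩ : ∃ m : ℕ, m = (Finset.univ : Finset (K →ₐ[ℚ] ℂ)).card := ⟨_, rfl⟩
  have hD1 : (1 : ℝ) ≤ |(D : ℝ)| := by
    have : (1 : ℤ) ≤ |D| := Int.one_le_abs hD0
    exact_mod_cast this
  obtain ⟨C, hC⟩ : ∃ C : ℕ, C = ⌈|(D : ℝ)| * S ^ m⌉₊ + m + 1 := ⟨_, rfl⟩
  have hCR : |(D : ℝ)| * S ^ m ≤ C := by
    rw [hC]
    push_cast
    have := Nat.le_ceil (|(D : ℝ)| * S ^ m)
    linarith [Nat.cast_nonneg (α := ℝ) m]
  refine ⟨C, by omega, ?_⟩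
  intro a A hA ha hne
  let x : K := ∑ j, (a j : K) * ((D : K) * β j)
  have hxval : (x : ℝ) = (D : ℝ) * ∑ j, (a j : ℝ) * α j := by
    have : (x : ℝ) = ∑ j, (a j : ℝ) * ((D : ℝ) * α j) := by simp [x, β]
    rw [this, Finset.mul_sum]
    refine Finset.sum_congr rfl fun j _ => ?_
    ring
  have hx0 : x ≠ 0 := by
    intro h
    have h1 : (x : ℝ) = 0 := by rw [h]; simp
    rw [hxval] at h1
    rcases mul_eq_zero.1 h1 with h2 | h2
    · exact hD0 (by exact_mod_cast h2)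
    · exact hne h2
  have hxint : IsIntegral ℤ x := by
    refine IsIntegral.sum _ fun j _ => ?_
    exact (isIntegral_algebraMap (R := ℤ) (x := a j)).mul (hDint j)
  have hnorm_int : IsIntegral ℤ (Algebra.norm ℚ x) := Algebra.isIntegral_norm ℚ hxint
  obtain ⟨n, hn⟩ := IsIntegrallyClosed.isIntegral_iff.1 hnorm_int
  have hn0 : n ≠ 0 := by
    rintro rfl
    have : Algebra.norm ℚ x = 0 := by rw [← hn]; simp
    exact hx0 ((Algebra.norm_eq_zero_iff).1 this)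
  have hprod : algebraMap ℚ ℂ (Algebra.norm ℚ x) = ∏ σ : K →ₐ[ℚ] ℂ, σ x :=
    Algebra.norm_eq_prod_embeddings ℚ ℂ x
  have h1 : (1 : ℝ) ≤ ∏ σ : K →ₐ[ℚ] ℂ, ‖σ x‖ := by
    rw [← norm_prod, ← hprod, ← hn]
    simp only [algebraMap_int_eq, eq_intCast, map_intCast, Complex.norm_intCast]
    rw [← Int.cast_abs]
    exact_mod_cast Int.one_le_abs hn0
  have hbound : ∀ σ : K →ₐ[ℚ] ℂ, ‖σ x‖ ≤ A * S := by
    intro σ
    have e1 : σ x = ∑ j, (a j : ℂ) * σ ((D : K) * β j) := by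
      simp only [x, map_sum, map_mul, map_intCast]
    rw [e1]
    calc ‖∑ j, (a j : ℂ) * σ ((D : K) * β j)‖ ≤ ∑ j, ‖(a j : ℂ) * σ ((D : K) * β j)‖ :=
          norm_sum_le _ _
      _ ≤ ∑ j, A * ‖σ ((D : K) * β j)‖ := by
          refine Finset.sum_le_sum fun j _ => ?_
          rw [norm_mul, Complex.norm_intCast]
          exact mul_le_mul_of_nonneg_right (ha j) (norm_nonneg _)
      _ = A * ∑ j, ‖σ ((D : K) * β j)‖ := by rw [Finset.mul_sum]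
      _ ≤ A * S := mul_le_mul_of_nonneg_left (hS σ) (by linarith)
  have hAS : 1 ≤ A * S := one_le_mul_of_one_le_of_one_le hA hS1
  let σ₀ : K →ₐ[ℚ] ℂ := (Complex.ofRealAm.restrictScalars ℚ).comp K.val
  have hσ₀ : ‖σ₀ x‖ = |(D : ℝ)| * |∑ j, (a j : ℝ) * α j| := by
    rw [← abs_mul, ← hxval]
    change ‖((x : ℝ) : ℂ)‖ = _
    rw [Complex.norm_real, Real.norm_eq_abs]
  have h2 : ∏ σ : K →ₐ[ℚ] ℂ, ‖σ x‖ ≤ ‖σ₀ x‖ * (A * S) ^ m := by
    rw [← Finset.mul_prod_erase Finset.univ _ (Finset.mem_univ σ₀)]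
    refine mul_le_mul_of_nonneg_left ?_ (norm_nonneg _)
    calc ∏ σ ∈ Finset.univ.erase σ₀, ‖σ x‖ ≤ ∏ σ ∈ Finset.univ.erase σ₀, (A * S) :=
          Finset.prod_le_prod (fun _ _ => norm_nonneg _) fun σ _ => hbound σ
      _ = (A * S) ^ (Finset.univ.erase σ₀).card := by rw [Finset.prod_const]
      _ ≤ (A * S) ^ m := by
          apply pow_le_pow_right₀ hAS
          rw [hm]
          exact Finset.card_le_card (Finset.erase_subset _ _)
  rw [hσ₀] at h2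
  have hCpos : (0 : ℝ) < C := by
    have : 1 ≤ C := by omega
    exact_mod_cast this
  have hAC : 0 < A ^ C := by positivity
  rw [div_le_iff₀ (by positivity)]
  obtain ⟨y, hy⟩ : ∃ y : ℝ, y = |∑ j, (a j : ℝ) * α j| := ⟨_, rfl⟩
  rw [← hy] at h2 ⊢
  have hy0 : 0 ≤ y := by rw [hy]; exact abs_nonneg _
  calc (1 : ℝ) ≤ |(D : ℝ)| * y * (A * S) ^ m := h1.trans h2
    _ = y * ((|(D : ℝ)| * S ^ m) * A ^ m) := by rw [mul_pow]; ring
    _ ≤ y * (C * A ^ C) := by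
        refine mul_le_mul_of_nonneg_left ?_ hy0
        refine mul_le_mul hCR (pow_le_pow_right₀ hA (by omega)) (by positivity) hCpos.le

end Pool.Agent.V5helper54.MR
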