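import Pool.Agent.V5helper54.MR.Tail

/-!
# Taylor coefficients of powers
-/

set_option autoImplicit false

namespace Pool.Agent.V5helper54.MR

open Finset Metric Filter Topology

/-- the binomial coefficients -/
noncomputable def bin (β : ℝ) : ℕ → ℝ
  | 0 => 1
  | (j + 1) => bin β j * (β - j) / (j + 1)

lemma bin_zero (β : ℝ) : bin β 0 = 1 := rfl

lemma bin_succ (β : ℝ) (j : ℕ) : bin β (j + 1) = bin β j * (β - j) / (j + 1) := rfl

lemma bin_nat {k l : ℕ} (h : k < l) : bin k l = 0 := by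
  induction l with
  | zero => omega
  | succ l ih =>
    rw [bin_succ]
    rcases Nat.lt_or_ge k l with h1 | h1
    · rw [ih h1]
      simp
    · obtain rfl : k = l := by omega
      simp

/-- upper and lower bounds -/
lemma bin_bounds {β : ℝ} (hβ : ∀ k : ℕ, β ≠ k) :
    ∃ c : ℝ, 0 < c ∧ ∃ C : ℝ, 1 ≤ C ∧ ∀ l : ℕ, c * (9 / 10 : ℝ) ^ l ≤ |bin β l| ∧
      |bin β l| ≤ C * (11 / 10 : ℝ) ^ l := by
  have hne : ∀ l, bin β l ≠ 0 := by
    intro l
    induction l with
    | zero => rw [bin_zero]; exact one_ne_zero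
    | succ l ih =>
      rw [bin_succ]
      have h1 : β - l ≠ 0 := sub_ne_zero.2 (hβ l)
      have h2 : (l : ℝ) + 1 ≠ 0 := by positivity
      exact div_ne_zero (mul_ne_zero ih h1) h2
  obtain ⟨l0, hl0⟩ : ∃ l0 : ℕ, 10 * (|β| + 1) ≤ l0 := ⟨_, Nat.le_ceil _⟩
  have hratio : ∀ l : ℕ, l0 ≤ l → 9 / 10 * |bin β l| ≤ |bin β (l + 1)| ∧
      |bin β (l + 1)| ≤ 11 / 10 * |bin β l| := by
    intro l hl
    have hlR : (l0 : ℝ) ≤ l := by exact_mod_cast hl
    have h1 := abs_nonneg β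
    have h2 := neg_abs_le β
    have h3 := le_abs_self β
    have e1 : |bin β (l + 1)| = |bin β l| * (((l : ℝ) - β) / (l + 1)) := by
      rw [bin_succ, abs_div, abs_mul, abs_of_pos (by positivity : (0 : ℝ) < (l : ℝ) + 1),
        abs_sub_comm β, abs_of_nonneg (by linarith : 0 ≤ (l : ℝ) - β), mul_div_assoc]
    have h4 : 9 / 10 ≤ ((l : ℝ) - β) / (l + 1) := by
      rw [le_div_iff₀ (by positivity)]
      linarith
    have h5 : ((l : ℝ) - β) / (l + 1) ≤ 11 / 10 := by
      rw [div_le_iff₀ (by positivity)]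
      linarith
    rw [e1]
    have h6 := abs_nonneg (bin β l)
    constructor <;> nlinarith
  obtain ⟨j1, -, hj1⟩ := Finset.exists_min_image (range (l0 + 1))
    (fun l => |bin β l| / (9 / 10 : ℝ) ^ l) ⟨0, by simp⟩
  obtain ⟨j2, -, hj2⟩ := Finset.exists_max_image (range (l0 + 1))
    (fun l => |bin β l| / (11 / 10 : ℝ) ^ l) ⟨0, by simp⟩
  have hc0 : 0 < |bin β j1| / (9 / 10 : ℝ) ^ j1 := by
    have := abs_pos.2 (hne j1)
    positivity
  have hC1 : 1 ≤ |bin β j2| / (11 / 10 : ℝ) ^ j2 := by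
    have := hj2 0 (by simp)
    simpa [bin_zero] using this
  refine ⟨_, hc0, _, hC1, ?_⟩
  intro l
  have hsmall : ∀ l ≤ l0, |bin β j1| / (9 / 10 : ℝ) ^ j1 * (9 / 10 : ℝ) ^ l ≤ |bin β l| ∧
      |bin β l| ≤ |bin β j2| / (11 / 10 : ℝ) ^ j2 * (11 / 10 : ℝ) ^ l := by
    intro l hl
    have h1 := hj1 l (mem_range.2 (by omega))
    have h2 := hj2 l (mem_range.2 (by omega))
    rw [le_div_iff₀ (by positivity)] at h1
    rw [div_le_iff₀ (by positivity)] at h2
    exact ⟨h1, h2⟩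
  rcases Nat.lt_or_ge l l0 with h | h
  · exact hsmall l h.le
  · induction l, h using Nat.le_induction with
    | base => exact hsmall l0 le_rfl
    | succ l hl ih =>
      obtain ⟨h1, h2⟩ := hratio l hl
      constructor
      · rw [pow_succ]
        nlinarith [ih.1]
      · rw [pow_succ]
        nlinarith [ih.2]

lemma cpow_ne {z : ℂ} (hz : 0 < z.re) : z ≠ 0 := by
  rintro rfl
  simp at hz

/-- derivatives of powers in the right half plane -/
lemma iter_cpow (τ : ℝ) (l : ℕ) : ∀ z : ℂ, 0 < z.re →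
    iteratedDeriv l (fun z : ℂ => z ^ (τ : ℂ)) z =
      ((l.factorial * bin τ l : ℝ) : ℂ) * z ^ ((τ - l : ℝ) : ℂ) := by
  induction l with
  | zero => intro z hz; simp [bin_zero]
  | succ l ih =>
    intro z hz
    rw [iteratedDeriv_succ]
    have hopen : IsOpen {z : ℂ | 0 < z.re} := isOpen_lt continuous_const Complex.continuous_re
    have h1 : iteratedDeriv l (fun z : ℂ => z ^ (τ : ℂ)) =ᶠ[𝓝 z]
        fun z => ((l.factorial * bin τ l : ℝ) : ℂ) * z ^ ((τ - l : ℝ) : ℂ) := by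
      filter_upwards [hopen.mem_nhds hz] with w hw
      exact ih w hw
    rw [h1.deriv_eq]
    have h2 : HasDerivAt (fun z : ℂ => z ^ ((τ - l : ℝ) : ℂ))
        (((τ - l : ℝ) : ℂ) * z ^ (((τ - l : ℝ) : ℂ) - 1)) z := by
      have h3 := (hasDerivAt_id z).cpow_const (c := ((τ - l : ℝ) : ℂ))
        (Or.inl (by simpa using hz))
      simpa using h3
    rw [(h2.const_mul _).deriv, ← mul_assoc]
    congr 1
    · rw [bin_succ, Nat.factorial_succ, ← Complex.ofReal_mul]
      congr 1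
      push_cast
      field_simp
    · congr 1
      push_cast
      ring

lemma norm_cpow_re {z : ℂ} (hz : z ≠ 0) (τ : ℝ) : ‖z ^ (τ : ℂ)‖ = ‖z‖ ^ τ := by
  rw [Complex.norm_cpow_of_ne_zero hz]
  simp

lemma diff_cpow (τ : ℝ) {z : ℂ} (hz : 0 < z.re) :
    DifferentiableAt ℂ (fun z : ℂ => z ^ (τ : ℂ)) z :=
  ((hasDerivAt_id z).cpow_const (c := (τ : ℂ)) (Or.inl (by simpa using hz))).differentiableAt

/-- the Taylor coefficients of a power at a positive number -/
lemma tc_cpow (τ : ℝ) (l : ℕ) {x : ℝ} (hx : 0 < x) :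
    tc (fun z : ℂ => z ^ (τ : ℂ)) x l = ((bin τ l * x ^ (τ - l) : ℝ) : ℂ) := by
  unfold tc
  rw [iter_cpow τ l x (by simpa using hx)]
  have h1 : ((l.factorial : ℕ) : ℂ) ≠ 0 := by exact_mod_cast l.factorial_ne_zero
  rw [Complex.ofReal_mul (l.factorial : ℝ), Complex.ofReal_natCast, mul_assoc,
    mul_div_cancel_left₀ _ h1, Complex.ofReal_mul, Complex.ofReal_cpow hx.le]

end Pool.Agent.V5helper54.MR
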