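import Pool.Agent.V5helper54.MR.Pw
import Pool.Agent.V5helper54.MR.Lio

/-!
# Functions with Puiseux expansions at infinity: the leading term which is not a polynomial
-/

set_option autoImplicit false

namespace Pool.Agent.V5helper54.MR

open Finset Metric Filter Topology

lemma tc_add {f g : ℂ → ℂ} {c : ℂ} (hf : AnalyticAt ℂ f c) (hg : AnalyticAt ℂ g c) (l : ℕ) :
    tc (fun z => f z + g z) c l = tc f c l + tc g c l := by
  unfold tc
  have h1 : iteratedDeriv l (fun z => f z + g z) c = iteratedDeriv l f c + iteratedDeriv l g c :=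
    iteratedDeriv_add hf.contDiffAt hg.contDiffAt
  rw [h1, add_div]

lemma tc_mul (s : ℂ) (f : ℂ → ℂ) (c : ℂ) (l : ℕ) :
    tc (fun z => s * f z) c l = s * tc f c l := by
  unfold tc
  rw [iteratedDeriv_const_mul_field, mul_div_assoc]

lemma tc_zero_fun (c : ℂ) (l : ℕ) : tc (fun _ => 0) c l = 0 := by
  unfold tc
  have h1 : iteratedDeriv l (fun _ : ℂ => (0 : ℂ)) c = 0 := by
    simp
  rw [h1, zero_div]

lemma tc_sum {κ : Type} (s : Finset κ) (f : κ → ℂ → ℂ) (c : ℂ)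
    (hf : ∀ i ∈ s, AnalyticAt ℂ (f i) c) (l : ℕ) :
    tc (fun z => ∑ i ∈ s, f i z) c l = ∑ i ∈ s, tc (f i) c l := by
  classical
  induction s using Finset.induction_on with
  | empty => simp [tc_zero_fun]
  | insert i s hi ih =>
    simp only [Finset.sum_insert hi]
    rw [tc_add (hf i (by simp)) _ l, ih (fun j hj => hf j (by simp [hj]))]
    exact Finset.analyticAt_fun_sum s (fun j hj => hf j (by simp [hj]))

/-- the exponent `(T - m) / q` is not a natural number -/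
def NP (q T m : ℕ) : Prop := ¬ (m ≤ T ∧ q ∣ T - m)

variable {ι : Type} [Fintype ι]

/-- the first coefficient which does not belong to a polynomial is not small -/
theorem lead (q T : ℕ) (c : ι → ℕ → ℝ) (halg : ∀ j m, IsAlgebraic ℚ (c j m))
    (hnd : ∀ a : ι → ℤ, a ≠ 0 → ∃ m, NP q T m ∧ ∑ j, (a j : ℝ) * c j m ≠ 0) :
    ∃ K C : ℕ, 1 ≤ C ∧ ∀ (a : ι → ℤ) (A : ℝ), a ≠ 0 → 1 ≤ A → (∀ j, |(a j : ℝ)| ≤ A) →
      ∃ m < K, NP q T m ∧ (∀ i < m, NP q T i → ∑ j, (a j : ℝ) * c j i = 0) ∧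
        1 / (C * A ^ C) ≤ |∑ j, (a j : ℝ) * c j m| := by
  classical
  -- the chain of subspaces
  let W : ℕ → Submodule ℚ (ι → ℚ) := fun K =>
    { carrier := {a | ∀ m < K, NP q T m → ∑ j, ((a j : ℚ) : ℝ) * c j m = 0}
      add_mem' := by
        intro a b ha hb m hm hN
        have h1 := ha m hm hN
        have h2 := hb m hm hN
        simp only [Pi.add_apply, Rat.cast_add, add_mul, Finset.sum_add_distrib, h1, h2, add_zero]
      zero_mem' := by
        intro m hm hN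
        simp
      smul_mem' := by
        intro r a ha m hm hN
        have h1 := ha m hm hN
        simp only [Pi.smul_apply, smul_eq_mul, Rat.cast_mul, mul_assoc, ← Finset.mul_sum, h1,
          mul_zero] }
  have hW : ∀ K a, a ∈ W K ↔ ∀ m < K, NP q T m → ∑ j, ((a j : ℚ) : ℝ) * c j m = 0 :=
    fun K a => Iff.rfl
  let F : ℕ →o (Submodule ℚ (ι → ℚ))ᵒᵈ :=
    { toFun := fun K => OrderDual.toDual (W K)
      monotone' := by
        intro K K' hKK
        change W K' ≤ W K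
        intro a ha m hm hN
        exact ha m (lt_of_lt_of_le hm hKK) hN }
  obtain ⟨K, hK⟩ := IsArtinian.monotone_stabilizes F
  have hKW : ∀ K', K ≤ K' → W K = W K' := fun K' h => hK K' h
  have hex : ∀ a : ι → ℤ, a ≠ 0 → ∃ m, m < K ∧ NP q T m ∧ ∑ j, (a j : ℝ) * c j m ≠ 0 := by
    intro a ha
    by_contra hcon
    push Not at hcon
    obtain ⟨m, hN, hm⟩ := hnd a ha
    have h1 : (fun j => (a j : ℚ)) ∈ W K := by
      rw [hW]
      intro i hi hNi
      simpa using hcon i hi hNi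
    have h2 : (fun j => (a j : ℚ)) ∈ W (max K (m + 1)) := by
      rw [← hKW _ (le_max_left _ _)]
      exact h1
    rw [hW] at h2
    have h3 := h2 m (lt_of_lt_of_le (Nat.lt_succ_self m) (le_max_right _ _)) hN
    apply hm
    simpa using h3
  choose C hC1 hC using fun m => lin_lower (fun j => c j m) (fun j => halg j m)
  obtain ⟨C', hC'⟩ : ∃ C' : ℕ, C' = ∑ m ∈ range K, C m + 1 := ⟨_, rfl⟩
  refine ⟨K, C', by omega, ?_⟩
  intro a A ha hA haA
  have hP := hex a ha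
  obtain ⟨m, hm⟩ : ∃ m, m = Nat.find hP := ⟨_, rfl⟩
  obtain ⟨hm1, hm2, hm3⟩ := Nat.find_spec hP
  rw [← hm] at hm1 hm2 hm3
  have hmin : ∀ i < m, NP q T i → ∑ j, (a j : ℝ) * c j i = 0 := by
    intro i hi hN
    by_contra h
    exact Nat.find_min hP (by rw [← hm]; exact hi) ⟨lt_trans hi hm1, hN, h⟩
  refine ⟨m, hm1, hm2, hmin, ?_⟩
  refine le_trans ?_ (hC m a A hA haA hm3)
  have hle : C m ≤ C' := by
    rw [hC']
    have := Finset.single_le_sum (f := C) (fun _ _ => Nat.zero_le _) (mem_range.2 hm1)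
    omega
  have hCm : (0 : ℝ) < C m := by exact_mod_cast hC1 m
  have hAm : 0 < A ^ C m := by positivity
  refine one_div_le_one_div_of_le (by positivity) ?_
  refine mul_le_mul (by exact_mod_cast hle) (pow_le_pow_right₀ hA hle) hAm.le (by positivity)

/-- the combination -/
noncomputable def GG (q T : ℕ) (Z : ι → ℂ → ℂ) (a : ι → ℤ) (z : ℂ) : ℂ :=
  z ^ (((T : ℝ) / q : ℝ) : ℂ) * ∑ j, (a j : ℂ) * Z j (z ^ ((-(1 / (q : ℝ)) : ℝ) : ℂ))

/-- local bounds for the remainders -/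
lemma rem_zero (Z : ι → ℂ → ℂ) (hZ : ∀ j, AnalyticAt ℂ (Z j) 0) (K : ℕ) :
    ∃ v0 : ℝ, 0 < v0 ∧ ∃ C : ℝ, 1 ≤ C ∧ ∀ j, DifferentiableOn ℂ (Z j) (ball 0 v0) ∧
      ∀ m < K, ∀ v : ℂ, ‖v‖ < v0 →
        ‖Z j v - ∑ i ∈ range (m + 1), tc (Z j) 0 i * v ^ i‖ ≤ C * ‖v‖ ^ (m + 1) := by
  classical
  have hone : ∀ j, ∃ v0 : ℝ, 0 < v0 ∧ ∃ C : ℝ, 1 ≤ C ∧ DifferentiableOn ℂ (Z j) (ball 0 v0) ∧
      ∀ m < K, ∀ v : ℂ, ‖v‖ < v0 →
        ‖Z j v - ∑ i ∈ range (m + 1), tc (Z j) 0 i * v ^ i‖ ≤ C * ‖v‖ ^ (m + 1) := by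
    intro j
    obtain ⟨r, hr, hrZ⟩ := Metric.eventually_nhds_iff_ball.1 (hZ j).eventually_analyticAt
    have hd : DifferentiableOn ℂ (Z j) (ball 0 r) := fun z hz =>
      (hrZ z hz).differentiableAt.differentiableWithinAt
    obtain ⟨ρ, hρ⟩ : ∃ ρ : ℝ, ρ = r / 2 := ⟨_, rfl⟩
    have hρ0 : 0 < ρ := by rw [hρ]; positivity
    have hsub : closedBall (0 : ℂ) ρ ⊆ ball 0 r := closedBall_subset_ball (by rw [hρ]; linarith)
    have hdc : DiffContOnCl ℂ (Z j) (ball 0 ρ) := by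
      refine (hd.mono ?_).diffContOnCl
      exact closure_ball_subset_closedBall.trans hsub
    obtain ⟨B, hB⟩ := (isCompact_sphere (0 : ℂ) ρ).exists_bound_of_continuousOn
      ((hd.continuousOn).mono (sphere_subset_closedBall.trans hsub))
    obtain ⟨B', hB'⟩ : ∃ B' : ℝ, B' = max B 1 := ⟨_, rfl⟩
    have hB'1 : 1 ≤ B' := by rw [hB']; exact le_max_right _ _
    have hBB : ∀ z ∈ sphere (0 : ℂ) ρ, ‖Z j z‖ ≤ B' := fun z hz =>
      (hB z hz).trans (by rw [hB']; exact le_max_left _ _)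
    obtain ⟨E, hE⟩ : ∃ E : ℝ, E = max (1 / ρ) 1 := ⟨_, rfl⟩
    have hE1 : 1 ≤ E := by rw [hE]; exact le_max_right _ _
    have hEρ : 1 / ρ ≤ E := by rw [hE]; exact le_max_left _ _
    have hEK : 1 ≤ E ^ K := one_le_pow₀ hE1
    refine ⟨ρ / 2, by positivity, 2 * B' * E ^ K, by nlinarith, hd.mono (ball_subset_ball ?_), ?_⟩
    · rw [hρ]; linarith
    · intro m hm v hv
      have h1 := tail (r := m) hρ0 (hd.mono (ball_subset_closedBall.trans hsub))
        (fun l _ => tc_le hρ0 hdc hBB l) (h := v) hv.le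
      rw [zero_add] at h1
      refine h1.trans ?_
      have h2 : (‖v‖ / ρ) ^ (m + 1) ≤ E ^ K * ‖v‖ ^ (m + 1) := by
        calc (‖v‖ / ρ) ^ (m + 1) = (1 / ρ) ^ (m + 1) * ‖v‖ ^ (m + 1) := by
              rw [← mul_pow]; ring
          _ ≤ E ^ (m + 1) * ‖v‖ ^ (m + 1) := by gcongr
          _ ≤ E ^ K * ‖v‖ ^ (m + 1) := by
              have := pow_le_pow_right₀ hE1 (by omega : m + 1 ≤ K)
              gcongr
      calc 2 * B' * (‖v‖ / ρ) ^ (m + 1) ≤ 2 * B' * (E ^ K * ‖v‖ ^ (m + 1)) := by gcongr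
        _ = _ := by ring
  choose v hv C hC hd hR using hone
  rcases isEmpty_or_nonempty ι with he | hne
  · exact ⟨1, one_pos, 1, le_rfl, fun j => (he.false j).elim⟩
  · obtain ⟨j0, -, hj0⟩ := Finset.exists_min_image Finset.univ v Finset.univ_nonempty
    obtain ⟨j1, -, hj1⟩ := Finset.exists_max_image Finset.univ C Finset.univ_nonempty
    refine ⟨v j0, hv j0, C j1, hC j1, fun j => ⟨(hd j).mono (ball_subset_ball
      (hj0 j (mem_univ j))), fun m hm w hw => ?_⟩⟩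
    refine (hR j m hm w (lt_of_lt_of_le hw (hj0 j (mem_univ j)))).trans ?_
    exact mul_le_mul_of_nonneg_right (hj1 j (mem_univ j)) (by positivity)

end Pool.Agent.V5helper54.MR
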