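import Mathlib

/-!
# Taylor coefficients and remainders of analytic functions on discs
-/

set_option autoImplicit false

namespace Pool.Agent.V5helper54.MR

open Finset Metric

/-- the Taylor coefficients -/
noncomputable def tc (f : ℂ → ℂ) (c : ℂ) (l : ℕ) : ℂ := iteratedDeriv l f c / (l.factorial : ℂ)

lemma tc_le {f : ℂ → ℂ} {c : ℂ} {ρ B : ℝ} (hρ : 0 < ρ) (hf : DiffContOnCl ℂ f (ball c ρ))
    (hB : ∀ z ∈ sphere c ρ, ‖f z‖ ≤ B) (l : ℕ) : ‖tc f c l‖ ≤ B / ρ ^ l := by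
  have h1 := Complex.norm_iteratedDeriv_le_of_forall_mem_sphere_norm_le l hρ hf hB
  unfold tc
  have h2 : (0 : ℝ) < l.factorial := by exact_mod_cast l.factorial_pos
  rw [norm_div, Complex.norm_natCast, div_le_iff₀ h2]
  refine h1.trans (le_of_eq ?_)
  ring

lemma hasSum_tc {f : ℂ → ℂ} {c : ℂ} {ρ : ℝ} (hf : DifferentiableOn ℂ f (ball c ρ)) {h : ℂ}
    (hh : ‖h‖ < ρ) : HasSum (fun l => tc f c l * h ^ l) (f (c + h)) := by
  have h1 := Complex.hasSum_taylorSeries_on_ball hf (z := c + h) (by simpa using hh)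
  refine h1.congr_fun ?_ |> fun h => h
  intro l
  unfold tc
  simp only [smul_eq_mul, add_sub_cancel_left]
  field_simp

lemma tail {f : ℂ → ℂ} {c : ℂ} {ρ B : ℝ} (hρ : 0 < ρ) (hf : DifferentiableOn ℂ f (ball c ρ))
    {r : ℕ} (hB : ∀ l, r < l → ‖tc f c l‖ ≤ B / ρ ^ l) {h : ℂ} (hh : ‖h‖ ≤ ρ / 2) :
    ‖f (c + h) - ∑ l ∈ range (r + 1), tc f c l * h ^ l‖ ≤ 2 * B * (‖h‖ / ρ) ^ (r + 1) := by
  have h1 := hasSum_tc hf (h := h) (by linarith)
  have h2 := (hasSum_nat_add_iff' (r + 1)).2 h1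
  obtain ⟨x, hx⟩ : ∃ x : ℝ, x = ‖h‖ / ρ := ⟨_, rfl⟩
  have hx0 : 0 ≤ x := by rw [hx]; positivity
  have hx1 : x ≤ 1 / 2 := by rw [hx, div_le_iff₀ hρ]; linarith
  have hB0 : 0 ≤ B := by
    have h3 := (norm_nonneg _).trans (hB (r + 1) (by omega))
    rw [le_div_iff₀ (by positivity)] at h3
    linarith
  have h4 : HasSum (fun n : ℕ => B * x ^ (r + 1) * x ^ n) (B * x ^ (r + 1) * (1 - x)⁻¹) :=
    (hasSum_geometric_of_lt_one hx0 (by linarith)).mul_left _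
  have h5 := h2.norm_le_of_bounded h4 (fun n => by
    rw [norm_mul, norm_pow]
    calc ‖tc f c (n + (r + 1))‖ * ‖h‖ ^ (n + (r + 1)) ≤
        B / ρ ^ (n + (r + 1)) * ‖h‖ ^ (n + (r + 1)) := by
          refine mul_le_mul_of_nonneg_right (hB _ (by omega)) (by positivity)
      _ = B * x ^ (n + (r + 1)) := by rw [hx, div_pow]; ring
      _ = B * x ^ (r + 1) * x ^ n := by rw [pow_add]; ring)
  refine h5.trans ?_
  rw [← hx]
  have h6 : (1 - x)⁻¹ ≤ 2 := by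
    rw [inv_le_comm₀ (by linarith) (by norm_num)]
    linarith
  calc B * x ^ (r + 1) * (1 - x)⁻¹ ≤ B * x ^ (r + 1) * 2 :=
        mul_le_mul_of_nonneg_left h6 (by positivity)
    _ = _ := by ring

end Pool.Agent.V5helper54.MR
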